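import Mathlib.RingTheory.AdjoinRoot
import Mathlib.FieldTheory.KummerExtension
import Mathlib.FieldTheory.IntermediateField.Adjoin.Basic

/-!
# Extensions of the field of constants
-/

open Polynomial
open scoped Classical

set_option autoImplicit false
set_option linter.all false
set_option maxHeartbeats 400000

namespace Run7.h905.DK

section ext

variable {k k' : Type} [Field k] [Field k'] [Algebra k k'] [FiniteDimensional k k']

/-- An irreducible polynomial remains irreducible over extensions of degree prime to its degree. -/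
theorem irr_ext {Q : k[X]} (hQ : Irreducible Q)
    (hc : Nat.Coprime Q.natDegree (Module.finrank k k')) :
    Irreducible (Q.map (algebraMap k k')) := by
  have hQ0 : Q.map (algebraMap k k') ≠ 0 := (Polynomial.map_ne_zero_iff
    (algebraMap k k').injective).2 hQ.ne_zero
  have hdeg : (Q.map (algebraMap k k')).natDegree = Q.natDegree := natDegree_map _
  have hpos : 0 < Q.natDegree := hQ.natDegree_pos
  have hnu : ¬ IsUnit (Q.map (algebraMap k k')) := by
    intro h
    have := natDegree_eq_zero_of_isUnit h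
    omega
  obtain ⟨P, hP, hPQ⟩ := WfDvdMonoid.exists_irreducible_factor hnu hQ0
  haveI : Fact (Irreducible P) := ⟨hP⟩
  haveI : FiniteDimensional k' (AdjoinRoot P) := (AdjoinRoot.powerBasis hP.ne_zero).finite
  haveI : FiniteDimensional k (AdjoinRoot P) := FiniteDimensional.trans k k' (AdjoinRoot P)
  have h1 : Module.finrank k' (AdjoinRoot P) = P.natDegree := by
    rw [(AdjoinRoot.powerBasis hP.ne_zero).finrank, AdjoinRoot.powerBasis_dim]
  have h2 := Module.finrank_mul_finrank k k' (AdjoinRoot P)
  set θ := AdjoinRoot.root P with hθ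
  have hz : aeval θ Q = 0 := by
    rw [← aeval_map_algebraMap k', AdjoinRoot.aeval_eq, AdjoinRoot.mk_eq_zero]
    exact hPQ
  have hint : IsIntegral k θ := Algebra.IsIntegral.isIntegral θ
  have h3 : (minpoly k θ).natDegree = Q.natDegree := by
    have h4 := (minpoly.irreducible hint).associated_of_dvd hQ (minpoly.dvd k θ hz)
    exact natDegree_eq_of_degree_eq (degree_eq_degree_of_associated h4)
  have h5 : Q.natDegree ∣ Module.finrank k (AdjoinRoot P) := by
    rw [← h3, ← IntermediateField.adjoin.finrank hint]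
    exact ⟨_, (Module.finrank_mul_finrank k (IntermediateField.adjoin k {θ}) (AdjoinRoot P)).symm⟩
  rw [← h2, h1] at h5
  have h6 := Nat.le_of_dvd hP.natDegree_pos (hc.dvd_of_dvd_mul_left h5)
  exact (associated_of_dvd_of_natDegree_le hPQ hQ0 (by rw [hdeg]; exact h6)).irreducible hP

/-- A polynomial that is not a square modulo `Q` is not a square modulo `Q` over extensions of
degree prime to `2 deg Q`. -/
theorem nosq_ext {Q e : k[X]} (hQ : Irreducible Q)
    (hc : Nat.Coprime (2 * Q.natDegree) (Module.finrank k k'))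
    (he : ∀ w : k[X], ¬ Q ∣ e - w ^ 2) (w : k'[X]) :
    ¬ Q.map (algebraMap k k') ∣ e.map (algebraMap k k') - w ^ 2 := by
  intro hd
  have hc1 : Nat.Coprime Q.natDegree (Module.finrank k k') :=
    Nat.Coprime.coprime_dvd_left (Dvd.intro_left 2 rfl) hc
  have hc2 : Nat.Coprime 2 (Module.finrank k k') :=
    Nat.Coprime.coprime_dvd_left (Dvd.intro _ rfl) hc
  have hQ' := irr_ext hQ hc1
  set Q' := Q.map (algebraMap k k') with hQd
  have hdeg : Q'.natDegree = Q.natDegree := natDegree_map _
  haveI : Fact (Irreducible Q) := ⟨hQ⟩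
  haveI : Fact (Irreducible Q') := ⟨hQ'⟩
  let j : AdjoinRoot Q →+* AdjoinRoot Q' := AdjoinRoot.map (algebraMap k k') Q Q' dvd_rfl
  have hj : ∀ p : k[X], j (AdjoinRoot.mk Q p) = AdjoinRoot.mk Q' (p.map (algebraMap k k')) := by
    have h0 : j.comp (AdjoinRoot.mk Q) = (AdjoinRoot.mk Q').comp (mapRingHom (algebraMap k k')) := by
      apply Polynomial.ringHom_ext
      · intro a
        show AdjoinRoot.map (algebraMap k k') Q Q' dvd_rfl (AdjoinRoot.of Q a) =
          AdjoinRoot.mk Q' ((C a).map (algebraMap k k'))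
        rw [AdjoinRoot.map_of, map_C]
        rfl
      · show AdjoinRoot.map (algebraMap k k') Q Q' dvd_rfl (AdjoinRoot.root Q) =
          AdjoinRoot.mk Q' (X.map (algebraMap k k'))
        rw [AdjoinRoot.map_root, map_X]
        rfl
    intro p
    exact RingHom.congr_fun h0 p
  letI : Algebra (AdjoinRoot Q) (AdjoinRoot Q') := j.toAlgebra
  haveI : IsScalarTower k (AdjoinRoot Q) (AdjoinRoot Q') := by
    refine IsScalarTower.of_algebraMap_eq fun x => ?_
    show _ = j (AdjoinRoot.mk Q (C x))
    rw [hj, map_C]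
    rw [IsScalarTower.algebraMap_apply k k' (AdjoinRoot Q')]
    rfl
  haveI : FiniteDimensional k' (AdjoinRoot Q') := (AdjoinRoot.powerBasis hQ'.ne_zero).finite
  haveI : FiniteDimensional k (AdjoinRoot Q') := FiniteDimensional.trans k k' (AdjoinRoot Q')
  haveI : FiniteDimensional k (AdjoinRoot Q) := (AdjoinRoot.powerBasis hQ.ne_zero).finite
  haveI : FiniteDimensional (AdjoinRoot Q) (AdjoinRoot Q') :=
    FiniteDimensional.right k (AdjoinRoot Q) (AdjoinRoot Q')
  have h1 : Module.finrank k' (AdjoinRoot Q') = Q'.natDegree := by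
    rw [(AdjoinRoot.powerBasis hQ'.ne_zero).finrank, AdjoinRoot.powerBasis_dim]
  have h2 : Module.finrank k (AdjoinRoot Q) = Q.natDegree := by
    rw [(AdjoinRoot.powerBasis hQ.ne_zero).finrank, AdjoinRoot.powerBasis_dim]
  have h3 := Module.finrank_mul_finrank k k' (AdjoinRoot Q')
  have h4 := Module.finrank_mul_finrank k (AdjoinRoot Q) (AdjoinRoot Q')
  have h5 : Module.finrank (AdjoinRoot Q) (AdjoinRoot Q') = Module.finrank k k' := by
    rw [← h3, h1, hdeg, h2, mul_comm (Module.finrank k k')] at h4
    exact Nat.eq_of_mul_eq_mul_left hQ.natDegree_pos h4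
  -- the square root
  set ē := AdjoinRoot.mk Q e with hē
  have hns : ∀ z : AdjoinRoot Q, z ^ 2 ≠ ē := by
    intro z hz
    obtain ⟨w0, rfl⟩ := AdjoinRoot.mk_surjective z
    apply he w0
    rw [← AdjoinRoot.mk_eq_zero, map_sub, map_pow, hz, ← hē, sub_self]
  have hirr : Irreducible (X ^ 2 - C ē) := X_pow_sub_C_irreducible_of_prime Nat.prime_two hns
  set v := AdjoinRoot.mk Q' w with hv
  have hv2 : aeval v (X ^ 2 - C ē) = 0 := by
    rw [map_sub, map_pow, aeval_X, aeval_C]
    show v ^ 2 - j ē = 0
    rw [hē, hj, hv, ← map_pow, ← map_sub, ← neg_sub, map_neg, neg_eq_zero, AdjoinRoot.mk_eq_zero]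
    exact hd
  have hmin : (minpoly (AdjoinRoot Q) v).natDegree = 2 := by
    have hint : IsIntegral (AdjoinRoot Q) v := Algebra.IsIntegral.isIntegral v
    have h6 := (minpoly.irreducible hint).associated_of_dvd hirr (minpoly.dvd _ v hv2)
    rw [natDegree_eq_of_degree_eq (degree_eq_degree_of_associated h6), natDegree_X_pow_sub_C]
  have h7 : 2 ∣ Module.finrank (AdjoinRoot Q) (AdjoinRoot Q') := by
    rw [← hmin, ← IntermediateField.adjoin.finrank (Algebra.IsIntegral.isIntegral v)]
    exact ⟨_, (Module.finrank_mul_finrank (AdjoinRoot Q)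
      (IntermediateField.adjoin (AdjoinRoot Q) {v}) (AdjoinRoot Q')).symm⟩
  rw [h5] at h7
  have h8 := Nat.dvd_gcd (dvd_refl 2) h7
  rw [hc2] at h8
  omega

end ext

end Run7.h905.DK
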