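import Mathlib.RingTheory.Polynomial.Dickson
import Mathlib.RingTheory.Polynomial.Cyclotomic.Basic
import Mathlib.FieldTheory.IsAlgClosed.AlgebraicClosure

/-!
# Dickson polynomials with a parameter: the factorisation of the difference
-/

open Polynomial
open scoped Classical

set_option autoImplicit false
set_option linter.all false
set_option maxHeartbeats 400000

namespace Run7.h905.DK

section ring

variable {R : Type} [CommRing R]

/-- The Dickson polynomial `D_n(x, δ)`, `D_n(u + δ / u, δ) = u ^ n + (δ / u) ^ n`. -/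
noncomputable def D (δ : R) (n : ℕ) : R[X] := dickson 1 δ n

theorem D_rec (δ : R) (n : ℕ) : D δ (n + 2) = X * D δ (n + 1) - C δ * D δ n := by
  unfold D
  rw [dickson_add_two]

theorem D_zero (δ : R) : D δ 0 = 2 := by
  unfold D
  rw [dickson_zero]
  push_cast
  norm_num

theorem D_one (δ : R) : D δ 1 = X := by
  unfold D
  rw [dickson_one]

theorem D_map {S : Type} [CommRing S] (φ : R →+* S) (δ : R) (n : ℕ) :
    (D δ n).map φ = D (φ δ) n := by
  unfold D
  rw [map_dickson]

theorem D_eval {z w δ : R} (h : z * w = δ) (n : ℕ) :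
    (D δ n).eval (z + w) = z ^ n + w ^ n ∧ (D δ (n + 1)).eval (z + w) = z ^ (n + 1) + w ^ (n + 1) := by
  induction n with
  | zero =>
    rw [zero_add, D_zero, D_one, eval_X, pow_zero, pow_zero, pow_one, pow_one]
    refine ⟨?_, rfl⟩
    rw [eval_ofNat]
    norm_num
  | succ n ih =>
    refine ⟨ih.2, ?_⟩
    rw [D_rec, eval_sub, eval_mul, eval_X, ih.2, eval_mul, eval_C, ih.1, ← h]
    ring

variable [Nontrivial R]

theorem D_aux (δ : R) (n : ℕ) : (D δ n).natDegree ≤ n ∧
    ((D δ (n + 1)).Monic ∧ (D δ (n + 1)).natDegree = n + 1) := by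
  induction n with
  | zero =>
    refine ⟨?_, ?_, ?_⟩
    · rw [D_zero]
      exact (natDegree_C (2 : R)).le
    · rw [zero_add, D_one]
      exact monic_X
    · rw [zero_add, D_one, natDegree_X]
  | succ n ih =>
    obtain ⟨h1, h2, h3⟩ := ih
    have h4 : (X * D δ (n + 1)).natDegree = n + 2 := by
      rw [natDegree_X_mul h2.ne_zero, h3]
    have h5 : (X * D δ (n + 1)).Monic := monic_X.mul h2
    have h8 : (C δ * D δ n).natDegree ≤ n := (natDegree_C_mul_le _ _).trans h1
    have h6 : (C δ * D δ n).degree < (X * D δ (n + 1)).degree := by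
      rw [degree_eq_natDegree h5.ne_zero, h4]
      refine lt_of_le_of_lt degree_le_natDegree ?_
      exact_mod_cast lt_of_le_of_lt h8 (by omega)
    refine ⟨h3.le, ?_, ?_⟩
    · rw [D_rec]
      exact h5.sub_of_left h6
    · rw [D_rec, natDegree_sub_eq_left_of_natDegree_lt, h4]
      rw [h4]
      omega

theorem D_monic (δ : R) {n : ℕ} (hn : n ≠ 0) : (D δ n).Monic := by
  obtain ⟨m, rfl⟩ := Nat.exists_eq_succ_of_ne_zero hn
  exact (D_aux δ m).2.1

theorem D_deg (δ : R) {n : ℕ} (hn : n ≠ 0) : (D δ n).natDegree = n := by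
  obtain ⟨m, rfl⟩ := Nat.exists_eq_succ_of_ne_zero hn
  exact (D_aux δ m).2.2

end ring

section prod

variable {L : Type} [Field L] {n : ℕ} {ζ : L}

theorem pow_sub' (hn : 0 < n) (hζ : IsPrimitiveRoot ζ n) (u z : L) :
    u ^ n - z ^ n = ∏ j ∈ Finset.range n, (u - ζ ^ j * z) := by
  rw [hζ.pow_sub_pow_eq_prod_sub_mul u z hn]
  have h1 : nthRootsFinset n (1 : L) = (Finset.range n).image fun j => ζ ^ j := by
    symm
    apply Finset.eq_of_subset_of_card_le
    · intro x hx
      rw [Finset.mem_image] at hx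
      obtain ⟨j, -, rfl⟩ := hx
      rw [mem_nthRootsFinset hn, ← pow_mul, mul_comm, pow_mul, hζ.pow_eq_one, one_pow]
    · rw [Finset.card_image_of_injOn, Finset.card_range, hζ.card_nthRootsFinset]
      intro i hi j hj h
      exact hζ.pow_inj (Finset.mem_range.1 hi) (Finset.mem_range.1 hj) h
  rw [h1, Finset.prod_image]
  intro i hi j hj h
  exact hζ.pow_inj (Finset.mem_range.1 hi) (Finset.mem_range.1 hj) h

/-- Over an algebraically closed field `D_n(x) - D_n(z + w)` is a product of linear factors. -/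
theorem D_prod [IsAlgClosed L] (hn : 0 < n) (hζ : IsPrimitiveRoot ζ n) {δ z w : L} (hδ : δ ≠ 0)
    (h : z * w = δ) : D δ n - C (z ^ n + w ^ n) =
      ∏ j ∈ Finset.range n, (X - C (ζ ^ j * z + ζ⁻¹ ^ j * w)) := by
  have hζ0 : ζ ≠ 0 := hζ.ne_zero hn.ne'
  apply Polynomial.funext
  intro x
  -- write `x = u + u'`
  obtain ⟨u, hu⟩ : ∃ u : L, eval u (X ^ 2 - C x * X + C δ) = 0 := by
    refine IsAlgClosed.exists_root _ ?_
    have : (X ^ 2 - C x * X + C δ : L[X]).degree = 2 := by
      compute_degree!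
    rw [this]
    norm_num
  rw [eval_add, eval_sub, eval_pow, eval_X, eval_mul, eval_C, eval_X, eval_C] at hu
  have hu0 : u ≠ 0 := by
    rintro rfl
    apply hδ
    linear_combination hu
  set v := δ * u⁻¹ with hv
  have huv : u * v = δ := by
    rw [hv]
    field_simp
  have hx : x = u + v := by
    apply mul_left_cancel₀ hu0
    linear_combination -hu - huv
  rw [eval_sub, eval_C, hx, (D_eval huv n).1, eval_prod]
  simp only [eval_sub, eval_X, eval_C]
  have h2 : ∀ j ∈ Finset.range n, (u + v - (ζ ^ j * z + ζ⁻¹ ^ j * w)) * u =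
      (u - ζ ^ j * z) * (u - ζ⁻¹ ^ j * w) := by
    intro j _
    have h3 : ζ ^ j * ζ⁻¹ ^ j = 1 := by
      rw [← mul_pow, mul_inv_cancel₀ hζ0, one_pow]
    linear_combination huv - h - z * w * h3
  have h4 : (∏ j ∈ Finset.range n, (u + v - (ζ ^ j * z + ζ⁻¹ ^ j * w))) * u ^ n =
      (u ^ n - z ^ n) * (u ^ n - w ^ n) := by
    rw [pow_sub' hn hζ, pow_sub' hn hζ.inv, ← Finset.prod_mul_distrib,
      ← Finset.prod_congr rfl h2, Finset.prod_mul_distrib, Finset.prod_const, Finset.card_range]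
  apply mul_right_cancel₀ (pow_ne_zero n hu0)
  rw [h4]
  have h5 : u ^ n * v ^ n = z ^ n * w ^ n := by
    rw [← mul_pow, ← mul_pow, huv, h]
  linear_combination h5

/-- Pairing the factors `j` and `n - j`. -/
theorem pair_prod {M : Type} [CommMonoid M] (g : ℕ) (F : ℕ → M) :
    ∏ j ∈ Finset.range (2 * g + 1), F j =
      F 0 * ∏ j ∈ Finset.range g, (F (j + 1) * F (2 * g + 1 - (j + 1))) := by
  rw [Finset.prod_range_succ', mul_comm, two_mul, Finset.prod_range_add, Finset.prod_mul_distrib]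
  congr 2
  rw [← Finset.prod_range_reflect]
  apply Finset.prod_congr rfl
  intro j hj
  rw [Finset.mem_range] at hj
  congr 1
  omega

/-- The coefficient `ζ ^ j + ζ ^ (-j)`. -/
def cj {R : Type} [CommRing R] (ζ : R) (n j : ℕ) : R := ζ ^ j + ζ ^ (n - j)

theorem D_split0 [IsAlgClosed L] {g : ℕ} (hζ : IsPrimitiveRoot ζ (2 * g + 1)) {δ : L} (hδ : δ ≠ 0)
    (b : L) : D δ (2 * g + 1) - C ((D δ (2 * g + 1)).eval b) =
      (X - C b) * ∏ j ∈ Finset.range g, (X ^ 2 - C (cj ζ (2 * g + 1) (j + 1) * b) * X +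
        C (b ^ 2 + δ * (cj ζ (2 * g + 1) (j + 1) ^ 2 - 4))) := by
  obtain ⟨z, hz⟩ : ∃ u : L, eval u (X ^ 2 - C b * X + C δ) = 0 := by
    refine IsAlgClosed.exists_root _ ?_
    have : (X ^ 2 - C b * X + C δ : L[X]).degree = 2 := by
      compute_degree!
    rw [this]
    norm_num
  rw [eval_add, eval_sub, eval_pow, eval_X, eval_mul, eval_C, eval_X, eval_C] at hz
  have hz0 : z ≠ 0 := by
    rintro rfl
    apply hδ
    linear_combination hz
  have hζ0 : ζ ≠ 0 := hζ.ne_zero (by omega)
  set w := δ * z⁻¹ with hw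
  have hzw : z * w = δ := by
    rw [hw]
    field_simp
  have hb : b = z + w := by
    apply mul_left_cancel₀ hz0
    linear_combination -hz - hzw
  have h1 := D_prod (n := 2 * g + 1) (by omega) hζ hδ hzw
  rw [← (D_eval hzw _).1, ← hb] at h1
  rw [h1, pair_prod]
  congr 1
  · rw [pow_zero, pow_zero, one_mul, one_mul, hb]
  · apply Finset.prod_congr rfl
    intro j hj
    rw [Finset.mem_range] at hj
    have h2 : ζ⁻¹ ^ (j + 1) = ζ ^ (2 * g + 1 - (j + 1)) := by
      rw [inv_pow]
      apply inv_eq_of_mul_eq_one_right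
      rw [← pow_add, Nat.add_sub_cancel' (by omega), hζ.pow_eq_one]
    have h3 : ζ⁻¹ ^ (2 * g + 1 - (j + 1)) = ζ ^ (j + 1) := by
      rw [inv_pow]
      apply inv_eq_of_mul_eq_one_left
      rw [← pow_add, Nat.add_sub_cancel' (by omega), hζ.pow_eq_one]
    have h4 : ζ ^ (j + 1) * ζ ^ (2 * g + 1 - (j + 1)) = 1 := by
      rw [← pow_add, Nat.add_sub_cancel' (by omega), hζ.pow_eq_one]
    rw [h2, h3, cj, hb]
    set p := ζ ^ (j + 1)
    set q := ζ ^ (2 * g + 1 - (j + 1))
    have e1 : C ((p + q) * (z + w)) = C (p * z + q * w) + C (q * z + p * w) := by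
      rw [← C_add]
      congr 1
      ring
    have e2 : C ((z + w) ^ 2 + δ * ((p + q) ^ 2 - 4)) = C (p * z + q * w) * C (q * z + p * w) := by
      rw [← C_mul]
      congr 1
      linear_combination (-(p + q) ^ 2 + 4) * hzw + (-(z ^ 2) - w ^ 2 + 2 * z * w) * h4
    rw [e1, e2]
    ring

/-- The factorisation of `D_n(x) - D_n(b)` over a domain with a primitive `n`-th root of unity. -/
theorem D_split {R : Type} [CommRing R] [IsDomain R] {g : ℕ} {ζ : R}
    (hζ : IsPrimitiveRoot ζ (2 * g + 1)) {δ : R} (hδ : δ ≠ 0) (b : R) :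
    D δ (2 * g + 1) - C ((D δ (2 * g + 1)).eval b) =
      (X - C b) * ∏ j ∈ Finset.range g, (X ^ 2 - C (cj ζ (2 * g + 1) (j + 1) * b) * X +
        C (b ^ 2 + δ * (cj ζ (2 * g + 1) (j + 1) ^ 2 - 4))) := by
  let L := AlgebraicClosure (FractionRing R)
  let φ : R →+* L := (algebraMap (FractionRing R) L).comp (algebraMap R (FractionRing R))
  have hφ : Function.Injective φ :=
    (algebraMap (FractionRing R) L).injective.comp (IsFractionRing.injective R (FractionRing R))
  apply map_injective φ hφ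
  have h1 := D_split0 (L := L) (hζ.map_of_injective hφ) (δ := φ δ)
    ((map_ne_zero_iff φ hφ).2 hδ) (φ b)
  rw [Polynomial.map_sub, D_map, map_C, ← eval_map_apply, D_map, h1, Polynomial.map_mul,
    Polynomial.map_prod]
  congr 1
  · rw [Polynomial.map_sub, map_X, map_C]
  · apply Finset.prod_congr rfl
    intro j _
    simp only [Polynomial.map_add, Polynomial.map_sub, Polynomial.map_mul, Polynomial.map_pow, map_X,
      map_C, cj, map_add, map_sub, map_mul, map_pow, map_ofNat, Polynomial.map_ofNat]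

end prod

end Run7.h905.DK
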