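import Pool.Agent.Run7.h905.DK.Da
import Pool.Agent.Run7.h905.BS.PtsU
import Pool.Agent.Run7.h905.BS.Spec

/-!
# The primes `D_n(b) - t` and the factors of `D_n(x) - t` modulo them
-/

open Polynomial
open scoped Classical

set_option autoImplicit false
set_option linter.all false
set_option maxHeartbeats 400000

namespace Run7.h905.DK

open Run7.h905.BS

section quad

variable {R : Type} [CommRing R] [Nontrivial R]

theorem quad_monic (a c : R) : (X ^ 2 - C a * X + C c).Monic := by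
  monicity!

theorem quad_deg (a c : R) : (X ^ 2 - C a * X + C c).natDegree = 2 := by
  compute_degree!

end quad

section fac

variable {k : Type} [Field k] {g : ℕ} {ζ δ : k} {b : k[X]}

/-- The polynomial `Q = D_n(b, δ) - t`. -/
noncomputable def QD (δ : k) (n : ℕ) (b : k[X]) : k[X] := (D δ n).comp b - X

/-- The factors. -/
noncomputable def hD (ζ δ : k) (b : k[X]) (g : ℕ) : Fin (g + 1) → k[X][X] :=
  Fin.cons (X - C b) fun j : Fin g => X ^ 2 - C (C (cj ζ (2 * g + 1) (j + 1)) * b) * X +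
    C (b ^ 2 + C (δ * (cj ζ (2 * g + 1) (j + 1) ^ 2 - 4)))

theorem hD_zero : hD ζ δ b g 0 = X - C b := rfl

theorem hD_succ (j : Fin g) : hD ζ δ b g j.succ = X ^ 2 - C (C (cj ζ (2 * g + 1) (j + 1)) * b) * X +
    C (b ^ 2 + C (δ * (cj ζ (2 * g + 1) (j + 1) ^ 2 - 4))) := rfl

theorem hD_prod (hζ : IsPrimitiveRoot ζ (2 * g + 1)) (hδ : δ ≠ 0) :
    fa (D δ (2 * g + 1)) - C (QD δ (2 * g + 1) b) = ∏ j, hD ζ δ b g j := by
  have h1 := D_split (hζ.map_of_injective (C_injective (R := k))) (δ := C δ)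
    (C_ne_zero.2 hδ) b
  have h2 : (D (C δ) (2 * g + 1)).eval b = (D δ (2 * g + 1)).comp b := by
    rw [← D_map C, eval_map, comp]
  rw [h2, ← D_map C] at h1
  unfold fa QD
  rw [C_sub, sub_sub_sub_cancel_right, h1, Fin.prod_univ_succ, hD_zero, Finset.prod_range]
  have h3 : ∀ j : Fin g, X ^ 2 - C (cj (C ζ) (2 * g + 1) (j + 1) * b) * X +
      C (b ^ 2 + C δ * (cj (C ζ) (2 * g + 1) (j + 1) ^ 2 - 4)) = hD ζ δ b g j.succ := by
    intro j
    rw [hD_succ]
    have h4 : cj (C ζ) (2 * g + 1) ((j : ℕ) + 1) = C (cj ζ (2 * g + 1) (j + 1)) := by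
      unfold cj
      rw [C_add, C_pow, C_pow]
    have h5 : C (δ * (cj ζ (2 * g + 1) ((j : ℕ) + 1) ^ 2 - 4)) =
        C δ * (C (cj ζ (2 * g + 1) (j + 1)) ^ 2 - 4) := by
      rw [C_mul, C_sub, C_pow, C_ofNat]
    rw [h4, h5]
  exact congrArg _ (Finset.prod_congr rfl fun j _ => h3 j)

theorem hD_monic (j : Fin (g + 1)) : (hD ζ δ b g j).Monic := by
  refine Fin.cases ?_ (fun j => ?_) j
  · rw [hD_zero]
    exact monic_X_sub_C _
  · rw [hD_succ]
    exact quad_monic _ _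

theorem QD_deg {n m : ℕ} (hn : n ≠ 0) (hb : b.natDegree = m) (hnm : 1 < n * m) :
    (QD δ n b).natDegree = n * m := by
  have h1 : ((D δ n).comp b).natDegree = n * m := by
    rw [natDegree_comp, D_deg δ hn, hb]
  unfold QD
  rw [natDegree_sub_eq_left_of_natDegree_lt, h1]
  rw [h1, natDegree_X]
  exact hnm

/-- `ζ ^ i + ζ ^ (-i)` determines `i` in the range from `1` to `g`. -/
theorem cj_inj (hζ : IsPrimitiveRoot ζ (2 * g + 1)) {i j : ℕ} (hi : i < g) (hj : j < g)
    (h : cj ζ (2 * g + 1) (i + 1) = cj ζ (2 * g + 1) (j + 1)) : i = j := by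
  have hζ0 : ζ ≠ 0 := hζ.ne_zero (by omega)
  unfold cj at h
  have e : ∀ l, l < g → ζ ^ (l + 1) * ζ ^ (2 * g + 1 - (l + 1)) = 1 := by
    intro l hl
    rw [← pow_add, Nat.add_sub_cancel' (by omega), hζ.pow_eq_one]
  have e1 := e i hi
  have e2 := e j hj
  have h1 : (ζ ^ (i + 1) - ζ ^ (j + 1)) * (ζ ^ (i + 1) * ζ ^ (j + 1) - 1) = 0 := by
    have h3 : ζ ^ (i + 1) * ζ ^ (j + 1) * (ζ ^ (i + 1) + ζ ^ (2 * g + 1 - (i + 1))) =
      ζ ^ (i + 1) * ζ ^ (j + 1) * (ζ ^ (j + 1) + ζ ^ (2 * g + 1 - (j + 1))) := by rw [h]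
    linear_combination h3 - ζ ^ (j + 1) * e1 + ζ ^ (i + 1) * e2
  rcases mul_eq_zero.1 h1 with h2 | h2
  · have := hζ.pow_inj (by omega) (by omega) (sub_eq_zero.1 h2)
    omega
  · exfalso
    rw [sub_eq_zero, ← pow_add] at h2
    have := (hζ.pow_eq_one_iff_dvd _).1 h2
    have := Nat.le_of_dvd (by omega) this
    omega

/-- `(ζ ^ j + ζ ^ (-j)) ^ 2 - 4` is the square of `ζ ^ j - ζ ^ (-j)`, and not zero. -/
theorem cj_sq (hζ : IsPrimitiveRoot ζ (2 * g + 1)) {j : ℕ} (hj : j < g) :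
    ∃ e : k, e ≠ 0 ∧ cj ζ (2 * g + 1) (j + 1) ^ 2 - 4 = e ^ 2 := by
  have hζ0 : ζ ≠ 0 := hζ.ne_zero (by omega)
  have e1 : ζ ^ (j + 1) * ζ ^ (2 * g + 1 - (j + 1)) = 1 := by
    rw [← pow_add, Nat.add_sub_cancel' (by omega), hζ.pow_eq_one]
  refine ⟨ζ ^ (j + 1) - ζ ^ (2 * g + 1 - (j + 1)), ?_, ?_⟩
  · intro h
    have h1 := hζ.pow_inj (by omega) (by omega) (sub_eq_zero.1 h)
    omega
  · unfold cj
    linear_combination 4 * e1

variable [PerfectField k]

theorem liftD (h2 : (2 : k) ≠ 0) (hg : 1 ≤ g) (hζ : IsPrimitiveRoot ζ (2 * g + 1)) (hδ : δ ≠ 0)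
    (hb : 1 ≤ b.natDegree) (hQ : Irreducible (QD δ (2 * g + 1) b))
    (hns : ∀ w : k[X], ¬ QD δ (2 * g + 1) b ∣ b ^ 2 - C (4 * δ) - w ^ 2) :
    LiftQ (fa (D δ (2 * g + 1))) (QD δ (2 * g + 1) b) (hD ζ δ b g) := by
  haveI : Fact (Irreducible (QD δ (2 * g + 1) b)) := ⟨hQ⟩
  set Q := QD δ (2 * g + 1) b with hQd
  have hnm : 1 < (2 * g + 1) * b.natDegree := by nlinarith
  have hb0 : AdjoinRoot.mk Q b ≠ 0 := by
    rw [Ne, AdjoinRoot.mk_eq_zero]
    intro h
    have hb1 : b ≠ 0 := by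
      rintro rfl
      rw [natDegree_zero] at hb
      omega
    have h3 := natDegree_le_of_dvd h hb1
    rw [hQd, QD_deg (by omega) rfl hnm] at h3
    nlinarith
  have h2Q : (2 : AdjoinRoot Q) ≠ 0 := by
    intro h
    apply h2
    have h3 : AdjoinRoot.of Q 2 = 0 := by rw [map_ofNat, h]
    exact (map_eq_zero _).1 h3
  have hmap : ∀ j : Fin g, (hD ζ δ b g j.succ).map (AdjoinRoot.mk Q) =
      X ^ 2 - C (AdjoinRoot.mk Q (C (cj ζ (2 * g + 1) (j + 1)) * b)) * X +
        C (AdjoinRoot.mk Q (b ^ 2 + C (δ * (cj ζ (2 * g + 1) (j + 1) ^ 2 - 4)))) := by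
    intro j
    rw [hD_succ]
    simp only [Polynomial.map_add, Polynomial.map_sub, Polynomial.map_mul, Polynomial.map_pow, map_X,
      map_C]
  refine ⟨hD_monic, ?_, ?_, ?_⟩
  · intro j
    refine Fin.cases ?_ (fun j => ?_) j
    · rw [hD_zero, Polynomial.map_sub, map_X, map_C]
      exact irreducible_X_sub_C _
    · rw [hmap]
      refine irreducible_of_degree_le_three_of_not_isRoot ?_ ?_
      · rw [quad_deg]
        decide
      · intro x hx
        obtain ⟨e, he0, he⟩ := cj_sq hζ j.2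
        rw [IsRoot.def, eval_add, eval_sub, eval_pow, eval_X, eval_mul, eval_C, eval_X, eval_C, he,
          map_mul, map_add, map_pow, C_mul, C_pow, map_mul, map_pow] at hx
        set c := cj ζ (2 * g + 1) (j + 1)
        have he' : AdjoinRoot.mk Q (C c) ^ 2 - 4 = AdjoinRoot.mk Q (C e) ^ 2 := by
          have h7 := congrArg (fun z => AdjoinRoot.mk Q (C z)) he
          simpa only [C_sub, C_pow, map_sub, map_pow, C_ofNat, map_ofNat] using h7
        have hE0 : AdjoinRoot.mk Q (C e) ≠ 0 := by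
          show AdjoinRoot.of Q e ≠ 0
          rw [Ne, map_eq_zero]
          exact he0
        -- the square
        obtain ⟨w, hw⟩ := AdjoinRoot.mk_surjective (g := Q)
          ((2 * x - AdjoinRoot.mk Q (C c) * AdjoinRoot.mk Q b) * (AdjoinRoot.mk Q (C e))⁻¹)
        apply hns w
        rw [← AdjoinRoot.mk_eq_zero, map_sub, map_sub, map_pow, map_pow, hw, mul_pow, C_mul, map_mul,
          C_ofNat, map_ofNat]
        set B := AdjoinRoot.mk Q b
        set Cc := AdjoinRoot.mk Q (C c)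
        set E := AdjoinRoot.mk Q (C e)
        set Δ := AdjoinRoot.mk Q (C δ)
        have hEE : E ^ 2 * E⁻¹ ^ 2 = 1 := by
          rw [← mul_pow, mul_inv_cancel₀ hE0, one_pow]
        have h5 : (2 * x - Cc * B) ^ 2 = (B ^ 2 - 4 * Δ) * E ^ 2 := by
          linear_combination 4 * hx + B ^ 2 * he'
        rw [h5]
        linear_combination (-(B ^ 2 - 4 * Δ)) * hEE
  · intro i j hij
    replace hij : (hD ζ δ b g i).map (AdjoinRoot.mk Q) = (hD ζ δ b g j).map (AdjoinRoot.mk Q) := hij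
    revert hij
    refine Fin.cases ?_ (fun i => ?_) i
    · refine Fin.cases (fun _ => rfl) (fun j hij => ?_) j
      exfalso
      rw [hD_zero, hmap, Polynomial.map_sub, map_X, map_C] at hij
      have h3 := congrArg natDegree hij
      rw [quad_deg, natDegree_X_sub_C] at h3
      omega
    · refine Fin.cases (fun hij => ?_) (fun j hij => ?_) j
      · exfalso
        rw [hD_zero, hmap, Polynomial.map_sub, map_X, map_C] at hij
        have h3 := congrArg natDegree hij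
        rw [quad_deg, natDegree_X_sub_C] at h3
        omega
      · rw [hmap, hmap] at hij
        have h3 := congrArg (fun p => p.coeff 1) hij
        simp only [coeff_add, coeff_sub, coeff_X_pow, coeff_C_mul, coeff_X_one, coeff_C, mul_one,
          map_mul] at h3
        norm_num at h3
        rcases h3 with h3 | h3
        · have h4 : AdjoinRoot.of Q (cj ζ (2 * g + 1) (i + 1)) =
              AdjoinRoot.of Q (cj ζ (2 * g + 1) (j + 1)) := h3
          have h5 := (AdjoinRoot.of Q).injective h4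
          have h6 := cj_inj hζ i.2 j.2 h5
          rw [Fin.ext h6]
        · exact absurd (AdjoinRoot.mk_eq_zero.2 h3) hb0
  · have h3 := congrArg (fun p => p.map (AdjoinRoot.mk Q)) (hD_prod (b := b) hζ hδ)
    simp only [Polynomial.map_sub, map_C, Polynomial.map_prod] at h3
    rw [← h3, ← hQd, AdjoinRoot.mk_self, C_0, sub_zero]

theorem hD_dvd (hζ : IsPrimitiveRoot ζ (2 * g + 1)) (hδ : δ ≠ 0) (j : Fin (g + 1)) :
    hD ζ δ b g j ∣ fa (D δ (2 * g + 1)) - C (QD δ (2 * g + 1) b) * (1 : k[X][X]) ^ 2 := by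
  rw [one_pow, mul_one, hD_prod hζ hδ]
  exact Finset.dvd_prod_of_mem _ (Finset.mem_univ j)

end fac

end Run7.h905.DK
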