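import Pool.Agent.Run7.h905.CB.Ck
import Mathlib.RingTheory.Norm.Basic
import Mathlib.FieldTheory.IsAlgClosed.Basic

/-!
# The polynomials `a(b(t)) - t` and `x - b(a(x))`
-/

open Polynomial
open scoped Classical

set_option autoImplicit false
set_option linter.all false
set_option maxHeartbeats 400000

namespace Run7.h905.DK

section swap

variable {k : Type} [Field k] {a b : k[X]} {n m : ℕ}

theorem swap_deg (ha : a.natDegree = n) (hb : b.natDegree = m) (hnm : 1 < n * m) :
    (X - b.comp a).natDegree = n * m ∧ (a.comp b - X).natDegree = n * m := by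
  have h1 : (b.comp a).natDegree = n * m := by
    rw [natDegree_comp, ha, hb, mul_comm]
  have h2 : (a.comp b).natDegree = n * m := by
    rw [natDegree_comp, ha, hb]
  refine ⟨?_, ?_⟩
  · rw [natDegree_sub_eq_right_of_natDegree_lt, h1]
    rw [h1, natDegree_X]
    exact hnm
  · rw [natDegree_sub_eq_left_of_natDegree_lt, h2]
    rw [h2, natDegree_X]
    exact hnm

theorem swap_root : aeval (aeval (AdjoinRoot.root (X - b.comp a)) a) b =
    AdjoinRoot.root (X - b.comp a) := by
  have h1 : aeval (AdjoinRoot.root (X - b.comp a)) (X - b.comp a) = 0 := by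
    rw [AdjoinRoot.aeval_eq, AdjoinRoot.mk_self]
  rw [map_sub, aeval_X, aeval_comp, sub_eq_zero] at h1
  exact h1.symm

theorem swap_zero : aeval (aeval (AdjoinRoot.root (X - b.comp a)) a) (a.comp b - X) = 0 := by
  rw [map_sub, aeval_comp, swap_root, aeval_X, sub_self]

/-- **The primes.** -/
theorem swap_irr (ha : a.natDegree = n) (hb : b.natDegree = m) (hnm : 1 < n * m)
    (hH : Irreducible (X - b.comp a)) : Irreducible (a.comp b - X) := by
  obtain ⟨hd1, hd2⟩ := swap_deg ha hb hnm
  haveI : Fact (Irreducible (X - b.comp a)) := ⟨hH⟩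
  haveI : FiniteDimensional k (AdjoinRoot (X - b.comp a)) :=
    (AdjoinRoot.powerBasis hH.ne_zero).finite
  have hfin : Module.finrank k (AdjoinRoot (X - b.comp a)) = n * m := by
    rw [(AdjoinRoot.powerBasis hH.ne_zero).finrank, AdjoinRoot.powerBasis_dim, hd1]
  set s := AdjoinRoot.root (X - b.comp a) with hs
  set θ := aeval s a with hθ
  have hr : aeval θ b = s := swap_root
  have hz : aeval θ (a.comp b - X) = 0 := swap_zero
  have hint : IsIntegral k θ := Algebra.IsIntegral.isIntegral θ
  have htop : IntermediateField.adjoin k {θ} = ⊤ := by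
    rw [eq_top_iff]
    intro z _
    obtain ⟨p, rfl⟩ := AdjoinRoot.mk_surjective z
    rw [← AdjoinRoot.aeval_eq, ← hs, ← hr, ← aeval_comp]
    exact IntermediateField.algebra_adjoin_le_adjoin k _ (aeval_mem_adjoin_singleton k θ)
  have hdeg : (minpoly k θ).natDegree = n * m := by
    rw [← IntermediateField.adjoin.finrank hint, htop, IntermediateField.finrank_top', hfin]
  have hne : a.comp b - X ≠ 0 := by
    intro h
    rw [h, natDegree_zero] at hd2
    omega
  exact (associated_of_dvd_of_natDegree_le (minpoly.dvd k θ hz) hne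
    (by rw [hd2, hdeg])).irreducible (minpoly.irreducible hint)

end swap

section norm

variable {k : Type} [Field k] {H : k[X]} {E : Type} [Field E] [Algebra k E] [IsAlgClosed E]

theorem prod_emb [Fintype (AdjoinRoot H →ₐ[k] E)] (hH : Irreducible H) (hsep : H.Separable) (x : E) :
    ∏ σ : AdjoinRoot H →ₐ[k] E, (x - σ (AdjoinRoot.root H)) =
      eval x ((H * C H.leadingCoeff⁻¹).map (algebraMap k E)) := by
  set pb := AdjoinRoot.powerBasis hH.ne_zero with hpb
  have hgen : pb.gen = AdjoinRoot.root H := AdjoinRoot.powerBasis_gen hH.ne_zero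
  have hmin : minpoly k pb.gen = H * C H.leadingCoeff⁻¹ :=
    AdjoinRoot.minpoly_powerBasis_gen hH.ne_zero
  have hmon : (H * C H.leadingCoeff⁻¹).Monic := monic_mul_leadingCoeff_inv hH.ne_zero
  have hsep' : (H * C H.leadingCoeff⁻¹).Separable :=
    hsep.mul_unit (isUnit_C.2 (isUnit_iff_ne_zero.2 (inv_ne_zero
      (leadingCoeff_ne_zero.2 hH.ne_zero))))
  rw [← hgen]
  have hfun : ∀ σ : AdjoinRoot H →ₐ[k] E, x - σ pb.gen = x - (pb.liftEquiv' (B := E) σ : E) := by
    intro σ
    rw [PowerBasis.liftEquiv'_apply_coe]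
  rw [Fintype.prod_equiv (pb.liftEquiv' (B := E)) (fun σ => x - σ pb.gen) (fun y => x - (y : E)) hfun]
  rw [(IsAlgClosed.splits ((H * C H.leadingCoeff⁻¹).map (algebraMap k E))).eval_eq_prod_roots_of_monic
    (hmon.map _)]
  rw [hmin]
  have hnd : ((H * C H.leadingCoeff⁻¹).map (algebraMap k E)).roots.Nodup := nodup_roots (.map hsep')
  show ∏ y : { y : E // y ∈ (H * C H.leadingCoeff⁻¹).aroots E }, (x - (y : E)) = _
  rw [Finset.prod_mem_multiset ((H * C H.leadingCoeff⁻¹).aroots E) (fun y => x - (y : E))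
    (fun y => x - y) (fun _ => rfl), Finset.prod_eq_multiset_prod, Multiset.toFinset_val,
    Multiset.dedup_eq_self.mpr hnd]

/-- If `s ^ 2 - e` is a square, then `H(c) H(-c)` is a square in the ground field, `c ^ 2 = e`. -/
theorem norm_sq (hH : Irreducible H) (hsep : H.Separable) {e : k} {c : E}
    (hc : c ^ 2 = algebraMap k E e) {v : AdjoinRoot H}
    (hv : AdjoinRoot.root H ^ 2 - algebraMap k (AdjoinRoot H) e = v ^ 2) :
    ∃ y : k, algebraMap k E (y ^ 2) = eval c ((H * C H.leadingCoeff⁻¹).map (algebraMap k E)) *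
      eval (-c) ((H * C H.leadingCoeff⁻¹).map (algebraMap k E)) := by
  haveI : Fact (Irreducible H) := ⟨hH⟩
  set pb := AdjoinRoot.powerBasis hH.ne_zero with hpb
  haveI : FiniteDimensional k (AdjoinRoot H) := pb.finite
  haveI : Algebra.IsSeparable k (AdjoinRoot H) := by
    have h1 : IsSeparable k (AdjoinRoot.root H) := by
      have h2 : minpoly k (AdjoinRoot.root H) = H * C H.leadingCoeff⁻¹ :=
        AdjoinRoot.minpoly_root hH.ne_zero
      show (minpoly k _).Separable
      rw [h2]
      exact hsep.mul_unit (isUnit_C.2 (isUnit_iff_ne_zero.2 (inv_ne_zero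
        (leadingCoeff_ne_zero.2 hH.ne_zero))))
    have h3 := (IntermediateField.isSeparable_adjoin_simple_iff_isSeparable k (AdjoinRoot H)).2 h1
    have htop : IntermediateField.adjoin k {AdjoinRoot.root H} = ⊤ := by
      rw [eq_top_iff]
      intro z _
      obtain ⟨p, rfl⟩ := AdjoinRoot.mk_surjective z
      rw [← AdjoinRoot.aeval_eq]
      exact IntermediateField.algebra_adjoin_le_adjoin k _ (aeval_mem_adjoin_singleton k _)
    rw [htop] at h3
    exact Algebra.IsSeparable.of_algHom k _ (IntermediateField.topEquiv.symm.toAlgHom)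
  refine ⟨Algebra.norm k v, ?_⟩
  rw [← prod_emb hH hsep c, ← prod_emb hH hsep (-c), ← map_pow, ← hv,
    Algebra.norm_eq_prod_embeddings k E, ← Finset.prod_mul_distrib]
  refine Finset.prod_congr rfl ?_
  intro σ _
  rw [map_sub, map_pow, AlgHom.commutes, ← hc]
  ring

end norm

section delta

variable {k : Type} [Field k]

/-- The polynomial `(X - g(c)) (X - g(-c))` with coefficients in the ground field. -/
theorem exists_delta (g : k[X]) (e : k) : ∃ Δ : k[X], Δ.natDegree ≤ 2 ∧
    ∀ (E : Type) [Field E] [Algebra k E] (c : E), c ^ 2 = algebraMap k E e →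
      Δ.map (algebraMap k E) = (X - C (aeval c g)) * (X - C (aeval (-c) g)) := by
  have hm : (X ^ 2 - C e : k[X]).Monic := monic_X_pow_sub_C e two_ne_zero
  have hd : (X ^ 2 - C e : k[X]).natDegree = 2 := natDegree_X_pow_sub_C
  set r := g %ₘ (X ^ 2 - C e) with hr
  have hrd : r.degree < 2 := by
    have := degree_modByMonic_lt g hm
    rwa [degree_eq_natDegree hm.ne_zero, hd] at this
  have hr1 : r.natDegree ≤ 1 := by
    have h0 : r.natDegree < 2 := by
      rcases eq_or_ne r 0 with h | h
      · rw [h, natDegree_zero]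
        exact two_pos
      · exact (natDegree_lt_iff_degree_lt h).2 hrd
    omega
  have hr2 : r = C (r.coeff 1) * X + C (r.coeff 0) := eq_X_add_C_of_natDegree_le_one hr1
  refine ⟨(X - C (r.coeff 0)) ^ 2 - C (e * r.coeff 1 ^ 2), ?_, ?_⟩
  · refine (natDegree_sub_le _ _).trans (max_le ?_ (by rw [natDegree_C]; exact Nat.zero_le _))
    refine natDegree_pow_le.trans ?_
    rw [natDegree_X_sub_C]
  · intro E _ _ c hc
    have h1 : ∀ x : E, x ^ 2 = algebraMap k E e →
        aeval x g = algebraMap k E (r.coeff 0) + algebraMap k E (r.coeff 1) * x := by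
      intro x hx
      have h2 := modByMonic_add_div g (X ^ 2 - C e)
      rw [← h2, ← hr, map_add, map_mul, map_sub, map_pow, aeval_X, aeval_C, hx, sub_self, zero_mul,
        add_zero, hr2]
      simp only [map_add, map_mul, aeval_C, aeval_X, coeff_add, coeff_C_mul, coeff_X_one, coeff_X_zero,
        coeff_C_zero, coeff_C_succ, mul_one, mul_zero, zero_add, add_zero]
      ring
    rw [h1 c hc, h1 (-c) (by rw [neg_sq, hc])]
    rw [Polynomial.map_sub, Polynomial.map_pow, Polynomial.map_sub, map_X, map_C, map_C, map_mul,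
      map_pow, ← hc]
    simp only [C_add, C_mul, C_neg, mul_neg, C_pow]
    ring

end delta

end Run7.h905.DK
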