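import Pool.Agent.Run7.h905.DK.Dc

/-!
# Positive proportion in the pencils `λ b + μ`
-/

open Polynomial
open scoped Classical

set_option autoImplicit false
set_option linter.all false
set_option maxHeartbeats 400000

namespace Run7.h905.DK

section sep

variable {E : Type} [Field E] [IsAlgClosed E]

/-- For all but a few `λ` the polynomial `x - λ B(x) - (c - λ B(c))` is separable. -/
theorem sep_aux {B h : E[X]} {c l : E} (hh : B - C (B.eval c) = (X - C c) * h) (hl : l ≠ 0)
    (hc : l * h.eval c ≠ 1) (hx : ∀ x, (derivative h).eval x = 0 → l * h.eval x ≠ 1) :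
    ((X - C l * B) - C ((X - C l * B).eval c)).Separable := by
  have e : (X - C l * B) - C ((X - C l * B).eval c) = (X - C c) * (1 - C l * h) := by
    rw [eval_sub, eval_X, eval_mul, eval_C, C_sub, C_mul]
    linear_combination (-C l) * hh
  rw [e]
  refine Separable.mul (separable_X_sub_C) ?_ ?_
  · show IsCoprime _ _
    rw [Polynomial.isCoprime_iff_aeval_ne_zero_of_isAlgClosed E E]
    intro x
    by_contra hcon
    rw [not_or, not_not, not_not] at hcon
    obtain ⟨h1, h2⟩ := hcon
    rw [coe_aeval_eq_eval] at h1 h2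
    rw [eval_sub, eval_one, eval_mul, eval_C, sub_eq_zero] at h1
    rw [derivative_sub, derivative_one, zero_sub, derivative_C_mul, eval_neg, eval_mul, eval_C,
      neg_eq_zero] at h2
    exact hx x ((mul_eq_zero.1 h2).resolve_left hl) h1.symm
  · rw [(irreducible_X_sub_C c).coprime_iff_not_dvd, dvd_iff_isRoot, IsRoot.def, eval_sub, eval_one,
      eval_mul, eval_C, sub_eq_zero]
    exact fun h => hc h.symm

end sep

section bad

variable {k : Type} [Field k] [Finite k] (E : Type) [Field E] [Algebra k E] [IsAlgClosed E]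

/-- The exceptional `λ`. -/
theorem exists_bad {B : k[X]} {N : ℕ} (hN : 3 ≤ N) (hB : B.natDegree = N)
    (hp : ((N - 1 : ℕ) : k) ≠ 0) (h2 : (2 : k) ≠ 0) {c : E} (hc0 : c ≠ 0) :
    ∃ bad : Finset k, bad.card ≤ N + 1 ∧ ∀ l ∉ bad, l ≠ 0 ∧
      (((X - C l * B).map (algebraMap k E)) -
        C (((X - C l * B).map (algebraMap k E)).eval c)).Separable ∧
      ((X - C l * B).map (algebraMap k E)).eval c ≠
        ((X - C l * B).map (algebraMap k E)).eval (-c) := by
  haveI := Fintype.ofFinite k
  set ι := algebraMap k E with hι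
  set B' := B.map ι with hB'
  have hB'd : B'.natDegree = N := by rw [hB', natDegree_map, hB]
  have hroot : (B' - C (B'.eval c)).IsRoot c := by
    rw [IsRoot.def, eval_sub, eval_C, sub_self]
  obtain ⟨h, hh⟩ := dvd_iff_isRoot.2 hroot
  have hh0 : h ≠ 0 := by
    rintro rfl
    rw [mul_zero] at hh
    have h3 := congrArg natDegree hh
    rw [natDegree_sub_C, hB'd, natDegree_zero] at h3
    omega
  have hhd : h.natDegree = N - 1 := by
    have h3 := congrArg natDegree hh
    rw [natDegree_sub_C, hB'd, natDegree_mul (X_sub_C_ne_zero c) hh0, natDegree_X_sub_C] at h3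
    omega
  have hdh0 : derivative h ≠ 0 := by
    intro h0
    have h3 := congrArg (fun p => p.coeff (N - 2)) h0
    simp only [coeff_zero, coeff_derivative] at h3
    have h4 : N - 2 + 1 = N - 1 := by omega
    rw [h4] at h3
    rcases mul_eq_zero.1 h3 with h5 | h5
    · rw [← hhd, coeff_natDegree, leadingCoeff_eq_zero] at h5
      exact hh0 h5
    · apply hp
      have h6 : ((N - 2 : ℕ) : E) + 1 = ι ((N - 1 : ℕ) : k) := by
        rw [map_natCast, ← h4]
        push_cast
        rfl
      rw [h6] at h5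
      exact (map_eq_zero ι).1 h5
  have hdhd : (derivative h).natDegree ≤ N - 2 := by
    refine (natDegree_derivative_le h).trans ?_
    omega
  set S : Finset E := insert c (derivative h).roots.toFinset with hS
  have hScard : S.card ≤ N - 1 := by
    refine (Finset.card_insert_le _ _).trans ?_
    have h3 := (Multiset.toFinset_card_le (derivative h).roots).trans (card_roots' _)
    omega
  set T : Finset E := insert 0 (insert ((2 * c) * (B'.eval c - B'.eval (-c))⁻¹)
    (S.image fun x => (h.eval x)⁻¹)) with hT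
  have hTcard : T.card ≤ N + 1 := by
    refine (Finset.card_insert_le _ _).trans ?_
    have h3 := Finset.card_insert_le ((2 * c) * (B'.eval c - B'.eval (-c))⁻¹)
      (S.image fun x => (h.eval x)⁻¹)
    have h4 := Finset.card_image_le (s := S) (f := fun x => (h.eval x)⁻¹)
    omega
  refine ⟨Finset.univ.filter fun l => ι l ∈ T, ?_, ?_⟩
  · refine le_trans ?_ hTcard
    refine Finset.card_le_card_of_injOn ι ?_ ι.injective.injOn
    intro l hl
    rw [Finset.mem_coe, Finset.mem_filter] at hl
    exact hl.2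
  · intro l hl
    rw [Finset.mem_filter, not_and] at hl
    have hl' := hl (Finset.mem_univ l)
    have hl0 : l ≠ 0 := by
      rintro rfl
      apply hl'
      rw [map_zero, hT]
      exact Finset.mem_insert_self _ _
    have hιl : ι l ≠ 0 := (map_ne_zero ι).2 hl0
    have hx : ∀ x ∈ S, ι l * h.eval x ≠ 1 := by
      intro x hx h3
      apply hl'
      rw [hT]
      refine Finset.mem_insert_of_mem (Finset.mem_insert_of_mem ?_)
      rw [Finset.mem_image]
      exact ⟨x, hx, inv_eq_of_mul_eq_one_left h3⟩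
    have hmap : (X - C l * B).map ι = X - C (ι l) * B' := by
      rw [Polynomial.map_sub, map_X, Polynomial.map_mul, map_C]
    rw [hmap]
    refine ⟨hl0, sep_aux hh hιl (hx c (Finset.mem_insert_self _ _)) ?_, ?_⟩
    · intro x hx0
      apply hx x
      rw [hS]
      refine Finset.mem_insert_of_mem ?_
      rw [Multiset.mem_toFinset, mem_roots hdh0]
      exact hx0
    · intro h3
      rw [eval_sub, eval_sub, eval_X, eval_X, eval_mul, eval_mul, eval_C, eval_C] at h3
      have h4 : ι l * (B'.eval c - B'.eval (-c)) = 2 * c := by linear_combination -h3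
      by_cases h5 : B'.eval c - B'.eval (-c) = 0
      · rw [h5, mul_zero] at h4
        have h6 : (2 : E) ≠ 0 := by
          rw [← map_ofNat ι 2]
          exact (map_ne_zero ι).2 h2
        exact mul_ne_zero h6 hc0 h4.symm
      · apply hl'
        rw [hT]
        refine Finset.mem_insert_of_mem ?_
        rw [← h4, mul_inv_cancel_right₀ h5]
        exact Finset.mem_insert_self _ _

end bad

/-- **Positive proportion.** -/
theorem pencil (n m : ℕ) (hnm : 3 ≤ n * m) : ∃ C0 : ℕ, ∀ (F : Type) [Field F] [Finite F],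
    (2 : F) ≠ 0 → ∀ ω : F, IsPrimitiveRoot ω (n * m) → ((n * m - 1 : ℕ) : F) ≠ 0 →
    ∀ a : F[X], a.Monic → a.natDegree = n → ∀ e : F, e ≠ 0 → ∀ b : F[X], b.natDegree = m →
    ∃ bad : Finset F, bad.card ≤ n * m + 1 ∧ (C0 < Nat.card F → ∀ l ∉ bad,
      l ≠ 0 ∧ Nat.card F ≤ 2 * (n * m + 2) ^ (n * m + 2) *
        {μ : F | Irreducible (a.comp (C l * b + C μ) - X) ∧
          ∀ w : F[X], ¬ (a.comp (C l * b + C μ) - X) ∣ (C l * b + C μ) ^ 2 - C e - w ^ 2}.ncard) := by
  have hn : 0 < n := Nat.pos_of_ne_zero (by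
    rintro rfl
    rw [zero_mul] at hnm
    omega)
  have hm : 0 < m := Nat.pos_of_ne_zero (by
    rintro rfl
    rw [mul_zero] at hnm
    omega)
  obtain ⟨C0, hC0⟩ := Run7.h905.CB.kd (n * m) 1 0 (by omega) one_pos (by omega)
  refine ⟨C0, ?_⟩
  intro F _ _ h2 ω hω hp a ha had e he b hbd
  let E := AlgebraicClosure F
  set ι := algebraMap F E with hι
  obtain ⟨c, hc⟩ : ∃ c : E, c ^ 2 = ι e := IsAlgClosed.exists_pow_nat_eq _ two_pos
  have hc0 : c ≠ 0 := by
    rintro rfl
    rw [zero_pow two_ne_zero] at hc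
    exact he ((map_eq_zero ι).1 hc.symm)
  set B := b.comp a with hB
  have hBd : B.natDegree = n * m := by
    rw [hB, natDegree_comp, hbd, had, mul_comm]
  obtain ⟨bad, hbad1, hbad⟩ := exists_bad E hnm hBd hp h2 hc0
  refine ⟨bad, hbad1, ?_⟩
  intro hcard l hl
  obtain ⟨hl0, hsep, hne⟩ := hbad l hl
  refine ⟨hl0, ?_⟩
  set G := X - C l * B with hG
  have hB0 : B ≠ 0 := by
    intro h
    rw [h, natDegree_zero] at hBd
    omega
  have hlBd : (C l * B).natDegree = n * m := by rw [natDegree_C_mul hl0, hBd]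
  have hGd : G.natDegree = n * m := by
    rw [hG, natDegree_sub_eq_right_of_natDegree_lt, hlBd]
    rw [hlBd, natDegree_X]
    omega
  have hG0 : G ≠ 0 := by
    intro h
    rw [h, natDegree_zero] at hGd
    omega
  set L := G.leadingCoeff with hL
  have hL0 : L ≠ 0 := leadingCoeff_ne_zero.2 hG0
  set g := C L⁻¹ * G with hg
  have hgm : g.Monic := by
    rw [hg, mul_comm]
    exact monic_mul_leadingCoeff_inv hG0
  have hgd : g.natDegree = n * m := by rw [hg, natDegree_C_mul (inv_ne_zero hL0), hGd]
  have hgmap : g.map ι = C (ι L⁻¹) * G.map ι := by rw [hg, Polynomial.map_mul, map_C]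
  have hιL : ι L⁻¹ ≠ 0 := (map_ne_zero ι).2 (inv_ne_zero hL0)
  obtain ⟨Δ, hΔ1, hΔ2⟩ := exists_delta g e
  have hev : ∀ x : E, aeval x g = (g.map ι).eval x := fun x => by rw [eval_map, aeval_def]
  have h1 := hC0 F h2 ω (by rw [mul_one]; exact hω) g hgm hgd (fun i => i.elim0)
    (fun i => i.elim0) Δ (aeval c g) (X - C (aeval (-c) g)) hΔ1 (hΔ2 E c hc) (by
      rw [eval_sub, eval_X, eval_C, sub_ne_zero, hev, hev, hgmap, eval_mul, eval_C, eval_mul, eval_C]
      exact fun h => hne (mul_left_cancel₀ hιL h)) (by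
      have h3 : g.map ι - C (aeval c g) = C (ι L⁻¹) * (G.map ι - C ((G.map ι).eval c)) := by
        rw [hev, hgmap, eval_mul, eval_C, C_mul]
        ring
      rw [h3]
      exact hsep.unit_mul (isUnit_C.2 (isUnit_iff_ne_zero.2 hιL))) (fun i => i.elim0) hcard
  rw [zero_mul, add_zero] at h1
  refine h1.trans (Nat.mul_le_mul_left _ ?_)
  refine Set.ncard_le_ncard_of_injOn (fun ν => L * ν) ?_ ?_ (Set.toFinite _)
  · rintro ν ⟨h3, -, h4⟩
    show L * ν ∈ _
    obtain ⟨μ, hμ⟩ : ∃ μ, μ = L * ν := ⟨_, rfl⟩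
    rw [← hμ]
    -- the polynomial `x - b(a(x))`
    have hcomp : X - (C l * b + C μ).comp a = G - C μ := by
      rw [add_comp, mul_comp, C_comp, C_comp, ← hB, hG]
      ring
    have hGg : G - C μ = C L * (g - C ν) := by
      rw [hg, hμ, mul_sub, ← mul_assoc, ← C_mul, ← C_mul, mul_inv_cancel₀ hL0, C_1, one_mul]
    have hirr : Irreducible (X - (C l * b + C μ).comp a) := by
      rw [hcomp, hGg]
      exact (irreducible_isUnit_mul (isUnit_C.2 (isUnit_iff_ne_zero.2 hL0))).2 h3
    have hbd' : (C l * b + C μ).natDegree = m := by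
      rw [natDegree_add_C, natDegree_C_mul hl0, hbd]
    refine ⟨swap_irr had hbd' (by omega) hirr, ?_⟩
    rintro w ⟨q, hq⟩
    -- in the field
    set H := X - (C l * b + C μ).comp a with hH
    set s := AdjoinRoot.root H with hs
    have h5 := congrArg (aeval (aeval s a)) hq
    rw [map_mul, swap_zero, zero_mul, map_sub, map_sub, map_pow, map_pow, swap_root, aeval_C] at h5
    have hsepH : H.Separable := PerfectField.separable_of_irreducible hirr
    obtain ⟨y, hy⟩ := norm_sq (E := E) hirr hsepH hc (v := aeval (aeval s a) w) (sub_eq_zero.1 h5)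
    have hHlc : H.leadingCoeff = L := by
      rw [hcomp, hGg, leadingCoeff_mul, leadingCoeff_C, leadingCoeff_sub_of_degree_lt, hgm, mul_one]
      rw [degree_eq_natDegree hgm.ne_zero, hgd]
      exact lt_of_le_of_lt degree_C_le (by exact_mod_cast (by omega : 0 < n * m))
    have hHg : H * C H.leadingCoeff⁻¹ = g - C ν := by
      rw [hHlc, hcomp, hGg, mul_comm, ← mul_assoc, ← C_mul, inv_mul_cancel₀ hL0, C_1, one_mul]
    rw [hHg, Polynomial.map_sub, map_C, eval_sub, eval_C, eval_sub, eval_C, ← hev, ← hev] at hy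
    have h6 : ι (Δ.eval ν) = ι (y ^ 2) := by
      rw [hy, ← eval_map_apply, hΔ2 E c hc, eval_mul, eval_sub, eval_sub, eval_X, eval_C, eval_C]
      ring
    have h7 := ι.injective h6
    rw [h7] at h4
    have h8 : (X ^ 2 - C (y ^ 2) : F[X]) = (X - C y) * (X + C y) := by
      rw [C_pow]
      ring
    rw [h8] at h4
    rcases h4.isUnit_or_isUnit rfl with h9 | h9
    · have := natDegree_eq_zero_of_isUnit h9
      rw [natDegree_X_sub_C] at this
      exact one_ne_zero this
    · have := natDegree_eq_zero_of_isUnit h9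
      rw [natDegree_X_add_C] at this
      exact one_ne_zero this
  · intro x _ y _ hxy
    exact mul_left_cancel₀ hL0 hxy

end Run7.h905.DK
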