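import Mathlib.FieldTheory.Finite.Basic
import Mathlib.RingTheory.RootsOfUnity.PrimitiveRoots

/-!
# Roots of unity in finite fields
-/

open Polynomial
open scoped Classical

set_option autoImplicit false
set_option linter.all false
set_option maxHeartbeats 400000

namespace Run7.h905.DK

/-- Primitive roots of unity in finite fields. -/
theorem exists_prim {k : Type} [Field k] [Finite k] {n : ℕ} (hn : n ∣ Nat.card k - 1) :
    ∃ ω : k, IsPrimitiveRoot ω n := by
  haveI := Fintype.ofFinite k
  obtain ⟨v, hv⟩ := IsCyclic.exists_generator (α := kˣ)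
  have hvo : IsPrimitiveRoot (v : k) (Nat.card k - 1) := by
    rw [IsPrimitiveRoot.coe_units_iff, ← Nat.card_units, ← orderOf_eq_card_of_forall_mem_zpowers hv]
    exact IsPrimitiveRoot.orderOf v
  have h1 : 0 < Nat.card k - 1 := by
    have := Finite.one_lt_card (α := k)
    omega
  obtain ⟨c, hc⟩ := hn
  exact ⟨(v : k) ^ c, hvo.pow h1 (by rw [hc, mul_comm])⟩

end Run7.h905.DK
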