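import Pool.Agent.Run7.h905.DK.Db
import Pool.Agent.Run7.h905.DK.Dd
import Pool.Agent.Run7.h905.DK.De
import Pool.Agent.Run7.h905.DK.Dp
import Pool.Agent.Results.MP_60d5ce_nt.TwistsByPrimes

/-!
# Dickson pencils: constant extensions and positive proportion
-/

open Polynomial IsDedekindDomain
open scoped Classical nonZeroDivisors

set_option autoImplicit false
set_option linter.all false
set_option maxHeartbeats 400000

namespace Run7.h905.DK

open Run7.h905.BS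
open Pool.Agent.Y713.Jac (J CoordRing)
open Pool.Agent.N352.Sha (ShaTrivial)
open Pool.Agent.Results.MP_60d5ce_nt.TwistsByPrimes

theorem QD_map {k k' : Type} [Field k] [Field k'] (φ : k →+* k') (δ : k) (n : ℕ) (b : k[X]) :
    (QD δ n b).map φ = QD (φ δ) n (b.map φ) := by
  unfold QD
  rw [Polynomial.map_sub, map_X, Polynomial.map_comp, D_map]

section crit

variable {k : Type} (K : Type) [Field k] [PerfectField k] [Field K] [Algebra k[X] K]
  [IsFractionRing k[X] K] {g : ℕ} {ζ δ : k} {b : k[X]}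

/-- **The criterion for the Dickson polynomials.** -/
theorem critD (h2 : (2 : k) ≠ 0) (hg : 1 ≤ g) (hζ : IsPrimitiveRoot ζ (2 * g + 1)) (hδ : δ ≠ 0)
    (hb : 1 ≤ b.natDegree) (hQ : Irreducible (QD δ (2 * g + 1) b))
    (hns : ∀ w : k[X], ¬ QD δ (2 * g + 1) b ∣ b ^ 2 - C (4 * δ) - w ^ 2) :
    (∃ P : Fin (g + 1) → J 2 (twist K (fa (D δ (2 * g + 1))) (QD δ (2 * g + 1) b)) K,
      (∀ j, IsPoint K (fa (D δ (2 * g + 1))) (QD δ (2 * g + 1) b) (hD ζ δ b g j) 1 (P j)) ∧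
      OnlyRelation P Finset.univ ∧ GenerateModSquares P Finset.univ) ∧
    RankIs (twist K (fa (D δ (2 * g + 1))) (QD δ (2 * g + 1) b)) g ∧
    ShaTrivial 2 (twist K (fa (D δ (2 * g + 1))) (QD δ (2 * g + 1) b)) k[X] := by
  have hn0 : 2 * g + 1 ≠ 0 := by omega
  have hf : OddCurve (fa (D δ (2 * g + 1))) := line_odd (D_monic δ hn0)
    (by rw [D_deg δ hn0]; exact ⟨g, rfl⟩)
  have hF := liftD h2 hg hζ hδ hb hQ hns
  have hF' : SplitsMod (fa (D δ (2 * g + 1))) (QD δ (2 * g + 1) b) (hD ζ δ b g) :=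
    ⟨hF.mon, hF.irr, hF.dist, hF.prod⟩
  obtain ⟨P, hP, hrel, hgen⟩ := points K h2 hf hQ hF' (by omega) Finset.univ (fun _ => 1)
    (fun j _ => hD_dvd hζ hδ j)
  obtain ⟨h4, h5, h6⟩ := hgen (by simp)
  exact ⟨⟨P, fun j => hP j (Finset.mem_univ j), hrel, h4⟩, h5, h6⟩

end crit

/-- **Positive proportion for the Dickson pencils.** -/
theorem pencilD (g m : ℕ) (hg : 1 ≤ g) (hm : 1 ≤ m) : ∃ C0 : ℕ, ∀ (k : Type) [Field k] [Finite k],
    (2 * g + 1) * m ∣ Nat.card k - 1 → ((2 * ((2 * g + 1) * m - 1) : ℕ) : k) ≠ 0 →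
    C0 < Nat.card k → ∀ δ : k, δ ≠ 0 → ∀ b : k[X], b.natDegree = m →
    ∃ bad : Finset k, bad.card ≤ (2 * g + 1) * m + 1 ∧ ∀ l ∉ bad, l ≠ 0 ∧
      Nat.card k ≤ 2 * ((2 * g + 1) * m + 2) ^ ((2 * g + 1) * m + 2) *
        {μ : k | ∀ (k' : Type) [Field k'] [Algebra k k'] [FiniteDimensional k k'],
          Nat.Coprime (2 * ((2 * g + 1) * m)) (Module.finrank k k') →
          Irreducible (QD (algebraMap k k' δ) (2 * g + 1) ((C l * b + C μ).map (algebraMap k k'))) ∧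
          ∀ w : k'[X], ¬ QD (algebraMap k k' δ) (2 * g + 1) ((C l * b + C μ).map (algebraMap k k')) ∣
            (C l * b + C μ).map (algebraMap k k') ^ 2 - C (4 * algebraMap k k' δ) - w ^ 2}.ncard := by
  have hn0 : 2 * g + 1 ≠ 0 := by omega
  have hnm : 3 ≤ (2 * g + 1) * m := by nlinarith
  obtain ⟨C0, hC0⟩ := pencil (2 * g + 1) m hnm
  refine ⟨C0, ?_⟩
  intro k _ _ hdiv h6 hcard δ hδ b hb
  rw [Nat.cast_mul] at h6
  have h2 : (2 : k) ≠ 0 := by
    have := left_ne_zero_of_mul h6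
    exact_mod_cast this
  have h6'' : (((2 * g + 1) * m - 1 : ℕ) : k) ≠ 0 := right_ne_zero_of_mul h6
  obtain ⟨ω, hω⟩ := exists_prim hdiv
  have he : (4 * δ : k) ≠ 0 := by
    have h4 : (4 : k) ≠ 0 := by
      have : (4 : k) = 2 ^ 2 := by norm_num
      rw [this]
      exact pow_ne_zero _ h2
    exact mul_ne_zero h4 hδ
  obtain ⟨bad, hbad1, hbad2⟩ := hC0 k h2 ω hω h6'' (D δ (2 * g + 1)) (D_monic δ hn0) (D_deg δ hn0) _
    he b hb
  refine ⟨bad, hbad1, ?_⟩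
  intro l hl
  obtain ⟨hl0, hcount⟩ := hbad2 hcard l hl
  refine ⟨hl0, ?_⟩
  refine hcount.trans (Nat.mul_le_mul_left _ (Set.ncard_le_ncard ?_ (Set.toFinite _)))
  rintro μ ⟨h4, h5⟩
  intro k' _ _ _ hc
  set B := C l * b + C μ with hB
  have hd : B.natDegree = m := by rw [hB, natDegree_add_C, natDegree_C_mul hl0, hb]
  have hQd : (QD δ (2 * g + 1) B).natDegree = (2 * g + 1) * m := QD_deg hn0 hd (by omega)
  have h4' : Irreducible (QD δ (2 * g + 1) B) := h4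
  have h5' : ∀ w, ¬ QD δ (2 * g + 1) B ∣ B ^ 2 - C (4 * δ) - w ^ 2 := h5
  have hc2 : Nat.Coprime (2 * (QD δ (2 * g + 1) B).natDegree) (Module.finrank k k') := by
    rw [hQd]
    exact hc
  have hc1 : Nat.Coprime (QD δ (2 * g + 1) B).natDegree (Module.finrank k k') :=
    Nat.Coprime.coprime_dvd_left (Dvd.intro_left 2 rfl) hc2
  have h7 := irr_ext (k' := k') h4' hc1
  have h8 := nosq_ext (k' := k') h4' hc2 h5'
  rw [QD_map] at h7 h8
  refine ⟨h7, ?_⟩
  intro w hw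
  apply h8 w
  rw [Polynomial.map_sub, Polynomial.map_pow, map_C]
  have e : algebraMap k k' (4 * δ) = 4 * algebraMap k k' δ := by
    rw [map_mul, map_ofNat]
  rw [e]
  exact hw

end Run7.h905.DK
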