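import Pool.Agent.R431.SG.DensG

/-!
# From the reduction modulo `p` to number fields
-/

open Polynomial NumberField
open scoped Classical

set_option autoImplicit false
set_option linter.all false
set_option maxHeartbeats 400000

namespace Run7.h905.DK

open Pool.Agent.R431.SG

section padic

variable {p : ℕ} [Fact p.Prime]

theorem den_scalar (x : ℚ_[p]) : ∃ (s : ℕ) (r : ℤ_[p]), algebraMap ℤ_[p] ℚ_[p] r =
    algebraMap ℤ_[p] ℚ_[p] ((p : ℤ_[p]) ^ s) * x := by
  obtain ⟨a, b, hb, rfl⟩ := IsFractionRing.div_surjective (A := ℤ_[p]) (K := ℚ_[p]) x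
  have hb0 : b ≠ 0 := nonZeroDivisors.ne_zero hb
  have h1 := PadicInt.unitCoeff_spec hb0
  set u := PadicInt.unitCoeff hb0
  set s := b.valuation
  refine ⟨s, a * ((u⁻¹ : ℤ_[p]ˣ) : ℤ_[p]), ?_⟩
  have hb1 : algebraMap ℤ_[p] ℚ_[p] b ≠ 0 := by
    rw [Ne, map_eq_zero_iff _ (IsFractionRing.injective ℤ_[p] ℚ_[p])]
    exact hb0
  rw [mul_div_assoc', eq_div_iff hb1, ← map_mul, ← map_mul]
  congr 1
  have h2 : ((u⁻¹ : ℤ_[p]ˣ) : ℤ_[p]) * (u : ℤ_[p]) = 1 := Units.inv_mul u
  calc a * ((u⁻¹ : ℤ_[p]ˣ) : ℤ_[p]) * b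
      = a * ((u⁻¹ : ℤ_[p]ˣ) : ℤ_[p]) * ((u : ℤ_[p]) * (p : ℤ_[p]) ^ s) := by rw [← h1]
    _ = (p : ℤ_[p]) ^ s * a * (((u⁻¹ : ℤ_[p]ˣ) : ℤ_[p]) * (u : ℤ_[p])) := by ring
    _ = (p : ℤ_[p]) ^ s * a := by rw [h2, mul_one]

theorem den_poly (w : ℚ_[p][X]) : ∃ (s : ℕ) (r : ℤ_[p][X]), r.map (algebraMap ℤ_[p] ℚ_[p]) =
    C (algebraMap ℤ_[p] ℚ_[p] ((p : ℤ_[p]) ^ s)) * w := by
  induction w using Polynomial.induction_on' with
  | add f g hf hg =>
    obtain ⟨s, r, h1⟩ := hf
    obtain ⟨s', r', h2⟩ := hg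
    refine ⟨s + s', C ((p : ℤ_[p]) ^ s') * r + C ((p : ℤ_[p]) ^ s) * r', ?_⟩
    rw [Polynomial.map_add, Polynomial.map_mul, Polynomial.map_mul, h1, h2, map_C, map_C, pow_add,
      map_mul, C_mul]
    ring
  | monomial n a =>
    obtain ⟨s, r, h1⟩ := den_scalar a
    refine ⟨s, monomial n r, ?_⟩
    rw [map_monomial, h1, C_mul_monomial]

theorem p_dvd {x : ℤ_[p]} (hx : PadicInt.toZMod x = 0) : (p : ℤ_[p]) ∣ x := by
  have h1 : x ∈ RingHom.ker (PadicInt.toZMod (p := p)) := hx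
  rw [PadicInt.ker_toZMod, PadicInt.maximalIdeal_eq_span_p, Ideal.mem_span_singleton] at h1
  exact h1

/-- A polynomial which is not a square modulo the reduction of `g`. -/
theorem nosq_mon {g e : ℤ_[p][X]} (hmon : g.Monic)
    (hirr : Irreducible (g.map (PadicInt.toZMod (p := p))))
    (hns : ∀ w : (ZMod p)[X], ¬ g.map (PadicInt.toZMod (p := p)) ∣
      e.map (PadicInt.toZMod (p := p)) - w ^ 2) (w : ℚ_[p][X]) :
    ¬ g.map (algebraMap ℤ_[p] ℚ_[p]) ∣ e.map (algebraMap ℤ_[p] ℚ_[p]) - w ^ 2 := by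
  intro hd
  set alg := algebraMap ℤ_[p] ℚ_[p] with halg
  have hinj : Function.Injective alg := IsFractionRing.injective ℤ_[p] ℚ_[p]
  have hgm : (g.map alg).Monic := hmon.map _
  set w' := w %ₘ (g.map alg) with hw'
  have hdeg : w'.degree < g.degree := by
    have := degree_modByMonic_lt w hgm
    rwa [hmon.degree_map] at this
  have hd' : g.map alg ∣ e.map alg - w' ^ 2 := by
    have h1 := modByMonic_add_div w (g.map alg)
    have h2 : e.map alg - w' ^ 2 = (e.map alg - w ^ 2) + g.map alg * (w /ₘ g.map alg) * (w + w') := by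
      have h3 : g.map alg * (w /ₘ g.map alg) = w - w' := by
        rw [hw']
        linear_combination h1
      rw [h3]
      ring
    rw [h2]
    exact dvd_add hd (Dvd.dvd.mul_right (dvd_mul_right _ _) _)
  have hex : ∃ s : ℕ, ∃ r : ℤ_[p][X], r.map alg = C (alg ((p : ℤ_[p]) ^ s)) * w' := den_poly w'
  obtain ⟨r, hr⟩ := Nat.find_spec hex
  set s := Nat.find hex with hs
  have hrd : r.degree < g.degree := by
    have h1 : (r.map alg).degree = r.degree := degree_map_eq_of_injective hinj r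
    rw [← h1, hr]
    have hp0 : alg ((p : ℤ_[p]) ^ s) ≠ 0 := by
      rw [Ne, map_eq_zero_iff _ hinj]
      exact pow_ne_zero _ (Nat.cast_ne_zero.2 (Fact.out : p.Prime).ne_zero)
    rw [degree_C_mul hp0]
    exact hdeg
  -- the square
  have h1 : g ∣ C ((p : ℤ_[p]) ^ s) ^ 2 * e - r ^ 2 := by
    rw [← map_dvd_map alg hinj hmon, Polynomial.map_sub, Polynomial.map_mul, Polynomial.map_pow,
      Polynomial.map_pow, map_C, hr, mul_pow, ← mul_sub]
    exact Dvd.dvd.mul_left hd' _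
  have h2 := map_dvd (mapRingHom (PadicInt.toZMod (p := p))) h1
  simp only [coe_mapRingHom, Polynomial.map_sub, Polynomial.map_mul, Polynomial.map_pow, map_C] at h2
  rcases Nat.eq_zero_or_pos s with h0 | h0
  · rw [h0, pow_zero, map_one, C_1, one_pow, one_mul] at h2
    exact hns _ h2
  · have h3 : PadicInt.toZMod ((p : ℤ_[p]) ^ s) = (0 : ZMod p) := by
      rw [map_pow, map_natCast, ZMod.natCast_self, zero_pow h0.ne']
    rw [h3, C_0, zero_pow two_ne_zero, zero_mul, zero_sub, dvd_neg] at h2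
    have h4 := hirr.prime.dvd_of_dvd_pow h2
    have h5 : r.map (PadicInt.toZMod (p := p)) = 0 := by
      by_contra hne
      have h6 := degree_le_of_dvd h4 hne
      rw [hmon.degree_map] at h6
      exact absurd (lt_of_le_of_lt (degree_map_le (f := PadicInt.toZMod (p := p))) hrd)
        (not_lt.2 h6)
    have h6 : C (p : ℤ_[p]) ∣ r := by
      rw [C_dvd_iff_dvd_coeff]
      intro i
      apply p_dvd
      rw [← coeff_map, h5, coeff_zero]
    obtain ⟨r', hr'⟩ := h6
    have h7 : ∃ r : ℤ_[p][X], r.map alg = C (alg ((p : ℤ_[p]) ^ (s - 1))) * w' := by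
      refine ⟨r', ?_⟩
      have hp0 : (C (alg (p : ℤ_[p])) : ℚ_[p][X]) ≠ 0 := by
        rw [Ne, C_eq_zero, map_eq_zero_iff _ hinj]
        exact Nat.cast_ne_zero.2 (Fact.out : p.Prime).ne_zero
      apply mul_left_cancel₀ hp0
      have h8 : C (alg (p : ℤ_[p])) * r'.map alg = r.map alg := by
        rw [hr', Polynomial.map_mul, map_C]
      rw [h8, hr, ← mul_assoc, ← C_mul, ← map_mul, ← pow_succ', Nat.sub_add_cancel h0]
    exact Nat.find_min hex (by omega : s - 1 < Nat.find hex) h7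

end padic

section nf

variable {k : Type} [Field k] [NumberField k] {p : ℕ} [Fact p.Prime]

/-- **From the reduction to the number field.** -/
theorem transfer (σ : 𝓞 k →+* ℤ_[p]) {Q e : (𝓞 k)[X]} {n : ℕ} (hQd : Q.natDegree ≤ n)
    (hd : (Q.map (red σ)).natDegree = n) (hn : n ≠ 0) (hirr : Irreducible (Q.map (red σ)))
    (hns : ∀ w : (ZMod p)[X], ¬ Q.map (red σ) ∣ e.map (red σ) - w ^ 2) :
    Irreducible (Q.map (algebraMap (𝓞 k) k)) ∧
    ∀ w : k[X], ¬ Q.map (algebraMap (𝓞 k) k) ∣ e.map (algebraMap (𝓞 k) k) - w ^ 2 := by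
  have hred : ∀ f : (𝓞 k)[X], f.map (red σ) = (f.map σ).map (PadicInt.toZMod (p := p)) := by
    intro f
    rw [Polynomial.map_map]
    rfl
  have hext : ∀ f : (𝓞 k)[X], (f.map (algebraMap (𝓞 k) k)).map (ext σ) =
      (f.map σ).map (algebraMap ℤ_[p] ℚ_[p]) := by
    intro f
    rw [Polynomial.map_map, Polynomial.map_map]
    congr 1
    ext x
    exact ext_alg σ x
  rw [hred] at hd hirr
  simp only [hred] at hns
  have hQd' : (Q.map σ).natDegree ≤ n := natDegree_map_le.trans hQd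
  refine ⟨?_, ?_⟩
  · apply irr_of_map (ext σ)
    rw [hext]
    exact irr_padic hQd' hd hn hirr
  · -- the monic multiple
    set f := Q.map σ with hf
    have hn' : f.natDegree = n := le_antisymm hQd' (by rw [← hd]; exact natDegree_map_le)
    have hlc : PadicInt.toZMod f.leadingCoeff ≠ (0 : ZMod p) := by
      have h1 : (f.map (PadicInt.toZMod (p := p))).leadingCoeff ≠ 0 := by
        rw [Ne, leadingCoeff_eq_zero]
        exact hirr.ne_zero
      rwa [leadingCoeff, hd, coeff_map, ← hn'] at h1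
    have hu : IsUnit f.leadingCoeff := by
      by_contra hcon
      have h1 : f.leadingCoeff ∈ IsLocalRing.maximalIdeal ℤ_[p] := hcon
      rw [← PadicInt.ker_toZMod] at h1
      exact hlc h1
    obtain ⟨u, hu⟩ := hu
    set g : ℤ_[p][X] := C ((u⁻¹ : ℤ_[p]ˣ) : ℤ_[p]) * f with hg
    have hmon : g.Monic := by
      rw [hg, Monic, leadingCoeff_mul, leadingCoeff_C, ← hu, Units.inv_mul]
    have hCu : IsUnit (C ((u⁻¹ : ℤ_[p]ˣ) : ℤ_[p])) := isUnit_C.2 (Units.isUnit _)
    have hass : ∀ {S : Type} [CommRing S] (φ : ℤ_[p] →+* S), Associated (g.map φ) (f.map φ) := by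
      intro S _ φ
      rw [hg, Polynomial.map_mul]
      exact associated_unit_mul_left _ _ (hCu.map (mapRingHom φ))
    intro w hw
    have h1 := map_dvd (mapRingHom (ext σ)) hw
    simp only [coe_mapRingHom, Polynomial.map_sub, Polynomial.map_pow, hext] at h1
    refine nosq_mon hmon ((hass _).irreducible_iff.2 hirr) (fun w' hw' => ?_) (w.map (ext σ))
      ((hass _).dvd.trans h1)
    exact hns w' ((hass _).symm.dvd.trans hw')

end nf

end Run7.h905.DK
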