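import Pool.Agent.Run7.h905.DK.Dd
import Pool.Agent.Run7.h905.DK.Dp
import Pool.Agent.R431.SG.Irr

/-!
# Counting over finite fields
-/

open Polynomial
open scoped Classical

set_option autoImplicit false
set_option linter.all false
set_option maxHeartbeats 400000

namespace Run7.h905.DK

open Pool.Agent.R431.SG (pol pol_coeff pol_degree)

section avg

/-- Double counting. -/
theorem avg {V P : Type} [Fintype V] [Fintype P] (Φ : P → V → V)
    (hΦ : ∀ x, Function.Injective (Φ x)) (G : Finset V) (N Cc : ℕ)
    (h' : ∀ c : V, N ≤ Cc * {x : P | Φ x c ∈ G}.ncard) :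
    Fintype.card V * N ≤ Cc * (Fintype.card P * G.card) := by
  have h : ∀ c : V, N ≤ Cc * (Finset.univ.filter fun x => Φ x c ∈ G).card := by
    intro c
    refine (h' c).trans (Nat.mul_le_mul_left Cc (le_of_eq ?_))
    rw [← Set.ncard_coe_finset]
    congr 1
    ext x
    simp only [Set.mem_setOf_eq, Finset.coe_filter, Finset.mem_univ, true_and]
  have h1 : ∑ c : V, (Finset.univ.filter fun x => Φ x c ∈ G).card ≤ Fintype.card P * G.card := by
    calc ∑ c : V, (Finset.univ.filter fun x => Φ x c ∈ G).card
        = ∑ c : V, ∑ x : P, (if Φ x c ∈ G then 1 else 0) := by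
          refine Finset.sum_congr rfl fun c _ => ?_
          rw [Finset.card_filter]
      _ = ∑ x : P, ∑ c : V, (if Φ x c ∈ G then 1 else 0) := Finset.sum_comm
      _ ≤ ∑ x : P, G.card := by
          refine Finset.sum_le_sum fun x _ => ?_
          rw [← Finset.card_filter]
          exact Finset.card_le_card_of_injOn (Φ x) (fun c hc => (Finset.mem_filter.1 hc).2)
            ((hΦ x).injOn)
      _ = Fintype.card P * G.card := by rw [Finset.sum_const, Finset.card_univ, smul_eq_mul]
  calc Fintype.card V * N = ∑ c : V, N := by rw [Finset.sum_const, Finset.card_univ, smul_eq_mul]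
    _ ≤ ∑ c : V, Cc * (Finset.univ.filter fun x => Φ x c ∈ G).card :=
        Finset.sum_le_sum fun c _ => h c
    _ = Cc * ∑ c : V, (Finset.univ.filter fun x => Φ x c ∈ G).card := by rw [Finset.mul_sum]
    _ ≤ _ := Nat.mul_le_mul_left _ h1

end avg

section cnt

variable {F : Type} [Field F] [Fintype F] {m : ℕ}

/-- The transformation `c ↦ l (c + ν t ^ m) + μ`. -/
def mv (m : ℕ) (x : F × Fˣ × F) (c : Fin (m + 1) → F) : Fin (m + 1) → F :=
  (x.2.1 : F) • (c + Pi.single (Fin.last m) x.1) + Pi.single 0 x.2.2

theorem mv_inj (x : F × Fˣ × F) : Function.Injective (mv m x) := by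
  intro c d h
  unfold mv at h
  have h1 := add_right_cancel h
  have h2 : c + Pi.single (Fin.last m) x.1 = d + Pi.single (Fin.last m) x.1 := by
    have h3 := congrArg (fun z => ((x.2.1⁻¹ : Fˣ) : F) • z) h1
    simpa only [smul_smul, Units.inv_mul, one_smul] using h3
  exact add_right_cancel h2

theorem pol_single {N : ℕ} (j : Fin N) (a : F) : pol (Pi.single j a) = C a * X ^ (j : ℕ) := by
  unfold pol
  rw [Finset.sum_eq_single j]
  · rw [Pi.single_eq_same]
  · intro i _ hi
    rw [Pi.single_eq_of_ne hi, C_0, zero_mul]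
  · intro h
    exact absurd (Finset.mem_univ j) h

theorem pol_add {N : ℕ} (c d : Fin N → F) : pol (c + d) = pol c + pol d := by
  unfold pol
  rw [← Finset.sum_add_distrib]
  refine Finset.sum_congr rfl fun j _ => ?_
  rw [Pi.add_apply, C_add, add_mul]

theorem pol_smul {N : ℕ} (l : F) (c : Fin N → F) : pol (l • c) = C l * pol c := by
  unfold pol
  rw [Finset.mul_sum]
  refine Finset.sum_congr rfl fun j _ => ?_
  rw [Pi.smul_apply, smul_eq_mul, C_mul, mul_assoc]

theorem pol_mv (x : F × Fˣ × F) (c : Fin (m + 1) → F) : pol (mv m x c) =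
    C (x.2.1 : F) * pol (c + Pi.single (Fin.last m) x.1) + C x.2.2 := by
  unfold mv
  rw [pol_add, pol_smul, pol_single, Fin.val_zero, pow_zero, mul_one]

theorem pol_deg_iff (c : Fin (m + 1) → F) (h : c (Fin.last m) ≠ 0) : (pol c).natDegree = m := by
  apply le_antisymm (pol_degree c)
  apply le_natDegree_of_ne_zero
  have := pol_coeff c (Fin.last m)
  rw [Fin.val_last] at this
  rw [this]
  exact h

/-- A positive proportion of all the polynomials from a positive proportion in all pencils. -/
theorem all_of_pencils (G : Set F[X]) (Cc B : ℕ) (hB : 2 * (B + 1) ≤ Fintype.card F)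
    (h : ∀ b : F[X], b.natDegree = m → ∃ bad : Finset F, bad.card ≤ B ∧ ∀ l ∉ bad,
      Fintype.card F ≤ Cc * {μ : F | C l * b + C μ ∈ G}.ncard) :
    Fintype.card F ^ (m + 1) ≤ 2 * Cc * {c : Fin (m + 1) → F | pol c ∈ G}.ncard := by
  set q := Fintype.card F with hq
  set GF : Finset (Fin (m + 1) → F) := Finset.univ.filter fun c => pol c ∈ G with hGF
  have hGc : {c : Fin (m + 1) → F | pol c ∈ G}.ncard = GF.card := by
    rw [← Set.ncard_coe_finset, hGF]
    congr 1
    ext c
    simp
  rw [hGc]
  have hq1 : 1 < q := Fintype.one_lt_card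
  have key := avg (V := Fin (m + 1) → F) (P := F × Fˣ × F) (mv m) mv_inj GF
    ((q - 1) * ((q - 1 - B) * q)) Cc (by
    intro c
    -- count of the triples
    have e1 : {x : F × Fˣ × F | mv m x c ∈ GF}.ncard =
        ∑ ν : F, ∑ l : Fˣ, (Finset.univ.filter fun μ : F => mv m (ν, l, μ) c ∈ GF).card := by
      have e0 : {x : F × Fˣ × F | mv m x c ∈ GF}.ncard =
          (Finset.univ.filter fun x : F × Fˣ × F => mv m x c ∈ GF).card := by
        rw [← Set.ncard_coe_finset]
        congr 1
        ext x
        simp only [Set.mem_setOf_eq, Finset.coe_filter, Finset.mem_univ, true_and]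
      rw [e0, Finset.card_filter, Fintype.sum_prod_type]
      refine Finset.sum_congr rfl fun ν _ => ?_
      rw [Fintype.sum_prod_type]
      refine Finset.sum_congr rfl fun l _ => ?_
      rw [Finset.card_filter]
    refine le_trans ?_ (Nat.mul_le_mul_left Cc (le_of_eq e1.symm))
    rw [Finset.mul_sum]
    have e2 : ∀ ν ∈ Finset.univ.filter (fun ν : F => c (Fin.last m) + ν ≠ 0),
        (q - 1 - B) * q ≤ Cc * ∑ l : Fˣ,
          (Finset.univ.filter fun μ : F => mv m (ν, l, μ) c ∈ GF).card := by
      intro ν hν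
      rw [Finset.mem_filter] at hν
      have hdeg : (pol (c + Pi.single (Fin.last m) ν)).natDegree = m := by
        apply pol_deg_iff
        rw [Pi.add_apply, Pi.single_eq_same]
        exact hν.2
      obtain ⟨bad, hb1, hb2⟩ := h _ hdeg
      rw [Finset.mul_sum]
      have e3 : ∀ l ∈ Finset.univ.filter (fun l : Fˣ => (l : F) ∉ bad), q ≤
          Cc * (Finset.univ.filter fun μ : F => mv m (ν, l, μ) c ∈ GF).card := by
        intro l hl
        rw [Finset.mem_filter] at hl
        refine (hb2 l hl.2).trans (Nat.mul_le_mul_left _ (le_of_eq ?_))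
        rw [← Set.ncard_coe_finset]
        congr 1
        ext μ
        simp only [hGF, Set.mem_setOf_eq, Finset.coe_filter, Finset.mem_univ, true_and,
          Finset.mem_filter, pol_mv]
      have e4 : q - 1 - B ≤ (Finset.univ.filter (fun l : Fˣ => (l : F) ∉ bad)).card := by
        have h5 : Fintype.card Fˣ = q - 1 := by
          rw [hq, Fintype.card_units]
        have h6 := Finset.card_filter_add_card_filter_not (s := (Finset.univ : Finset Fˣ))
          (fun l : Fˣ => (l : F) ∈ bad)
        rw [Finset.card_univ, h5] at h6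
        have h7 : (Finset.univ.filter (fun l : Fˣ => (l : F) ∈ bad)).card ≤ bad.card :=
          Finset.card_le_card_of_injOn (fun l : Fˣ => (l : F))
            (fun l hl => (Finset.mem_filter.1 hl).2) (Units.val_injective.injOn)
        omega
      calc (q - 1 - B) * q ≤ (Finset.univ.filter (fun l : Fˣ => (l : F) ∉ bad)).card * q :=
            Nat.mul_le_mul_right _ e4
        _ = ∑ l ∈ Finset.univ.filter (fun l : Fˣ => (l : F) ∉ bad), q := by
            rw [Finset.sum_const, smul_eq_mul]
        _ ≤ ∑ l ∈ Finset.univ.filter (fun l : Fˣ => (l : F) ∉ bad),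
            Cc * (Finset.univ.filter fun μ : F => mv m (ν, l, μ) c ∈ GF).card :=
            Finset.sum_le_sum e3
        _ ≤ ∑ l : Fˣ, Cc * (Finset.univ.filter fun μ : F => mv m (ν, l, μ) c ∈ GF).card :=
            Finset.sum_le_sum_of_subset (Finset.filter_subset _ _)
    have e5 : (Finset.univ.filter (fun ν : F => c (Fin.last m) + ν ≠ 0)).card = q - 1 := by
      have h6 : (Finset.univ.filter (fun ν : F => c (Fin.last m) + ν ≠ 0)) =
          Finset.univ.erase (-c (Fin.last m)) := by
        ext ν
        rw [Finset.mem_filter, Finset.mem_erase]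
        constructor
        · rintro ⟨-, h8⟩
          refine ⟨?_, Finset.mem_univ _⟩
          rintro rfl
          exact h8 (by ring)
        · rintro ⟨h8, -⟩
          refine ⟨Finset.mem_univ _, fun h9 => h8 ?_⟩
          linear_combination h9
      rw [h6, Finset.card_erase_of_mem (Finset.mem_univ _), Finset.card_univ]
    calc (q - 1) * ((q - 1 - B) * q)
        = ∑ ν ∈ Finset.univ.filter (fun ν : F => c (Fin.last m) + ν ≠ 0), (q - 1 - B) * q := by
          rw [Finset.sum_const, e5, smul_eq_mul]
      _ ≤ ∑ ν ∈ Finset.univ.filter (fun ν : F => c (Fin.last m) + ν ≠ 0), Cc * ∑ l : Fˣ,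
          (Finset.univ.filter fun μ : F => mv m (ν, l, μ) c ∈ GF).card := Finset.sum_le_sum e2
      _ ≤ _ := Finset.sum_le_sum_of_subset (Finset.filter_subset _ _))
  have hcP : Fintype.card (F × Fˣ × F) = q * ((q - 1) * q) := by
    rw [Fintype.card_prod, Fintype.card_prod, Fintype.card_units]
  have hcV : Fintype.card (Fin (m + 1) → F) = q ^ (m + 1) := by
    rw [Fintype.card_fun, Fintype.card_fin]
  rw [hcP, hcV] at key
  -- cancel
  have hq0 : 0 < (q - 1) * q := Nat.mul_pos (by omega) (by omega)
  have k2 : ((q - 1) * q) * (q ^ (m + 1) * (q - 1 - B)) ≤ ((q - 1) * q) * (Cc * (q * GF.card)) := by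
    calc ((q - 1) * q) * (q ^ (m + 1) * (q - 1 - B)) = q ^ (m + 1) * ((q - 1) * ((q - 1 - B) * q)) := by
          ring
      _ ≤ Cc * (q * ((q - 1) * q) * GF.card) := key
      _ = _ := by ring
  have k3 := Nat.le_of_mul_le_mul_left k2 hq0
  have k4 : q * q ^ (m + 1) ≤ q * (2 * Cc * GF.card) := by
    calc q * q ^ (m + 1) ≤ (2 * (q - 1 - B)) * q ^ (m + 1) :=
          Nat.mul_le_mul_right _ (by omega)
      _ = 2 * (q ^ (m + 1) * (q - 1 - B)) := by ring
      _ ≤ 2 * (Cc * (q * GF.card)) := Nat.mul_le_mul_left _ k3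
      _ = _ := by ring
  exact Nat.le_of_mul_le_mul_left k4 (by omega)

end cnt

end Run7.h905.DK
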