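import Pool.Agent.Run7.h905.DK.De
import Mathlib.FieldTheory.PrimitiveElement
import Mathlib.RingTheory.Polynomial.GaussLemma

/-!
# Arbitrary extensions of the constants
-/

open Polynomial
open scoped Classical

set_option autoImplicit false
set_option linter.all false
set_option maxHeartbeats 400000

namespace Run7.h905.DK

/-- Every element of `k'` that is algebraic over `k` has degree prime to `N` over `k`. -/
def Tame (N : ℕ) (k k' : Type) [Field k] [Field k'] [Algebra k k'] : Prop :=
  ∀ x : k', IsIntegral k x → Nat.Coprime N (minpoly k x).natDegree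

section tame

variable {k k' : Type} [Field k] [PerfectField k] [Field k'] [Algebra k k'] {N : ℕ}

theorem irr_tame (h : Tame N k k') {Q : k[X]} (hQ : Irreducible Q) (hd : Q.natDegree ∣ N) :
    Irreducible (Q.map (algebraMap k k')) := by
  have hQ0 : Q.map (algebraMap k k') ≠ 0 := (Polynomial.map_ne_zero_iff
    (algebraMap k k').injective).2 hQ.ne_zero
  have hdeg : (Q.map (algebraMap k k')).natDegree = Q.natDegree := natDegree_map _
  have hpos : 0 < Q.natDegree := hQ.natDegree_pos
  have hnu : ¬ IsUnit (Q.map (algebraMap k k')) := by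
    intro h
    have := natDegree_eq_zero_of_isUnit h
    omega
  obtain ⟨P, hP, hPQ⟩ := WfDvdMonoid.exists_irreducible_factor hnu hQ0
  set g := P * C (P.leadingCoeff)⁻¹ with hg
  have hgm : g.Monic := monic_mul_leadingCoeff_inv hP.ne_zero
  have hu1 : IsUnit (C (P.leadingCoeff)⁻¹ : k'[X]) :=
    isUnit_C.2 (isUnit_iff_ne_zero.2 (inv_ne_zero (leadingCoeff_ne_zero.2 hP.ne_zero)))
  have hgP : Associated P g := (associated_mul_unit_right P _ hu1)
  have hgi : Irreducible g := hgP.irreducible hP
  have hgQ : g ∣ Q.map (algebraMap k k') := hgP.symm.dvd.trans hPQ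
  set Q1 := Q * C (Q.leadingCoeff)⁻¹ with hQ1
  have hQ1m : Q1.Monic := monic_mul_leadingCoeff_inv hQ.ne_zero
  have hd1 : g ∣ Q1.map (algebraMap k k') := by
    rw [hQ1, Polynomial.map_mul]
    exact Dvd.dvd.mul_right hgQ _
  have hl := integralClosure.mem_lifts_of_monic_of_dvd_map k' hQ1m hgm hd1
  have hint : ∀ i, IsIntegral k (g.coeff i) := by
    intro i
    rw [lifts_iff_coeff_lifts] at hl
    obtain ⟨y, hy⟩ := hl i
    rw [← hy]
    exact y.2
  let S : Set k' := (g.coeffs : Set k')
  let F1 := IntermediateField.adjoin k S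
  haveI : Finite S := g.coeffs.finite_toSet
  haveI : FiniteDimensional k F1 := by
    apply IntermediateField.finiteDimensional_adjoin
    intro x hx
    have hx' : x ∈ g.coeffs := hx
    rw [mem_coeffs_iff] at hx'
    obtain ⟨i, -, rfl⟩ := hx'
    exact hint i
  obtain ⟨β, hβ⟩ := Field.exists_primitive_element k F1
  have hβd : (minpoly k β).natDegree = Module.finrank k F1 :=
    (Field.primitive_element_iff_minpoly_natDegree_eq k β).1 hβ
  have hβ2 : minpoly k (algebraMap F1 k' β) = minpoly k β :=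
    minpoly.algebraMap_eq (algebraMap F1 k').injective β
  have hcop : Nat.Coprime N (Module.finrank k F1) := by
    rw [← hβd, ← hβ2]
    apply h
    exact (Algebra.IsIntegral.isIntegral (R := k) β).algebraMap
  have hQF : Irreducible (Q.map (algebraMap k F1)) :=
    irr_ext hQ (Nat.Coprime.coprime_dvd_left hd hcop)
  have hl2 : g ∈ lifts (algebraMap F1 k') := by
    rw [lifts_iff_coeff_lifts]
    intro i
    have hi : g.coeff i ∈ F1 := by
      by_cases h0 : g.coeff i = 0
      · rw [h0]
        exact F1.zero_mem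
      · apply IntermediateField.subset_adjoin
        exact coeff_mem_coeffs h0
    exact ⟨⟨g.coeff i, hi⟩, rfl⟩
  rw [mem_lifts] at hl2
  obtain ⟨g1, hg1⟩ := hl2
  have hm : Q.map (algebraMap k k') = (Q.map (algebraMap k F1)).map (algebraMap F1 k') := by
    rw [Polynomial.map_map]
    rfl
  have hdv : g1 ∣ Q.map (algebraMap k F1) := by
    rw [← map_dvd_map' (algebraMap F1 k'), hg1, ← hm]
    exact hgQ
  have hnu1 : ¬ IsUnit g1 := by
    intro hu
    apply hgi.not_isUnit
    rw [← hg1]
    exact hu.map (mapRingHom (algebraMap F1 k'))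
  obtain ⟨r, hr⟩ := hdv
  have hru := (hQF.isUnit_or_isUnit hr).resolve_left hnu1
  rw [hm, hr, Polynomial.map_mul, hg1]
  exact (associated_mul_unit_right g _ (hru.map (mapRingHom (algebraMap F1 k')))).irreducible hgi

theorem nosq_tame (h : Tame N k k') {Q e : k[X]} (hQ : Irreducible Q) (hd : 2 * Q.natDegree ∣ N)
    (he : ∀ w : k[X], ¬ Q ∣ e - w ^ 2) (w : k'[X]) :
    ¬ Q.map (algebraMap k k') ∣ e.map (algebraMap k k') - w ^ 2 := by
  intro hdv
  have hQ' := irr_tame h hQ (Dvd.dvd.trans (Dvd.intro_left 2 rfl) hd)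
  set Q' := Q.map (algebraMap k k') with hQd
  have hdeg : Q'.natDegree = Q.natDegree := natDegree_map _
  haveI : Fact (Irreducible Q) := ⟨hQ⟩
  haveI : Fact (Irreducible Q') := ⟨hQ'⟩
  let j : AdjoinRoot Q →+* AdjoinRoot Q' := AdjoinRoot.map (algebraMap k k') Q Q' dvd_rfl
  have hj : ∀ p : k[X], j (AdjoinRoot.mk Q p) = AdjoinRoot.mk Q' (p.map (algebraMap k k')) := by
    have h0 : j.comp (AdjoinRoot.mk Q) = (AdjoinRoot.mk Q').comp (mapRingHom (algebraMap k k')) := by
      apply Polynomial.ringHom_ext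
      · intro a
        show AdjoinRoot.map (algebraMap k k') Q Q' dvd_rfl (AdjoinRoot.of Q a) =
          AdjoinRoot.mk Q' ((C a).map (algebraMap k k'))
        rw [AdjoinRoot.map_of, map_C]
        rfl
      · show AdjoinRoot.map (algebraMap k k') Q Q' dvd_rfl (AdjoinRoot.root Q) =
          AdjoinRoot.mk Q' (X.map (algebraMap k k'))
        rw [AdjoinRoot.map_root, map_X]
        rfl
    intro p
    exact RingHom.congr_fun h0 p
  haveI : FiniteDimensional k' (AdjoinRoot Q') := (AdjoinRoot.powerBasis hQ'.ne_zero).finite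
  haveI : FiniteDimensional k (AdjoinRoot Q) := (AdjoinRoot.powerBasis hQ.ne_zero).finite
  have h1 : Module.finrank k' (AdjoinRoot Q') = Q'.natDegree := by
    rw [(AdjoinRoot.powerBasis hQ'.ne_zero).finrank, AdjoinRoot.powerBasis_dim]
  have h2 : Module.finrank k (AdjoinRoot Q) = Q.natDegree := by
    rw [(AdjoinRoot.powerBasis hQ.ne_zero).finrank, AdjoinRoot.powerBasis_dim]
  set ē := AdjoinRoot.mk Q e with hē
  have hns : ∀ z : AdjoinRoot Q, z ^ 2 ≠ ē := by
    intro z hz
    obtain ⟨w0, rfl⟩ := AdjoinRoot.mk_surjective z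
    apply he w0
    rw [← AdjoinRoot.mk_eq_zero, map_sub, map_pow, hz, ← hē, sub_self]
  have hirr : Irreducible (X ^ 2 - C ē) := X_pow_sub_C_irreducible_of_prime Nat.prime_two hns
  set f := X ^ 2 - C ē with hf
  haveI : Fact (Irreducible f) := ⟨hirr⟩
  haveI : FiniteDimensional (AdjoinRoot Q) (AdjoinRoot f) :=
    (AdjoinRoot.powerBasis hirr.ne_zero).finite
  haveI : FiniteDimensional k (AdjoinRoot f) :=
    FiniteDimensional.trans k (AdjoinRoot Q) (AdjoinRoot f)
  have h3 : Module.finrank (AdjoinRoot Q) (AdjoinRoot f) = 2 := by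
    rw [(AdjoinRoot.powerBasis hirr.ne_zero).finrank, AdjoinRoot.powerBasis_dim, hf,
      natDegree_X_pow_sub_C]
  have h4 : Module.finrank k (AdjoinRoot f) = 2 * Q.natDegree := by
    rw [← Module.finrank_mul_finrank k (AdjoinRoot Q) (AdjoinRoot f), h2, h3, mul_comm]
  obtain ⟨β, hβ⟩ := Field.exists_primitive_element k (AdjoinRoot f)
  have hβd : (minpoly k β).natDegree = Module.finrank k (AdjoinRoot f) :=
    (Field.primitive_element_iff_minpoly_natDegree_eq k β).1 hβ
  have hmi : Irreducible (minpoly k β) := minpoly.irreducible (Algebra.IsIntegral.isIntegral β)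
  have hmi' := irr_tame h hmi (by rw [hβd, h4]; exact hd)
  set v := AdjoinRoot.mk Q' w with hv
  have hv2 : f.eval₂ j v = 0 := by
    rw [hf, eval₂_sub, eval₂_pow, eval₂_X, eval₂_C, hē, hj, hv, ← map_pow, ← map_sub, ← neg_sub,
      map_neg, neg_eq_zero, AdjoinRoot.mk_eq_zero]
    exact hdv
  let J : AdjoinRoot f →+* AdjoinRoot Q' := AdjoinRoot.lift j v hv2
  have hJ : J.comp (algebraMap k (AdjoinRoot f)) =
      (algebraMap k' (AdjoinRoot Q')).comp (algebraMap k k') := by
    ext a
    show AdjoinRoot.lift j v hv2 (AdjoinRoot.of f (AdjoinRoot.of Q a)) = _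
    rw [AdjoinRoot.lift_of]
    show AdjoinRoot.map (algebraMap k k') Q Q' dvd_rfl (AdjoinRoot.of Q a) = _
    rw [AdjoinRoot.map_of]
    rfl
  have hroot : aeval (J β) ((minpoly k β).map (algebraMap k k')) = 0 := by
    rw [aeval_def, eval₂_map, ← hJ, ← hom_eval₂, ← aeval_def, minpoly.aeval, map_zero]
  have hint : IsIntegral k' (J β) := Algebra.IsIntegral.isIntegral _
  have h6 := (minpoly.irreducible hint).associated_of_dvd hmi' (minpoly.dvd k' _ hroot)
  have h7 : (minpoly k' (J β)).natDegree = 2 * Q.natDegree := by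
    rw [natDegree_eq_of_degree_eq (degree_eq_degree_of_associated h6), natDegree_map, hβd, h4]
  have h8 := minpoly.natDegree_le (A := k') (J β)
  rw [h7, h1, hdeg] at h8
  have h9 := hQ.natDegree_pos
  omega

end tame

end Run7.h905.DK
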