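import Pool.Agent.Run7.h905.DK.Dl
import Pool.Agent.Run7.h905.DK.Dq

/-!
# Roots of unity modulo primes, and tame extensions
-/

open Polynomial NumberField
open scoped Classical

set_option autoImplicit false
set_option linter.all false
set_option maxHeartbeats 400000

namespace Run7.h905.DK

open Pool.Agent.R431.SG

/-- Nonzero modulo large primes. -/
theorem red_ne {k : Type} [Field k] [NumberField k] {α : 𝓞 k} (hα : α ≠ 0) : ∃ N : ℕ,
    ∀ (p : ℕ) [Fact p.Prime] (σ : 𝓞 k →+* ℤ_[p]), N ≤ p → red σ α ≠ 0 := by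
  obtain ⟨M, hM, x, hx⟩ := exists_dvd_int hα
  refine ⟨M.natAbs + 1, ?_⟩
  intro p _ σ hp h
  have h1 := congrArg (red σ) hx
  rw [map_mul, h, zero_mul, map_intCast, ZMod.intCast_zmod_eq_zero_iff_dvd] at h1
  have h2 : p ∣ M.natAbs := Int.natCast_dvd.1 h1
  have h3 : 0 < M.natAbs := Int.natAbs_pos.2 hM
  have h4 := Nat.le_of_dvd h3 h2
  omega

/-- Roots of unity. -/
theorem prim_red {n p : ℕ} [Fact p.Prime] {k' : Type} [Field k'] [NumberField k'] {ζ : k'}
    (hn : 0 < n) (hζ : IsPrimitiveRoot ζ n) (σ : 𝓞 k' →+* ℤ_[p]) (hp : n < p) : n ∣ p - 1 := by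
  have hζi : IsIntegral ℤ ζ := hζ.isIntegral hn
  set z : 𝓞 k' := ⟨ζ, hζi⟩ with hz
  have h1 : IsPrimitiveRoot z n := by
    apply IsPrimitiveRoot.of_map_of_injective (f := algebraMap (𝓞 k') k')
    · exact hζ
    · exact RingOfIntegers.coe_injective
  have h2 : IsPrimitiveRoot (σ z) n := h1.map_of_injective (emb_inj σ)
  have h3 : (cyclotomic n ℤ_[p]).IsRoot (σ z) := h2.isRoot_cyclotomic hn
  haveI : NeZero ((n : ℕ) : ZMod p) := ⟨by
    rw [Ne, ZMod.natCast_eq_zero_iff]
    exact Nat.not_dvd_of_pos_of_lt hn hp⟩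
  have h4 : (cyclotomic n (ZMod p)).IsRoot (PadicInt.toZMod (σ z)) := by
    rw [← map_cyclotomic n (PadicInt.toZMod (p := p)), IsRoot, eval_map, eval₂_hom, h3, map_zero]
  have h5 : IsPrimitiveRoot (PadicInt.toZMod (σ z) : ZMod p) n := isRoot_cyclotomic_iff.1 h4
  have h6 : (PadicInt.toZMod (σ z) : ZMod p) ≠ 0 := h5.ne_zero hn.ne'
  exact h5.dvd_of_pow_eq_one _ (ZMod.pow_card_sub_one_eq_one h6)

/-- Finite extensions of degree prime to `N` are tame. -/
theorem tame_fin {k k' : Type} [Field k] [Field k'] [Algebra k k'] [FiniteDimensional k k'] {N : ℕ}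
    (h : Nat.Coprime N (Module.finrank k k')) : Tame N k k' := by
  intro x hx
  refine Nat.Coprime.coprime_dvd_right ?_ h
  rw [← IntermediateField.adjoin.finrank hx]
  exact ⟨_, (Module.finrank_mul_finrank k (IntermediateField.adjoin k {x}) k').symm⟩

/-- Extensions in which `k` is algebraically closed are tame. -/
theorem tame_reg {k k' : Type} [Field k] [Field k'] [Algebra k k'] {N : ℕ}
    (h : ∀ x : k', IsIntegral k x → x ∈ Set.range (algebraMap k k')) : Tame N k k' := by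
  intro x hx
  obtain ⟨y, rfl⟩ := h x hx
  rw [minpoly.eq_X_sub_C, natDegree_X_sub_C]
  exact Nat.coprime_one_right N

end Run7.h905.DK
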