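import Pool.Agent.Run7.h905.DK.Di
import Pool.Agent.Run7.h905.DK.Dl
import Pool.Agent.Run7.h905.DK.Dm
import Pool.Agent.Run7.h905.DK.Dr

/-!
# Almost all cubic pencils over number fields
-/

open Polynomial NumberField
open scoped Classical

set_option autoImplicit false
set_option linter.all false
set_option maxHeartbeats 400000

namespace Run7.h905.DK

open Pool.Agent.R431.SG

section cr

/-- `b ^ 3 + α b - t` -/
noncomputable def q3 {R : Type} [CommRing R] (α : R) (b : R[X]) : R[X] := b ^ 3 + C α * b - X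

/-- `-(3 b ^ 2 + 4 α)` -/
noncomputable def e3 {R : Type} [CommRing R] (α : R) (b : R[X]) : R[X] := -(3 * b ^ 2 + 4 * C α)

variable {R S : Type} [CommRing R] [CommRing S] (φ : R →+* S)

theorem q3_map (α : R) (b : R[X]) : (q3 α b).map φ = q3 (φ α) (b.map φ) := by
  unfold q3
  simp only [Polynomial.map_sub, Polynomial.map_add, Polynomial.map_mul, Polynomial.map_pow, map_X,
    map_C]

theorem e3_map (α : R) (b : R[X]) : (e3 α b).map φ = e3 (φ α) (b.map φ) := by
  unfold e3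
  simp only [Polynomial.map_neg, Polynomial.map_add, Polynomial.map_mul, Polynomial.map_pow,
    Polynomial.map_ofNat, map_C]

theorem q3_le {α : R} {b : R[X]} {m : ℕ} (hm : 1 ≤ m) (hb : b.natDegree ≤ m) :
    (q3 α b).natDegree ≤ 3 * m := by
  unfold q3
  refine (natDegree_sub_le _ _).trans (max_le ((natDegree_add_le _ _).trans (max_le ?_ ?_)) ?_)
  · exact natDegree_pow_le.trans (Nat.mul_le_mul_left 3 hb)
  · exact (natDegree_C_mul_le _ _).trans (by omega)
  · exact natDegree_X_le.trans (by omega)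

end cr

/-- The good polynomials. -/
structure Nice {k : Type} [Field k] (m : ℕ) (α : k) (b : k[X]) : Prop where
  deg : b.natDegree = m
  irr : Irreducible (Q3 α b)
  nosq : ∀ w : k[X], ¬ Q3 α b ∣ e3 α b - w ^ 2

/-- Counting over the finite fields. -/
theorem count3 (m : ℕ) (hm : 1 ≤ m) : ∃ C0 : ℕ, ∀ (F : Type) [Field F] [Fintype F],
    3 * m ∣ Fintype.card F - 1 → ((6 * (3 * m - 1) : ℕ) : F) ≠ 0 → C0 < Fintype.card F →
    ∀ α : F, α ≠ 0 → Fintype.card F ^ (m + 1) ≤ 2 * (2 * (3 * m + 2) ^ (3 * m + 2)) *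
      {c : Fin (m + 1) → F | Nice m α (pol c)}.ncard := by
  obtain ⟨C0, hC0⟩ := pencil 3 m (by omega)
  refine ⟨max C0 (2 * (3 * m + 1 + 1)), ?_⟩
  intro F _ _ hdiv h6 hcard α hα
  have hc0 : C0 < Nat.card F := by
    rw [Nat.card_eq_fintype_card]
    exact lt_of_le_of_lt (le_max_left _ _) hcard
  have hc1 : 2 * (3 * m + 1 + 1) ≤ Fintype.card F :=
    le_of_lt (lt_of_le_of_lt (le_max_right _ _) hcard)
  rw [Nat.cast_mul] at h6
  have h6' : (6 : F) ≠ 0 := by
    have := left_ne_zero_of_mul h6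
    exact_mod_cast this
  have h6'' : ((3 * m - 1 : ℕ) : F) ≠ 0 := right_ne_zero_of_mul h6
  have h2 : (2 : F) ≠ 0 := by
    intro h
    apply h6'
    have : (6 : F) = 2 * 3 := by norm_num
    rw [this, h, zero_mul]
  have h3 : (3 : F) ≠ 0 := by
    intro h
    apply h6'
    have : (6 : F) = 2 * 3 := by norm_num
    rw [this, h, mul_zero]
  obtain ⟨ω, hω⟩ := exists_prim (k := F) (n := 3 * m) (by
    rw [Nat.card_eq_fintype_card]
    exact hdiv)
  have he : (-4 * α * 3⁻¹ : F) ≠ 0 := by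
    have h4 : (-4 : F) ≠ 0 := by
      have : (-4 : F) = -(2 ^ 2) := by norm_num
      rw [this, neg_ne_zero]
      exact pow_ne_zero _ h2
    exact mul_ne_zero (mul_ne_zero h4 hα) (inv_ne_zero h3)
  have hω3 : IsPrimitiveRoot (ω ^ m) 3 := hω.pow (by omega) (by rw [mul_comm])
  set ε := 2 * ω ^ m + 1 with hεd
  have hε : ε ^ 2 = -3 := sqrt3 hω3
  have hε0 : ε ≠ 0 := by
    intro h0
    rw [h0, zero_pow two_ne_zero, zero_eq_neg] at hε
    exact h3 hε
  refine all_of_pencils {b : F[X] | Nice m α b} (2 * (3 * m + 2) ^ (3 * m + 2)) (3 * m + 1) hc1 ?_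
  intro b hb
  obtain ⟨bad, hbad1, hbad2⟩ := hC0 F h2 ω hω h6'' (a3 α) a3_monic a3_deg _ he b hb
  refine ⟨bad, hbad1, ?_⟩
  intro l hl
  obtain ⟨hl0, hl1⟩ := hbad2 hc0 l hl
  rw [Nat.card_eq_fintype_card] at hl1
  refine hl1.trans (Nat.mul_le_mul_left _ (Set.ncard_le_ncard ?_ (Set.toFinite _)))
  rintro μ ⟨h4, h5⟩
  rw [a3_comp] at h4 h5
  refine ⟨?_, h4, ?_⟩
  · rw [natDegree_add_C, natDegree_C_mul hl0, hb]
  · intro w hw
    apply h5 (C ε⁻¹ * w)
    set B := C l * b + C μ with hB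
    have e1 : C (ε⁻¹) ^ 2 = C (-(3 : F)⁻¹) := by
      rw [← C_pow, inv_pow, hε, neg_inv]
    have e2 : (C (3 : F)⁻¹ : F[X]) * 3 = 1 := by
      rw [← C_ofNat, ← C_mul]
      have : ((3 : F)⁻¹ * (OfNat.ofNat 3 : F)) = 1 := inv_mul_cancel₀ h3
      rw [this, C_1]
    have e5 : B ^ 2 - C (-4 * α * 3⁻¹) - (C ε⁻¹ * w) ^ 2 = -C (3 : F)⁻¹ * (e3 α B - w ^ 2) := by
      rw [mul_pow, e1, C_neg]
      have e4 : (C (-4 * α * 3⁻¹) : F[X]) = -4 * C α * C 3⁻¹ := by
        simp only [C_mul, C_neg, C_ofNat]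
      rw [e4]
      unfold e3
      linear_combination (-B ^ 2) * e2
    rw [e5]
    exact Dvd.dvd.mul_left hw _

section nf

variable {k : Type} [Field k] [NumberField k]

/-- From the extension `k'` to `k`. -/
theorem nice_of {k' : Type} [Field k'] [NumberField k'] [Algebra k k'] {p : ℕ} [Fact p.Prime]
    (ι : 𝓞 k →+* 𝓞 k') (hι : ∀ x, algebraMap (𝓞 k') k' (ι x) =
      algebraMap k k' (algebraMap (𝓞 k) k x)) (σ : 𝓞 k' →+* ℤ_[p]) {m : ℕ} (hm : 1 ≤ m)
    {α : 𝓞 k} {c : Fin (m + 1) → 𝓞 k}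
    (h : Nice m (red (σ.comp ι) α) (pol fun i => red (σ.comp ι) (c i))) :
    Nice m (algebraMap (𝓞 k) k α) ((pol c).map (algebraMap (𝓞 k) k)) := by
  set b := pol c with hb
  have hbm : (pol fun i => red (σ.comp ι) (c i)) = b.map (red (σ.comp ι)) := by
    rw [hb, pol_map]
  rw [hbm] at h
  have hbd : b.natDegree ≤ m := pol_degree c
  have hbd2 : b.natDegree = m := by
    apply le_antisymm hbd
    rw [← h.deg]
    exact natDegree_map_le
  have hred : ∀ f : (𝓞 k)[X], f.map (red (σ.comp ι)) = (f.map ι).map (red σ) := by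
    intro f
    rw [Polynomial.map_map]
    rfl
  have hredα : red (σ.comp ι) α = red σ (ι α) := rfl
  have hQ1 : Q3 (red (σ.comp ι) α) (b.map (red (σ.comp ι))) =
      (q3 (ι α) (b.map ι)).map (red σ) := by
    rw [q3_map, hred]
    rfl
  have hE1 : e3 (red (σ.comp ι) α) (b.map (red (σ.comp ι))) =
      (e3 (ι α) (b.map ι)).map (red σ) := by
    rw [e3_map, hred, hredα]
  have hdeg : ((q3 (ι α) (b.map ι)).map (red σ)).natDegree = 3 * m := by
    rw [← hQ1, Q3_deg (by rw [h.deg]; exact hm), h.deg]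
  obtain ⟨h1, h2⟩ := transfer σ (Q := q3 (ι α) (b.map ι)) (e := e3 (ι α) (b.map ι)) (n := 3 * m)
    (q3_le hm (natDegree_map_le.trans hbd)) hdeg (by omega) (by rw [← hQ1]; exact h.irr) (by
      intro w
      rw [← hQ1, ← hE1]
      exact h.nosq w)
  have hmm : (b.map ι).map (algebraMap (𝓞 k') k') =
      (b.map (algebraMap (𝓞 k) k)).map (algebraMap k k') := by
    rw [Polynomial.map_map, Polynomial.map_map]
    congr 1
    ext x
    exact hι x
  have hQ2 : (q3 (ι α) (b.map ι)).map (algebraMap (𝓞 k') k') =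
      (Q3 (algebraMap (𝓞 k) k α) (b.map (algebraMap (𝓞 k) k))).map (algebraMap k k') := by
    rw [Q3_map, q3_map, hmm, hι]
    rfl
  have hE2 : (e3 (ι α) (b.map ι)).map (algebraMap (𝓞 k') k') =
      (e3 (algebraMap (𝓞 k) k α) (b.map (algebraMap (𝓞 k) k))).map (algebraMap k k') := by
    rw [e3_map, e3_map, hmm, hι]
  rw [hQ2] at h1 h2
  rw [hE2] at h2
  refine ⟨?_, irr_of_map _ h1, ?_⟩
  · rw [natDegree_map_eq_of_injective RingOfIntegers.coe_injective, hbd2]
  · intro w hw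
    apply h2 (w.map (algebraMap k k'))
    rw [← Polynomial.map_pow, ← Polynomial.map_sub]
    exact Polynomial.map_dvd _ hw

variable {J : Type} [Fintype J] (B : Module.Basis J ℤ (𝓞 k))

/-- **Almost all.** -/
theorem almost3 (m : ℕ) (hm : 1 ≤ m) {α : 𝓞 k} (hα : α ≠ 0) {η : ℝ} (hη : 0 < η) :
    ∃ H0 : ℕ, ∀ H : ℕ, H0 ≤ H →
      (({c : Fin (m + 1) → 𝓞 k | (∀ i j, |B.repr (c i) j| ≤ (H : ℤ)) ∧
        ¬ Nice m (algebraMap (𝓞 k) k α) ((pol c).map (algebraMap (𝓞 k) k))}.ncard : ℕ) : ℝ) ≤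
        η * (2 * H + 1) ^ ((m + 1) * Fintype.card J) := by
  obtain ⟨C0, hC0⟩ := count3 m hm
  obtain ⟨N, hN⟩ := red_ne hα
  haveI : NeZero ((3 * m : ℕ) : k) := ⟨by
    rw [Nat.cast_ne_zero]
    omega⟩
  haveI : NeZero (3 * m) := ⟨by omega⟩
  let k' := CyclotomicField (3 * m) k
  have hζ := IsCyclotomicExtension.zeta_spec (3 * m) k k'
  let ι : 𝓞 k →+* 𝓞 k' := RingOfIntegers.mapRingHom (algebraMap k k')
  have hι : ∀ x, algebraMap (𝓞 k') k' (ι x) = algebraMap k k' (algebraMap (𝓞 k) k x) := by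
    intro x
    rfl
  set D : ℕ := 2 * (2 * (3 * m + 2) ^ (3 * m + 2)) with hD
  have hD1 : 1 ≤ D := by
    rw [hD]
    have : 1 ≤ (3 * m + 2) ^ (3 * m + 2) := Nat.one_le_pow _ _ (by omega)
    omega
  have hD1' : (1 : ℝ) ≤ (D : ℝ) := by exact_mod_cast hD1
  obtain ⟨H0, hH0⟩ := densG_one B (I := Fin (m + 1)) ι (δ := 1 / (D : ℝ))
    (by positivity) (by rw [div_le_one (by positivity)]; exact hD1')
    (C0 + N + 6 * (3 * m) + 7)
    (fun p _ σ => {c : Fin (m + 1) → ZMod p | Nice m (red (σ.comp ι) α) (pol c)}) (by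
      intro p _ σ hp
      have hpp : p.Prime := Fact.out
      have h1 : 3 * m ∣ p - 1 := prim_red (by omega) hζ σ (by omega)
      have h2 : ((6 * (3 * m - 1) : ℕ) : ZMod p) ≠ 0 := by
        rw [Ne, ZMod.natCast_eq_zero_iff]
        exact Nat.not_dvd_of_pos_of_lt (by omega) (by omega)
      have h3 := hC0 (ZMod p) (by rw [ZMod.card]; exact h1) h2 (by rw [ZMod.card]; omega)
        (red (σ.comp ι) α) (hN p (σ.comp ι) (by omega))
      rw [ZMod.card] at h3
      rw [Fintype.card_fin, div_mul_eq_mul_div, one_mul, div_le_iff₀ (by positivity), mul_comm]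
      exact_mod_cast h3) hη
  refine ⟨H0, fun H hH => le_trans ?_ ((hH0 H hH).trans (by rw [Fintype.card_fin]))⟩
  refine Nat.cast_le.2 (Set.ncard_le_ncard ?_ ?_)
  · rintro c ⟨h1, h2⟩
    refine ⟨h1, ?_⟩
    intro p _ σ _ h3
    exact h2 (nice_of ι hι σ hm h3)
  · have h1 : (Set.pi Set.univ fun _ : Fin (m + 1) × J => Set.Icc (-(H : ℤ)) H).Finite :=
      Set.Finite.pi fun _ => Set.finite_Icc _ _
    let ψ : (Fin (m + 1) → 𝓞 k) → (Fin (m + 1) × J → ℤ) := fun c q => B.repr (c q.1) q.2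
    have hψ : Function.Injective ψ := by
      intro c d hcd
      funext i
      apply B.repr.injective
      ext j
      exact congrFun hcd (i, j)
    refine (h1.preimage hψ.injOn).subset ?_
    rintro c ⟨hc, -⟩ q _
    exact abs_le.1 (hc q.1 q.2)

end nf

/-- No root. -/
theorem noroot' {k : Type} [Field k] {α : k} {b : k[X]} {Q : k[X]}
    (h : ∀ w : k[X], ¬ Q ∣ e3 α b - w ^ 2) (z : k[X]) : ¬ Q ∣ z ^ 2 + b * z + b ^ 2 + C α := by
  intro hd
  apply h (2 * z + b)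
  have : e3 α b - (2 * z + b) ^ 2 = -4 * (z ^ 2 + b * z + b ^ 2 + C α) := by
    unfold e3
    ring
  rw [this]
  exact Dvd.dvd.mul_left hd _

/-- Over the tame extensions. -/
theorem nice_ext {k : Type} [Field k] [PerfectField k] {m : ℕ} (hm : 1 ≤ m) {α : k} {b : k[X]}
    (h : Nice m α b) (k' : Type) [Field k'] [Algebra k k'] (hc : Tame (6 * m) k k') :
    Irreducible (Q3 (algebraMap k k' α) (b.map (algebraMap k k'))) ∧
    ∀ z : k'[X], ¬ Q3 (algebraMap k k' α) (b.map (algebraMap k k')) ∣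
      z ^ 2 + b.map (algebraMap k k') * z + b.map (algebraMap k k') ^ 2 + C (algebraMap k k' α) := by
  have hQd : (Q3 α b).natDegree = 3 * m := by
    rw [Q3_deg (by rw [h.deg]; exact hm), h.deg]
  have hc2 : 2 * (Q3 α b).natDegree ∣ 6 * m := by
    rw [hQd]
    have : 2 * (3 * m) = 6 * m := by ring
    rw [this]
  have h7 := irr_tame hc h.irr (Dvd.dvd.trans (Dvd.intro_left 2 rfl) hc2)
  have h8 := nosq_tame hc h.irr hc2 h.nosq
  rw [Q3_map] at h7 h8
  rw [e3_map] at h8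
  exact ⟨h7, noroot' h8⟩

end Run7.h905.DK
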