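import Pool.Agent.Run7.h905.DK.Dj

/-!
# Dickson pencils over fields containing only the sum of the root of unity and its inverse
-/

open Polynomial IsDedekindDomain
open scoped Classical nonZeroDivisors

set_option autoImplicit false
set_option linter.all false
set_option maxHeartbeats 400000

namespace Run7.h905.DK

open Run7.h905.BS
open Pool.Agent.Y713.Jac (J CoordRing)
open Pool.Agent.N352.Sha (ShaTrivial)
open Pool.Agent.Results.MP_60d5ce_nt.TwistsByPrimes

/-- `c = ζ + ζ⁻¹` for a primitive `n`-th root of unity `ζ`. -/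
def IsCos {k : Type} [Field k] (n : ℕ) (c : k) : Prop := X ^ 2 - C c * X + 1 ∣ cyclotomic n k

/-- `D_j(c, 1)` -/
noncomputable def cc {R : Type} [CommRing R] (c : R) (j : ℕ) : R := (dickson 1 (1 : R) j).eval c

theorem cc_map {R S : Type} [CommRing R] [CommRing S] (φ : R →+* S) (c : R) (j : ℕ) :
    φ (cc c j) = cc (φ c) j := by
  unfold cc
  rw [← eval_map_apply, map_dickson, map_one]

theorem cos_map {k k' : Type} [Field k] [Field k'] (φ : k →+* k') {n : ℕ} {c : k} (h : IsCos n c) :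
    IsCos n (φ c) := by
  unfold IsCos at h ⊢
  have h1 := Polynomial.map_dvd φ h
  rwa [map_cyclotomic, Polynomial.map_add, Polynomial.map_sub, Polynomial.map_mul,
    Polynomial.map_pow, map_X, map_C, Polynomial.map_one] at h1

/-- The root of unity over an algebraically closed field. -/
theorem cos_root {L : Type} [Field L] [IsAlgClosed L] {n : ℕ} (hn : (n : L) ≠ 0) {c : L}
    (h : IsCos n c) : ∃ ζ : L, IsPrimitiveRoot ζ n ∧ ζ + ζ⁻¹ = c ∧ ζ ≠ 0 := by
  obtain ⟨u, hu⟩ : ∃ u : L, eval u (X ^ 2 - C c * X + 1) = 0 := by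
    refine IsAlgClosed.exists_root _ ?_
    have : (X ^ 2 - C c * X + 1 : L[X]).degree = 2 := by
      compute_degree!
    rw [this]
    norm_num
  have h1 : (cyclotomic n L).IsRoot u := IsRoot.dvd hu h
  haveI : NeZero (n : L) := ⟨hn⟩
  rw [isRoot_cyclotomic_iff] at h1
  rw [eval_add, eval_sub, eval_pow, eval_X, eval_mul, eval_C, eval_X, eval_one] at hu
  have hu0 : u ≠ 0 := by
    rintro rfl
    rw [zero_pow two_ne_zero, mul_zero, sub_zero, zero_add] at hu
    exact one_ne_zero hu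
  refine ⟨u, h1, ?_, hu0⟩
  apply mul_left_cancel₀ hu0
  rw [mul_add, mul_inv_cancel₀ hu0]
  linear_combination hu

theorem cc_eq {L : Type} [Field L] {g : ℕ} {ζ : L} (hζ : IsPrimitiveRoot ζ (2 * g + 1)) {j : ℕ}
    (hj : j < g) : cc (ζ + ζ⁻¹) (j + 1) = cj ζ (2 * g + 1) (j + 1) := by
  have hζ0 : ζ ≠ 0 := hζ.ne_zero (by omega)
  have h1 := (D_eval (z := ζ) (w := ζ⁻¹) (δ := 1) (mul_inv_cancel₀ hζ0) (j + 1)).1
  have h2 : ζ⁻¹ ^ (j + 1) = ζ ^ (2 * g + 1 - (j + 1)) := by
    rw [inv_pow]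
    apply inv_eq_of_mul_eq_one_right
    rw [← pow_add, Nat.add_sub_cancel' (by omega), hζ.pow_eq_one]
  rw [h2] at h1
  exact h1

section fac

variable {k : Type} [Field k] {g : ℕ} {c δ : k} {b : k[X]}

/-- The factors. -/
noncomputable def hC (c δ : k) (b : k[X]) (g : ℕ) : Fin (g + 1) → k[X][X] :=
  Fin.cons (X - C b) fun j : Fin g => X ^ 2 - C (C (cc c (j + 1)) * b) * X +
    C (b ^ 2 + C (δ * (cc c (j + 1) ^ 2 - 4)))

theorem hC_zero : hC c δ b g 0 = X - C b := rfl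

theorem hC_succ (j : Fin g) : hC c δ b g j.succ = X ^ 2 - C (C (cc c (j + 1)) * b) * X +
    C (b ^ 2 + C (δ * (cc c (j + 1) ^ 2 - 4))) := rfl

theorem hC_map {L : Type} [Field L] (φ : k →+* L) {ζ : L} (hζ : IsPrimitiveRoot ζ (2 * g + 1))
    (hc : ζ + ζ⁻¹ = φ c) (j : Fin (g + 1)) :
    (hC c δ b g j).map (mapRingHom φ) = hD ζ (φ δ) (b.map φ) g j := by
  refine Fin.cases ?_ (fun j => ?_) j
  · rw [hC_zero, hD_zero, Polynomial.map_sub, map_X, map_C]
    rfl
  · rw [hC_succ, hD_succ, ← cc_eq hζ j.2, hc, ← cc_map]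
    simp only [Polynomial.map_add, Polynomial.map_sub, Polynomial.map_mul, Polynomial.map_pow, map_X,
      map_C, coe_mapRingHom, map_mul, map_sub, map_pow, map_ofNat, Polynomial.map_ofNat]

theorem hC_prod (hn : ((2 * g + 1 : ℕ) : k) ≠ 0) (hc : IsCos (2 * g + 1) c) (hδ : δ ≠ 0) :
    fa (D δ (2 * g + 1)) - C (QD δ (2 * g + 1) b) = ∏ j, hC c δ b g j := by
  let φ := algebraMap k (AlgebraicClosure k)
  have hn' : ((2 * g + 1 : ℕ) : AlgebraicClosure k) ≠ 0 := by
    rw [← map_natCast φ]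
    exact (map_ne_zero φ).2 hn
  obtain ⟨ζ, hζ, hζc, -⟩ := cos_root hn' (cos_map φ hc)
  apply map_injective (mapRingHom φ) (map_injective φ φ.injective)
  rw [Polynomial.map_prod]
  simp only [hC_map φ hζ hζc]
  rw [← hD_prod hζ ((map_ne_zero φ).2 hδ), Polynomial.map_sub, map_C, coe_mapRingHom, QD_map]
  congr 1
  unfold fa
  rw [Polynomial.map_sub, map_C, coe_mapRingHom, map_X, ← D_map φ, Polynomial.map_map,
    Polynomial.map_map]
  congr 2
  ext x
  simp

theorem hC_monic (j : Fin (g + 1)) : (hC c δ b g j).Monic := by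
  refine Fin.cases ?_ (fun j => ?_) j
  · rw [hC_zero]
    exact monic_X_sub_C _
  · rw [hC_succ]
    exact quad_monic _ _

theorem cc_inj (hn : ((2 * g + 1 : ℕ) : k) ≠ 0) (hc : IsCos (2 * g + 1) c) {i j : ℕ} (hi : i < g)
    (hj : j < g) (h : cc c (i + 1) = cc c (j + 1)) : i = j := by
  let φ := algebraMap k (AlgebraicClosure k)
  have hn' : ((2 * g + 1 : ℕ) : AlgebraicClosure k) ≠ 0 := by
    rw [← map_natCast φ]
    exact (map_ne_zero φ).2 hn
  obtain ⟨ζ, hζ, hζc, -⟩ := cos_root hn' (cos_map φ hc)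
  apply cj_inj hζ hi hj
  rw [← cc_eq hζ hi, ← cc_eq hζ hj, hζc, ← cc_map, ← cc_map, h]

variable [PerfectField k]

theorem liftC (h2 : (2 : k) ≠ 0) (hn : ((2 * g + 1 : ℕ) : k) ≠ 0) (hg : 1 ≤ g)
    (hc : IsCos (2 * g + 1) c) (hδ : δ ≠ 0)
    (hb : 1 ≤ b.natDegree) (hQ : Irreducible (QD δ (2 * g + 1) b))
    (hns : ∀ j : Fin g, ∀ w : k[X], ¬ QD δ (2 * g + 1) b ∣
      C (cc c (j + 1) ^ 2 - 4) * (b ^ 2 - C (4 * δ)) - w ^ 2) :
    LiftQ (fa (D δ (2 * g + 1))) (QD δ (2 * g + 1) b) (hC c δ b g) := by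
  haveI : Fact (Irreducible (QD δ (2 * g + 1) b)) := ⟨hQ⟩
  set Q := QD δ (2 * g + 1) b with hQd
  have hnm : 1 < (2 * g + 1) * b.natDegree := by nlinarith
  have hb0 : AdjoinRoot.mk Q b ≠ 0 := by
    rw [Ne, AdjoinRoot.mk_eq_zero]
    intro h
    have hb1 : b ≠ 0 := by
      rintro rfl
      rw [natDegree_zero] at hb
      omega
    have h3 := natDegree_le_of_dvd h hb1
    rw [hQd, QD_deg (by omega) rfl hnm] at h3
    nlinarith
  have hmap : ∀ j : Fin g, (hC c δ b g j.succ).map (AdjoinRoot.mk Q) =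
      X ^ 2 - C (AdjoinRoot.mk Q (C (cc c (j + 1)) * b)) * X +
        C (AdjoinRoot.mk Q (b ^ 2 + C (δ * (cc c (j + 1) ^ 2 - 4)))) := by
    intro j
    rw [hC_succ]
    simp only [Polynomial.map_add, Polynomial.map_sub, Polynomial.map_mul, Polynomial.map_pow, map_X,
      map_C]
  refine ⟨hC_monic, ?_, ?_, ?_⟩
  · intro j
    refine Fin.cases ?_ (fun j => ?_) j
    · rw [hC_zero, Polynomial.map_sub, map_X, map_C]
      exact irreducible_X_sub_C _
    · rw [hmap]
      refine irreducible_of_degree_le_three_of_not_isRoot ?_ ?_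
      · rw [quad_deg]
        decide
      · intro x hx
        rw [IsRoot.def, eval_add, eval_sub, eval_pow, eval_X, eval_mul, eval_C, eval_X, eval_C,
          map_mul, map_add, map_pow, C_mul, map_mul] at hx
        set a := cc c ((j : ℕ) + 1) with ha
        obtain ⟨w, hw⟩ := AdjoinRoot.mk_surjective (g := Q)
          (2 * x - AdjoinRoot.mk Q (C a) * AdjoinRoot.mk Q b)
        apply hns j w
        have e4 : AdjoinRoot.mk Q (C (a ^ 2 - 4)) = AdjoinRoot.mk Q (C a) ^ 2 - 4 := by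
          rw [C_sub, C_pow, C_ofNat, map_sub, map_pow, map_ofNat]
        have e5 : AdjoinRoot.mk Q (C (4 * δ)) = 4 * AdjoinRoot.mk Q (C δ) := by
          rw [C_mul, C_ofNat, map_mul, map_ofNat]
        rw [← AdjoinRoot.mk_eq_zero, ← ha, map_sub (AdjoinRoot.mk Q), map_mul (AdjoinRoot.mk Q),
          map_sub (AdjoinRoot.mk Q), map_pow (AdjoinRoot.mk Q), map_pow (AdjoinRoot.mk Q), hw, e4, e5]
        rw [e4] at hx
        linear_combination (-4) * hx
  · intro i j hij
    replace hij : (hC c δ b g i).map (AdjoinRoot.mk Q) = (hC c δ b g j).map (AdjoinRoot.mk Q) := hij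
    revert hij
    refine Fin.cases ?_ (fun i => ?_) i
    · refine Fin.cases (fun _ => rfl) (fun j hij => ?_) j
      exfalso
      rw [hC_zero, hmap, Polynomial.map_sub, map_X, map_C] at hij
      have h3 := congrArg natDegree hij
      rw [quad_deg, natDegree_X_sub_C] at h3
      omega
    · refine Fin.cases (fun hij => ?_) (fun j hij => ?_) j
      · exfalso
        rw [hC_zero, hmap, Polynomial.map_sub, map_X, map_C] at hij
        have h3 := congrArg natDegree hij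
        rw [quad_deg, natDegree_X_sub_C] at h3
        omega
      · rw [hmap, hmap] at hij
        have h3 := congrArg (fun p => p.coeff 1) hij
        simp only [coeff_add, coeff_sub, coeff_X_pow, coeff_C_mul, coeff_X_one, coeff_C, mul_one,
          map_mul] at h3
        norm_num at h3
        rcases h3 with h3 | h3
        · have h4 : AdjoinRoot.of Q (cc c (i + 1)) = AdjoinRoot.of Q (cc c (j + 1)) := h3
          have h5 := (AdjoinRoot.of Q).injective h4
          have h6 := cc_inj hn hc i.2 j.2 h5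
          rw [Fin.ext h6]
        · exact absurd (AdjoinRoot.mk_eq_zero.2 h3) hb0
  · have h3 := congrArg (fun p => p.map (AdjoinRoot.mk Q)) (hC_prod (b := b) hn hc hδ)
    simp only [Polynomial.map_sub, map_C, Polynomial.map_prod] at h3
    rw [← h3, ← hQd, AdjoinRoot.mk_self, C_0, sub_zero]

theorem hC_dvd (hn : ((2 * g + 1 : ℕ) : k) ≠ 0) (hc : IsCos (2 * g + 1) c) (hδ : δ ≠ 0)
    (j : Fin (g + 1)) :
    hC c δ b g j ∣ fa (D δ (2 * g + 1)) - C (QD δ (2 * g + 1) b) * (1 : k[X][X]) ^ 2 := by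
  rw [one_pow, mul_one, hC_prod hn hc hδ]
  exact Finset.dvd_prod_of_mem _ (Finset.mem_univ j)

end fac

section crit

variable {k : Type} (K : Type) [Field k] [PerfectField k] [Field K] [Algebra k[X] K]
  [IsFractionRing k[X] K] {g : ℕ} {c δ : k} {b : k[X]}

/-- **The criterion for the Dickson polynomials.** -/
theorem critC (h2 : (2 : k) ≠ 0) (hn : ((2 * g + 1 : ℕ) : k) ≠ 0) (hg : 1 ≤ g)
    (hc : IsCos (2 * g + 1) c) (hδ : δ ≠ 0)
    (hb : 1 ≤ b.natDegree) (hQ : Irreducible (QD δ (2 * g + 1) b))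
    (hns : ∀ j : Fin g, ∀ w : k[X], ¬ QD δ (2 * g + 1) b ∣
      C (cc c (j + 1) ^ 2 - 4) * (b ^ 2 - C (4 * δ)) - w ^ 2) :
    (∃ P : Fin (g + 1) → J 2 (twist K (fa (D δ (2 * g + 1))) (QD δ (2 * g + 1) b)) K,
      (∀ j, IsPoint K (fa (D δ (2 * g + 1))) (QD δ (2 * g + 1) b) (hC c δ b g j) 1 (P j)) ∧
      OnlyRelation P Finset.univ ∧ GenerateModSquares P Finset.univ) ∧
    RankIs (twist K (fa (D δ (2 * g + 1))) (QD δ (2 * g + 1) b)) g ∧
    ShaTrivial 2 (twist K (fa (D δ (2 * g + 1))) (QD δ (2 * g + 1) b)) k[X] := by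
  have hn0 : 2 * g + 1 ≠ 0 := by omega
  have hf : OddCurve (fa (D δ (2 * g + 1))) := line_odd (D_monic δ hn0)
    (by rw [D_deg δ hn0]; exact ⟨g, rfl⟩)
  have hF := liftC h2 hn hg hc hδ hb hQ hns
  have hF' : SplitsMod (fa (D δ (2 * g + 1))) (QD δ (2 * g + 1) b) (hC c δ b g) :=
    ⟨hF.mon, hF.irr, hF.dist, hF.prod⟩
  obtain ⟨P, hP, hrel, hgen⟩ := points K h2 hf hQ hF' (by omega) Finset.univ (fun _ => 1)
    (fun j _ => hC_dvd hn hc hδ j)
  obtain ⟨h4, h5, h6⟩ := hgen (by simp)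
  exact ⟨⟨P, fun j => hP j (Finset.mem_univ j), hrel, h4⟩, h5, h6⟩

end crit

end Run7.h905.DK
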