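import Pool.Agent.Run7.h905.DK.Ds
import Pool.Agent.Run7.h905.DK.Dm
import Pool.Agent.Run7.h905.DK.Dr

/-!
# Almost all Dickson pencils over number fields
-/

open Polynomial NumberField
open scoped Classical

set_option autoImplicit false
set_option linter.all false
set_option maxHeartbeats 400000

namespace Run7.h905.DK

open Pool.Agent.R431.SG

section cr

variable {R S : Type} [CommRing R] [CommRing S] (φ : R →+* S)

/-- `A ^ n (D_n(b, δ) - t)`, `A δ = δ₀` -/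
noncomputable def q0 (A δ₀ : R) (n : ℕ) (b : R[X]) : R[X] :=
  (D (A * δ₀) n).comp (C A * b) - C (A ^ n) * X

/-- `A ^ 2 (b ^ 2 - 4 δ)` -/
noncomputable def e0 (A δ₀ : R) (b : R[X]) : R[X] := (C A * b) ^ 2 - C (4 * (A * δ₀))

theorem q0_map (A δ₀ : R) (n : ℕ) (b : R[X]) :
    (q0 A δ₀ n b).map φ = q0 (φ A) (φ δ₀) n (b.map φ) := by
  unfold q0
  rw [Polynomial.map_sub, Polynomial.map_comp, D_map, Polynomial.map_mul, Polynomial.map_mul, map_C,
    map_C, map_X, map_mul, map_pow]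

theorem e0_map (A δ₀ : R) (b : R[X]) : (e0 A δ₀ b).map φ = e0 (φ A) (φ δ₀) (b.map φ) := by
  unfold e0
  rw [Polynomial.map_sub, Polynomial.map_pow, Polynomial.map_mul, map_C, map_C, map_mul φ, map_mul φ,
    map_ofNat φ]

theorem D_scale (A δ : R) (n : ℕ) : (D (A ^ 2 * δ) n).comp (C A * X) = C (A ^ n) * D δ n ∧
    (D (A ^ 2 * δ) (n + 1)).comp (C A * X) = C (A ^ (n + 1)) * D δ (n + 1) := by
  induction n with
  | zero =>
    rw [zero_add, D_zero, D_zero, D_one, D_one, X_comp, pow_zero, pow_one, C_1, one_mul, ofNat_comp]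
    exact ⟨rfl, rfl⟩
  | succ n ih =>
    refine ⟨ih.2, ?_⟩
    rw [D_rec, sub_comp, mul_comp, mul_comp, X_comp, C_comp, ih.1, ih.2, D_rec]
    simp only [C_mul, C_pow]
    ring

theorem q0_eq {A δ δ₀ : R} (h : δ₀ = A * δ) (n : ℕ) (b : R[X]) :
    q0 A δ₀ n b = C (A ^ n) * ((D δ n).comp b - X) := by
  have h1 : (D (A ^ 2 * δ) n).comp (C A * b) = C (A ^ n) * (D δ n).comp b := by
    have h2 := congrArg (fun p => p.comp b) (D_scale A δ n).1
    simpa only [comp_assoc, mul_comp, C_comp, X_comp] using h2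
  unfold q0
  have e : A * δ₀ = A ^ 2 * δ := by
    rw [h]
    ring
  rw [e, h1]
  ring

theorem e0_eq {A δ δ₀ : R} (h : δ₀ = A * δ) (b : R[X]) :
    e0 A δ₀ b = C (A ^ 2) * (b ^ 2 - C (4 * δ)) := by
  unfold e0
  rw [h]
  simp only [C_mul, C_pow]
  ring

theorem q0_le {A δ₀ : R} {b : R[X]} {n m : ℕ} (hn : 1 ≤ n) (hm : 1 ≤ m) (hb : b.natDegree ≤ m) :
    (q0 A δ₀ n b).natDegree ≤ n * m := by
  unfold q0
  have h1 : (D (A * δ₀) n).natDegree ≤ n := by
    rcases subsingleton_or_nontrivial R with h | h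
    · rw [Subsingleton.elim (D (A * δ₀) n) 0, natDegree_zero]
      exact Nat.zero_le _
    · exact (D_deg _ (by omega)).le
  have h2 : 1 ≤ n * m := Nat.mul_pos hn hm
  refine (natDegree_sub_le _ _).trans (max_le ?_ ?_)
  · refine natDegree_comp_le.trans (Nat.mul_le_mul h1 ?_)
    exact (natDegree_C_mul_le _ _).trans hb
  · exact (natDegree_C_mul_le _ _).trans (natDegree_X_le.trans h2)

end cr

/-- The good polynomials. -/
structure NiceD {k : Type} [Field k] (n m : ℕ) (δ : k) (b : k[X]) : Prop where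
  deg : b.natDegree = m
  irr : Irreducible (QD δ n b)
  nosq : ∀ w : k[X], ¬ QD δ n b ∣ b ^ 2 - C (4 * δ) - w ^ 2

/-- The good polynomials, without the roots of unity. -/
structure NiceC {k : Type} [Field k] (g m : ℕ) (c δ : k) (b : k[X]) : Prop where
  deg : b.natDegree = m
  irr : Irreducible (QD δ (2 * g + 1) b)
  nosq : ∀ j : Fin g, ∀ w : k[X], ¬ QD δ (2 * g + 1) b ∣
    C (cc c (j + 1) ^ 2 - 4) * (b ^ 2 - C (4 * δ)) - w ^ 2

/-- Counting over the finite fields. -/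
theorem countD (n m : ℕ) (hn : 3 ≤ n) (hm : 1 ≤ m) : ∃ C0 : ℕ, ∀ (F : Type) [Field F] [Fintype F],
    n * m ∣ Fintype.card F - 1 → ((2 * (n * m - 1) : ℕ) : F) ≠ 0 → C0 < Fintype.card F →
    ∀ δ : F, δ ≠ 0 → Fintype.card F ^ (m + 1) ≤ 2 * (2 * (n * m + 2) ^ (n * m + 2)) *
      {c : Fin (m + 1) → F | NiceD n m δ (pol c)}.ncard := by
  have hnm : 3 ≤ n * m := by nlinarith
  obtain ⟨C0, hC0⟩ := pencil n m hnm
  refine ⟨max C0 (2 * (n * m + 1 + 1)), ?_⟩
  intro F _ _ hdiv h6 hcard δ hδ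
  have hc0 : C0 < Nat.card F := by
    rw [Nat.card_eq_fintype_card]
    exact lt_of_le_of_lt (le_max_left _ _) hcard
  have hc1 : 2 * (n * m + 1 + 1) ≤ Fintype.card F :=
    le_of_lt (lt_of_le_of_lt (le_max_right _ _) hcard)
  rw [Nat.cast_mul] at h6
  have h2 : (2 : F) ≠ 0 := by
    have := left_ne_zero_of_mul h6
    exact_mod_cast this
  have h6'' : ((n * m - 1 : ℕ) : F) ≠ 0 := right_ne_zero_of_mul h6
  obtain ⟨ω, hω⟩ := exists_prim (k := F) (n := n * m) (by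
    rw [Nat.card_eq_fintype_card]
    exact hdiv)
  have he : (4 * δ : F) ≠ 0 := by
    have h4 : (4 : F) ≠ 0 := by
      have : (4 : F) = 2 ^ 2 := by norm_num
      rw [this]
      exact pow_ne_zero _ h2
    exact mul_ne_zero h4 hδ
  have hn0 : n ≠ 0 := by omega
  refine all_of_pencils {b : F[X] | NiceD n m δ b} (2 * (n * m + 2) ^ (n * m + 2)) (n * m + 1) hc1 ?_
  intro b hb
  obtain ⟨bad, hbad1, hbad2⟩ := hC0 F h2 ω hω h6'' (D δ n) (D_monic δ hn0) (D_deg δ hn0) _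
    he b hb
  refine ⟨bad, hbad1, ?_⟩
  intro l hl
  obtain ⟨hl0, hl1⟩ := hbad2 hc0 l hl
  rw [Nat.card_eq_fintype_card] at hl1
  refine hl1.trans (Nat.mul_le_mul_left _ (Set.ncard_le_ncard ?_ (Set.toFinite _)))
  rintro μ ⟨h4, h5⟩
  refine ⟨?_, h4, h5⟩
  rw [natDegree_add_C, natDegree_C_mul hl0, hb]

section nf

variable {k : Type} [Field k] [NumberField k]

/-- From the extension containing the root of unity. -/
theorem niceC_of {k k' : Type} [Field k] [Field k'] (φ : k →+* k') {g m : ℕ} {c δ : k} {b : k[X]}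
    (hn : ((2 * g + 1 : ℕ) : k') ≠ 0) (hc : IsCos (2 * g + 1) c) {ω : k'}
    (hω : IsPrimitiveRoot ω (2 * g + 1)) (h : NiceD (2 * g + 1) m (φ δ) (b.map φ)) :
    NiceC g m c δ b := by
  have hirr := h.irr
  rw [← QD_map] at hirr
  refine ⟨?_, irr_of_map _ hirr, ?_⟩
  · rw [← h.deg, natDegree_map]
  · intro j w hw
    -- the root of unity in `k'`
    let ψ := algebraMap k' (AlgebraicClosure k')
    have hn' : ((2 * g + 1 : ℕ) : AlgebraicClosure k') ≠ 0 := by
      rw [← map_natCast ψ]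
      exact (map_ne_zero ψ).2 hn
    obtain ⟨u, hu, huc, -⟩ := cos_root hn' (cos_map ψ (cos_map φ hc))
    haveI : NeZero (2 * g + 1) := ⟨by omega⟩
    obtain ⟨i, -, hi⟩ := (hω.map_of_injective ψ.injective).eq_pow_of_pow_eq_one hu.pow_eq_one
    rw [← map_pow] at hi
    set ζ := ω ^ i with hζd
    have hζ : IsPrimitiveRoot ζ (2 * g + 1) := by
      rw [← hi] at hu
      exact hu.of_map_of_injective ψ.injective
    have hζc : ζ + ζ⁻¹ = φ c := by
      apply ψ.injective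
      rw [map_add, map_inv₀, hi, huc]
    obtain ⟨e, he0, he⟩ := cj_sq hζ j.2
    rw [← cc_eq hζ j.2, hζc, ← cc_map] at he
    have h1 := Polynomial.map_dvd φ hw
    rw [QD_map, Polynomial.map_sub, Polynomial.map_mul, map_C, map_sub, map_pow, map_ofNat, he,
      Polynomial.map_sub, Polynomial.map_pow, Polynomial.map_pow, map_C, map_mul, map_ofNat] at h1
    apply h.nosq (C e⁻¹ * w.map φ)
    have h2 : b.map φ ^ 2 - C (4 * φ δ) - (C e⁻¹ * w.map φ) ^ 2 =
        C (e⁻¹ ^ 2) * (C (e ^ 2) * (b.map φ ^ 2 - C (4 * φ δ)) - w.map φ ^ 2) := by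
      have h3 : (C (e⁻¹ ^ 2) * C (e ^ 2) : k'[X]) = 1 := by
        rw [← C_mul, ← mul_pow, inv_mul_cancel₀ he0, one_pow, C_1]
      rw [mul_sub, ← mul_assoc, h3, one_mul, mul_pow, C_pow]
    rw [h2]
    exact Dvd.dvd.mul_left h1 _

/-- From the reduction to the extension `k'`. -/
theorem niceD_of {k' : Type} [Field k'] [NumberField k'] [Algebra k k'] {p : ℕ} [Fact p.Prime]
    (ι : 𝓞 k →+* 𝓞 k') (hι : ∀ x, algebraMap (𝓞 k') k' (ι x) =
      algebraMap k k' (algebraMap (𝓞 k) k x)) (σ : 𝓞 k' →+* ℤ_[p]) {n m : ℕ} (hn : 3 ≤ n)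
    (hm : 1 ≤ m) {A δ₀ : 𝓞 k} {δ : k} (hA : A ≠ 0) (hδ : algebraMap (𝓞 k) k δ₀ =
      algebraMap (𝓞 k) k A * δ)
    {δ' : ZMod p} (hA' : red (σ.comp ι) A ≠ 0) (hδ' : red (σ.comp ι) δ₀ = red (σ.comp ι) A * δ')
    {c : Fin (m + 1) → 𝓞 k} (h : NiceD n m δ' (pol fun i => red (σ.comp ι) (c i))) :
    NiceD n m (algebraMap k k' δ) (((pol c).map (algebraMap (𝓞 k) k)).map (algebraMap k k')) := by
  set b := pol c with hb
  have hbm : (pol fun i => red (σ.comp ι) (c i)) = b.map (red (σ.comp ι)) := by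
    rw [hb, pol_map]
  rw [hbm] at h
  have hbd : b.natDegree ≤ m := pol_degree c
  have hbd2 : b.natDegree = m := by
    apply le_antisymm hbd
    rw [← h.deg]
    exact natDegree_map_le
  have hred : ∀ f : (𝓞 k)[X], f.map (red (σ.comp ι)) = (f.map ι).map (red σ) := by
    intro f
    rw [Polynomial.map_map]
    rfl
  have hu : IsUnit (C (red (σ.comp ι) A ^ n)) := isUnit_C.2 (isUnit_iff_ne_zero.2 (pow_ne_zero _ hA'))
  have hQ1 : (q0 (ι A) (ι δ₀) n (b.map ι)).map (red σ) =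
      C (red (σ.comp ι) A ^ n) * QD δ' n (b.map (red (σ.comp ι))) := by
    rw [q0_map, ← hred]
    exact q0_eq hδ' n _
  have hE1 : (e0 (ι A) (ι δ₀) (b.map ι)).map (red σ) =
      C (red (σ.comp ι) A ^ 2) * (b.map (red (σ.comp ι)) ^ 2 - C (4 * δ')) := by
    rw [e0_map, ← hred]
    exact e0_eq hδ' _
  have hnm : 1 < n * m := by nlinarith
  have hdeg : ((q0 (ι A) (ι δ₀) n (b.map ι)).map (red σ)).natDegree = n * m := by
    rw [hQ1, natDegree_C_mul (pow_ne_zero _ hA'), QD_deg (by omega) h.deg hnm]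
  obtain ⟨h1, h2⟩ := transfer σ (Q := q0 (ι A) (ι δ₀) n (b.map ι)) (e := e0 (ι A) (ι δ₀) (b.map ι))
    (n := n * m) (q0_le (by omega) hm (natDegree_map_le.trans hbd)) hdeg (by omega) (by
      rw [hQ1]
      exact (irreducible_isUnit_mul hu).2 h.irr) (by
      intro w hw
      rw [hQ1, hE1] at hw
      have h3 : QD δ' n (b.map (red (σ.comp ι))) ∣ C (red (σ.comp ι) A ^ 2) *
          (b.map (red (σ.comp ι)) ^ 2 - C (4 * δ')) - w ^ 2 := (dvd_mul_left _ _).trans hw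
      apply h.nosq (C (red (σ.comp ι) A)⁻¹ * w)
      set a := red (σ.comp ι) A
      have h4 : b.map (red (σ.comp ι)) ^ 2 - C (4 * δ') - (C a⁻¹ * w) ^ 2 =
          C (a⁻¹ ^ 2) * (C (a ^ 2) * (b.map (red (σ.comp ι)) ^ 2 - C (4 * δ')) - w ^ 2) := by
        have h5 : (C (a⁻¹ ^ 2) * C (a ^ 2) : (ZMod p)[X]) = 1 := by
          rw [← C_mul, ← mul_pow, inv_mul_cancel₀ hA', one_pow, C_1]
        rw [mul_sub, ← mul_assoc, h5, one_mul, mul_pow, C_pow]
      rw [h4]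
      exact Dvd.dvd.mul_left h3 _)
  have hmm : (b.map ι).map (algebraMap (𝓞 k') k') =
      (b.map (algebraMap (𝓞 k) k)).map (algebraMap k k') := by
    rw [Polynomial.map_map, Polynomial.map_map]
    congr 1
    ext x
    exact hι x
  set A' := algebraMap (𝓞 k') k' (ι A) with hA'd
  have hA0 : A' ≠ 0 := by
    rw [hA'd, hι]
    refine (map_ne_zero (algebraMap k k')).2 ?_
    intro h0
    exact hA (RingOfIntegers.coe_injective (by rw [h0, map_zero]))
  have hδk : algebraMap (𝓞 k') k' (ι δ₀) = A' * algebraMap k k' δ := by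
    rw [hA'd, hι, hι, hδ, map_mul]
  have hu' : IsUnit (C (A' ^ n)) := isUnit_C.2 (isUnit_iff_ne_zero.2 (pow_ne_zero _ hA0))
  have hQ2 : (q0 (ι A) (ι δ₀) n (b.map ι)).map (algebraMap (𝓞 k') k') =
      C (A' ^ n) * QD (algebraMap k k' δ) n ((b.map (algebraMap (𝓞 k) k)).map (algebraMap k k')) := by
    rw [q0_map, hmm]
    exact q0_eq hδk n _
  have hE2 : (e0 (ι A) (ι δ₀) (b.map ι)).map (algebraMap (𝓞 k') k') =
      C (A' ^ 2) * (((b.map (algebraMap (𝓞 k) k)).map (algebraMap k k')) ^ 2 -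
        C (4 * algebraMap k k' δ)) := by
    rw [e0_map, hmm]
    exact e0_eq hδk _
  rw [hQ2] at h1 h2
  rw [hE2] at h2
  refine ⟨?_, (irreducible_isUnit_mul hu').1 h1, ?_⟩
  · rw [natDegree_map, natDegree_map_eq_of_injective RingOfIntegers.coe_injective, hbd2]
  · intro w hw
    apply h2 (C A' * w)
    set Bk := (b.map (algebraMap (𝓞 k) k)).map (algebraMap k k')
    have h4 : C (A' ^ 2) * (Bk ^ 2 - C (4 * algebraMap k k' δ)) - (C A' * w) ^ 2 =
        C (A' ^ 2) * (Bk ^ 2 - C (4 * algebraMap k k' δ) - w ^ 2) := by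
      rw [C_pow]
      ring
    rw [h4]
    obtain ⟨r, hr⟩ := hw
    rw [hr, ← mul_assoc, mul_comm (C (A' ^ 2)), mul_assoc]
    obtain ⟨v, hv⟩ := hu'
    refine ⟨C (A' ^ 2) * ((v⁻¹ : k'[X]ˣ) : k'[X]) * r, ?_⟩
    rw [← hv]
    have h5 : (v : k'[X]) * ((v⁻¹ : k'[X]ˣ) : k'[X]) = 1 := Units.mul_inv v
    linear_combination (-(QD (algebraMap k k' δ) n Bk * C (A' ^ 2) * r)) * h5

variable {J : Type} [Fintype J] (B : Module.Basis J ℤ (𝓞 k))

/-- **Almost all.** -/
theorem almostC (g m : ℕ) (hg : 1 ≤ g) (hm : 1 ≤ m) {c δ : k} (hc : IsCos (2 * g + 1) c)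
    (hδ : δ ≠ 0) {η : ℝ} (hη : 0 < η) :
    ∃ H0 : ℕ, ∀ H : ℕ, H0 ≤ H →
      (({x : Fin (m + 1) → 𝓞 k | (∀ i j, |B.repr (x i) j| ≤ (H : ℤ)) ∧
        ¬ NiceC g m c δ ((pol x).map (algebraMap (𝓞 k) k))}.ncard : ℕ) : ℝ) ≤
        η * (2 * H + 1) ^ ((m + 1) * Fintype.card J) := by
  set n := 2 * g + 1 with hn
  have hn3 : 3 ≤ n := by omega
  obtain ⟨C0, hC0⟩ := countD n m hn3 hm
  -- the denominator
  obtain ⟨δ₀, A, hA0, hδA⟩ := IsFractionRing.div_surjective (A := 𝓞 k) δ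
  have hA : A ≠ 0 := nonZeroDivisors.ne_zero hA0
  have hAk : algebraMap (𝓞 k) k A ≠ 0 := by
    intro h0
    exact hA (RingOfIntegers.coe_injective (by rw [h0, map_zero]))
  have hδk : algebraMap (𝓞 k) k δ₀ = algebraMap (𝓞 k) k A * δ := by
    rw [← hδA]
    field_simp
  have hδ0 : δ₀ ≠ 0 := by
    rintro rfl
    rw [map_zero] at hδk
    exact mul_ne_zero hAk hδ hδk.symm
  obtain ⟨N, hN⟩ := red_ne hA
  obtain ⟨N', hN'⟩ := red_ne hδ0
  have hnm : 3 ≤ n * m := by nlinarith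
  haveI : NeZero ((n * m : ℕ) : k) := ⟨by
    rw [Nat.cast_ne_zero]
    omega⟩
  haveI : NeZero (n * m) := ⟨by omega⟩
  let k' := CyclotomicField (n * m) k
  have hζ := IsCyclotomicExtension.zeta_spec (n * m) k k'
  let ι : 𝓞 k →+* 𝓞 k' := RingOfIntegers.mapRingHom (algebraMap k k')
  have hι : ∀ x, algebraMap (𝓞 k') k' (ι x) = algebraMap k k' (algebraMap (𝓞 k) k x) := by
    intro x
    rfl
  set D : ℕ := 2 * (2 * (n * m + 2) ^ (n * m + 2)) with hD
  have hD1 : 1 ≤ D := by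
    rw [hD]
    have : 1 ≤ (n * m + 2) ^ (n * m + 2) := Nat.one_le_pow _ _ (by omega)
    omega
  have hD1' : (1 : ℝ) ≤ (D : ℝ) := by exact_mod_cast hD1
  obtain ⟨H0, hH0⟩ := densG_one B (I := Fin (m + 1)) ι (δ := 1 / (D : ℝ))
    (by positivity) (by rw [div_le_one (by positivity)]; exact hD1')
    (C0 + N + N' + 2 * (n * m) + 7)
    (fun p _ σ => {x : Fin (m + 1) → ZMod p |
      NiceD n m ((red (σ.comp ι) A)⁻¹ * red (σ.comp ι) δ₀) (pol x)}) (by
      intro p _ σ hp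
      have hpp : p.Prime := Fact.out
      have h1 : n * m ∣ p - 1 := prim_red (by omega) hζ σ (by omega)
      have h2 : ((2 * (n * m - 1) : ℕ) : ZMod p) ≠ 0 := by
        rw [Ne, ZMod.natCast_eq_zero_iff]
        exact Nat.not_dvd_of_pos_of_lt (by omega) (by omega)
      have h3 := hC0 (ZMod p) (by rw [ZMod.card]; exact h1) h2 (by rw [ZMod.card]; omega)
        ((red (σ.comp ι) A)⁻¹ * red (σ.comp ι) δ₀)
        (mul_ne_zero (inv_ne_zero (hN p (σ.comp ι) (by omega))) (hN' p (σ.comp ι) (by omega)))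
      rw [ZMod.card] at h3
      rw [Fintype.card_fin, div_mul_eq_mul_div, one_mul, div_le_iff₀ (by positivity), mul_comm]
      exact_mod_cast h3) hη
  refine ⟨H0, fun H hH => le_trans ?_ ((hH0 H hH).trans (by rw [Fintype.card_fin]))⟩
  refine Nat.cast_le.2 (Set.ncard_le_ncard ?_ ?_)
  · rintro x ⟨h1, h2⟩
    refine ⟨h1, ?_⟩
    intro p _ σ hp h3
    have hAr := hN p (σ.comp ι) (by omega)
    have h4 := niceD_of (n := n) (m := m) ι hι σ hn3 hm hA hδk hAr (by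
      rw [← mul_assoc, mul_inv_cancel₀ hAr, one_mul]) h3
    apply h2
    refine niceC_of (algebraMap k k') ?_ hc (ω := IsCyclotomicExtension.zeta (n * m) k k' ^ m) ?_ h4
    · rw [Nat.cast_ne_zero]
      omega
    · exact hζ.pow (by omega) (by rw [mul_comm])
  · have h1 : (Set.pi Set.univ fun _ : Fin (m + 1) × J => Set.Icc (-(H : ℤ)) H).Finite :=
      Set.Finite.pi fun _ => Set.finite_Icc _ _
    let ψ : (Fin (m + 1) → 𝓞 k) → (Fin (m + 1) × J → ℤ) := fun c q => B.repr (c q.1) q.2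
    have hψ : Function.Injective ψ := by
      intro c d hcd
      funext i
      apply B.repr.injective
      ext j
      exact congrFun hcd (i, j)
    refine (h1.preimage hψ.injOn).subset ?_
    rintro c ⟨hc, -⟩ q _
    exact abs_le.1 (hc q.1 q.2)

end nf

/-- Over the tame extensions. -/
theorem niceC_ext {k : Type} [Field k] [PerfectField k] {g m : ℕ} (hg : 1 ≤ g) (hm : 1 ≤ m) {c δ : k}
    {b : k[X]} (h : NiceC g m c δ b) (k' : Type) [Field k'] [Algebra k k']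
    (hc : Tame (2 * ((2 * g + 1) * m)) k k') :
    Irreducible (QD (algebraMap k k' δ) (2 * g + 1) (b.map (algebraMap k k'))) ∧
    ∀ j : Fin g, ∀ w : k'[X], ¬ QD (algebraMap k k' δ) (2 * g + 1) (b.map (algebraMap k k')) ∣
      C (cc (algebraMap k k' c) (j + 1) ^ 2 - 4) *
        (b.map (algebraMap k k') ^ 2 - C (4 * algebraMap k k' δ)) - w ^ 2 := by
  have hnm : 1 < (2 * g + 1) * m := by nlinarith
  have hQd : (QD δ (2 * g + 1) b).natDegree = (2 * g + 1) * m := QD_deg (by omega) h.deg hnm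
  have hc2 : 2 * (QD δ (2 * g + 1) b).natDegree ∣ 2 * ((2 * g + 1) * m) := by
    rw [hQd]
  have h7 := irr_tame hc h.irr (Dvd.dvd.trans (Dvd.intro_left 2 rfl) hc2)
  rw [QD_map] at h7
  refine ⟨h7, ?_⟩
  intro j w
  have h8 := nosq_tame hc h.irr hc2 (h.nosq j) w
  rw [QD_map, Polynomial.map_mul, map_C, map_sub, map_pow, map_ofNat, cc_map, Polynomial.map_sub,
    Polynomial.map_pow, map_C, map_mul, map_ofNat] at h8
  exact h8

end Run7.h905.DK
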