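import Pool.Agent.Run7.h905.DK.Dw
import Pool.Agent.Run7.h316.EQ.Tests

/-!
# Dickson pencils: the exceptions are very null sets
-/

open Polynomial NumberField
open scoped Classical

set_option autoImplicit false
set_option linter.all false
set_option maxHeartbeats 400000

namespace Run7.h905.DK

open Pool.Agent.R431.SG
open Pool.Agent.Run7.h316.EQ (VeryNull veryNull_of_tests)

section

variable {K : Type} [Field K] [NumberField K] {J : Type} [Fintype J] (ω : Module.Basis J ℤ (𝓞 K))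

/-- The integers of `K` with given coordinates. -/
noncomputable def vecO {I : Type} (x : I × J → ℤ) (i : I) : 𝓞 K := ∑ j, x (i, j) • ω j

theorem vecO_repr {I : Type} (x : I × J → ℤ) (i : I) (j : J) : ω.repr (vecO ω x i) j = x (i, j) := by
  unfold vecO
  rw [Module.Basis.repr_sum_self]

/-- The number of the vectors with given reduction. -/
theorem preim_le {I : Type} [Fintype I] {p : ℕ} [Fact p.Prime] (σ : 𝓞 K →+* ℤ_[p])
    (Z : Set (I → ZMod p)) {D : ℕ} (h : p ^ Fintype.card I ≤ D * Z.ncard) :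
    p ^ Fintype.card (I × J) ≤ D * {y | rd ω σ I y ∈ Z}.ncard := by
  have h1 := card_preim (rd ω σ I) (rd_surj ω σ) Z
  rw [Fintype.card_fun, Fintype.card_fun, ZMod.card] at h1
  have hp : 0 < p ^ Fintype.card I := Nat.pow_pos (Fact.out : p.Prime).pos
  refine Nat.le_of_mul_le_mul_right ?_ hp
  calc p ^ Fintype.card (I × J) * p ^ Fintype.card I
      ≤ p ^ Fintype.card (I × J) * (D * Z.ncard) := Nat.mul_le_mul_left _ h
    _ = D * (Z.ncard * p ^ Fintype.card (I × J)) := by ring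
    _ = D * ({y | rd ω σ I y ∈ Z}.ncard * p ^ Fintype.card I) := by rw [h1]
    _ = _ := by ring

variable (E : Type) [Field E] [NumberField E] [Algebra K E]

/-- The polynomial over `E`. -/
noncomputable def polE (m : ℕ) (x : Fin (m + 1) × J → ℤ) : E[X] :=
  pol fun i => algebraMap K E (algebraMap (𝓞 K) K (vecO ω x i))

/-- The polynomial over a residue field of `E`. -/
noncomputable def polF {F : Type} [Field F] (φ : 𝓞 E →+* F) (m : ℕ) (x : Fin (m + 1) × J → ℤ) :
    F[X] := pol fun i => φ (RingOfIntegers.mapRingHom (algebraMap K E) (vecO ω x i))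

/-- The reduction at a prime of degree one. -/
def NiceRed (g m : ℕ) (c δ : E) (x : Fin (m + 1) × J → ℤ) : Prop :=
  ∃ (p : ℕ) (_ : Fact p.Prime) (φ : 𝓞 E →+* ZMod p) (c' δ' : ZMod p), (2 : ZMod p) ≠ 0 ∧
    ((2 * g + 1 : ℕ) : ZMod p) ≠ 0 ∧ Red φ c c' ∧ Red φ δ δ' ∧ δ' ≠ 0 ∧ IsCos (2 * g + 1) c' ∧
    NiceC g m c' δ' (polF ω E φ m x)

/-- **The exceptions are a very null set.** -/
theorem veryNull_main (g m : ℕ) (hg : 1 ≤ g) (hm : 1 ≤ m) {c δ : E} (hc : IsCos (2 * g + 1) c)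
    (hδ : δ ≠ 0) :
    VeryNull {x : Fin (m + 1) × J → ℤ | ¬ (NiceC g m c δ (polE ω E m x) ∧ NiceRed ω E g m c δ x)} := by
  set n := 2 * g + 1 with hn
  have hn3 : 3 ≤ n := by omega
  obtain ⟨c₀, hc₀⟩ := cos_int (by omega) hc
  obtain ⟨C0, hC0⟩ := countD n m hn3 hm
  obtain ⟨δ₀, A, hA0, hδA⟩ := IsFractionRing.div_surjective (A := 𝓞 E) δ
  have hA : A ≠ 0 := nonZeroDivisors.ne_zero hA0
  have hAk : algebraMap (𝓞 E) E A ≠ 0 := by
    intro h0
    exact hA (RingOfIntegers.coe_injective (by rw [h0, map_zero]))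
  have hδk : algebraMap (𝓞 E) E δ₀ = algebraMap (𝓞 E) E A * δ := by
    rw [← hδA]
    field_simp
  have hδ0 : δ₀ ≠ 0 := by
    rintro rfl
    rw [map_zero] at hδk
    exact mul_ne_zero hAk hδ hδk.symm
  obtain ⟨N, hN⟩ := red_ne hA
  obtain ⟨N', hN'⟩ := red_ne hδ0
  have hnm : 3 ≤ n * m := by nlinarith
  haveI : NeZero ((n * m : ℕ) : E) := ⟨by
    rw [Nat.cast_ne_zero]
    omega⟩
  haveI : NeZero (n * m) := ⟨by omega⟩
  let k' := CyclotomicField (n * m) E
  have hζ := IsCyclotomicExtension.zeta_spec (n * m) E k'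
  let ι : 𝓞 E →+* 𝓞 k' := RingOfIntegers.mapRingHom (algebraMap E k')
  let κ : 𝓞 K →+* 𝓞 E := RingOfIntegers.mapRingHom (algebraMap K E)
  have hι : ∀ x, algebraMap (𝓞 k') k' (ι x) = algebraMap E k' (algebraMap (𝓞 E) E x) := by
    intro x
    rfl
  set D : ℕ := 2 * (2 * (n * m + 2) ^ (n * m + 2)) with hD
  have hD1 : 0 < D := by
    rw [hD]
    have : 1 ≤ (n * m + 2) ^ (n * m + 2) := Nat.one_le_pow _ _ (by omega)
    omega
  refine veryNull_of_tests hD1 fun N₀ => ?_
  obtain ⟨p, hpF, hp, ⟨σ⟩⟩ := exists_emb k' (N₀ + C0 + N + N' + 2 * (n * m) + n + 7)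
  have hpp : p.Prime := Fact.out
  have h1 : n * m ∣ p - 1 := prim_red (by omega) hζ σ (by omega)
  have h2 : ((2 * (n * m - 1) : ℕ) : ZMod p) ≠ 0 := by
    rw [Ne, ZMod.natCast_eq_zero_iff]
    exact Nat.not_dvd_of_pos_of_lt (by omega) (by omega)
  have h2' : (2 : ZMod p) ≠ 0 := by
    intro h0
    apply h2
    rw [Nat.cast_mul]
    have : ((2 : ℕ) : ZMod p) = 0 := by exact_mod_cast h0
    rw [this, zero_mul]
  have hnp : ((n : ℕ) : ZMod p) ≠ 0 := by
    rw [Ne, ZMod.natCast_eq_zero_iff]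
    exact Nat.not_dvd_of_pos_of_lt (by omega) (by omega)
  have hAr := hN p (σ.comp ι) (by omega)
  have hδr := hN' p (σ.comp ι) (by omega)
  set φ := red (σ.comp ι) with hφ
  set δ' := (φ A)⁻¹ * φ δ₀ with hδ'
  have hδ'0 : δ' ≠ 0 := mul_ne_zero (inv_ne_zero hAr) hδr
  have h3 := hC0 (ZMod p) (by rw [ZMod.card]; exact h1) h2 (by rw [ZMod.card]; omega) δ' hδ'0
  rw [ZMod.card] at h3
  refine ⟨p, by omega, hpp, {y | rd ω ((σ.comp ι).comp κ) (Fin (m + 1)) y ∈
    {x : Fin (m + 1) → ZMod p | NiceD n m δ' (pol x)}}, ?_, ?_⟩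
  · apply preim_le
    rw [Fintype.card_fin]
    exact h3
  · intro x hx hmem
    apply hx
    have e1 : (fun q : Fin (m + 1) × J => ((x q : ℤ) : ZMod p)) =
        fun q => ((ω.repr (vecO ω x q.1) q.2 : ℤ) : ZMod p) := by
      funext q
      rw [vecO_repr]
    rw [Set.mem_setOf_eq, e1, rd_int ω ((σ.comp ι).comp κ) (vecO ω x)] at hmem
    refine ⟨?_, ?_⟩
    · have h4 := niceD_of (n := n) (m := m) (c := fun i => κ (vecO ω x i)) ι hι σ hn3 hm hA hδk hAr
        (by rw [← hφ, hδ', ← mul_assoc, mul_inv_cancel₀ hAr, one_mul]) hmem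
      have h5 : (pol fun i => κ (vecO ω x i)).map (algebraMap (𝓞 E) E) = polE ω E m x := by
        unfold polE
        rw [pol_map]
        rfl
      rw [h5] at h4
      refine niceC_of (algebraMap E k') ?_ hc (ω := IsCyclotomicExtension.zeta (n * m) E k' ^ m) ?_ h4
      · rw [Nat.cast_ne_zero]
        omega
      · exact hζ.pow (by omega) (by rw [mul_comm])
    · refine ⟨p, hpF, φ, φ c₀, δ', h2', hnp, ?_, ?_, hδ'0, ?_, ?_⟩
      · exact ⟨c₀, 1, by rw [map_one]; exact one_ne_zero, by rw [map_one, mul_one, hc₀], by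
          rw [map_one, mul_one]⟩
      · refine ⟨δ₀, A, hAr, by rw [hδk, mul_comm], ?_⟩
        rw [hδ', mul_comm, ← mul_assoc, mul_inv_cancel₀ hAr, one_mul]
      · exact cos_red φ (by rw [hc₀]; exact hc)
      · obtain ⟨ω₁, hω₁⟩ := exists_prim (k := ZMod p) (n := n) (by
          rw [Nat.card_eq_fintype_card, ZMod.card]
          exact (Dvd.intro _ rfl).trans h1)
        refine niceC_of (RingHom.id (ZMod p)) (g := g) hnp (cos_red φ (by rw [hc₀]; exact hc)) hω₁ ?_
        rw [Polynomial.map_id]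
        exact hmem

end

end Run7.h905.DK
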