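import Pool.Agent.Run7.h905.DK.Dt

/-!
# Reductions at primes of degree one
-/

open Polynomial NumberField
open scoped Classical

set_option autoImplicit false
set_option linter.all false
set_option maxHeartbeats 400000

namespace Run7.h905.DK

open Pool.Agent.R431.SG

section int

/-- `x` is integral at the kernel of `φ`, and `y` is its reduction. -/
def Red {E F : Type} [Field E] [NumberField E] [Field F] (φ : 𝓞 E →+* F) (x : E) (y : F) : Prop :=
  ∃ a s : 𝓞 E, φ s ≠ 0 ∧ x * algebraMap (𝓞 E) E s = algebraMap (𝓞 E) E a ∧ φ a = y * φ s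

/-- `ζ + ζ⁻¹` is integral. -/
theorem cos_int {E : Type} [Field E] [NumberField E] {n : ℕ} (hn : 0 < n) {c : E}
    (hc : IsCos n c) : ∃ c₀ : 𝓞 E, algebraMap (𝓞 E) E c₀ = c := by
  let ψ := algebraMap E (AlgebraicClosure E)
  have hn' : ((n : ℕ) : AlgebraicClosure E) ≠ 0 := by
    rw [Nat.cast_ne_zero]
    omega
  obtain ⟨u, hu, huc, -⟩ := cos_root hn' (cos_map ψ hc)
  have h1 : IsIntegral ℤ (ψ c) := by
    rw [← huc]
    exact (hu.isIntegral hn).add (hu.inv.isIntegral hn)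
  have h2 : IsIntegral ℤ c := (isIntegral_algHom_iff (IsScalarTower.toAlgHom ℤ E (AlgebraicClosure E))
    ψ.injective).1 h1
  exact ⟨⟨c, h2⟩, rfl⟩

theorem cos_red {E F : Type} [Field E] [NumberField E] [Field F] (φ : 𝓞 E →+* F) {n : ℕ} {c₀ : 𝓞 E}
    (hc : IsCos n (algebraMap (𝓞 E) E c₀)) : IsCos n (φ c₀) := by
  have hm : (X ^ 2 - C c₀ * X + 1 : (𝓞 E)[X]).Monic := by
    monicity!
  have h1 : (X ^ 2 - C c₀ * X + 1 : (𝓞 E)[X]) ∣ cyclotomic n (𝓞 E) := by
    rw [← map_dvd_map (algebraMap (𝓞 E) E) RingOfIntegers.coe_injective hm, map_cyclotomic,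
      Polynomial.map_add, Polynomial.map_sub, Polynomial.map_mul, Polynomial.map_pow, map_X, map_C,
      Polynomial.map_one]
    exact hc
  have h2 := Polynomial.map_dvd φ h1
  rw [map_cyclotomic, Polynomial.map_add, Polynomial.map_sub, Polynomial.map_mul,
    Polynomial.map_pow, map_X, map_C, Polynomial.map_one] at h2
  exact h2

end int

section nf

variable {k : Type} [Field k] [NumberField k]

/-- The reduction at a prime of degree one. -/
def NiceP (g m : ℕ) (c δ : k) (x : Fin (m + 1) → 𝓞 k) : Prop :=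
  ∃ (p : ℕ) (_ : Fact p.Prime) (φ : 𝓞 k →+* ZMod p) (c' δ' : ZMod p), (2 : ZMod p) ≠ 0 ∧
    ((2 * g + 1 : ℕ) : ZMod p) ≠ 0 ∧ Red φ c c' ∧ Red φ δ δ' ∧ δ' ≠ 0 ∧ IsCos (2 * g + 1) c' ∧
    NiceC g m c' δ' (pol fun i => φ (x i))

variable {J : Type} [Fintype J] (B : Module.Basis J ℤ (𝓞 k))

/-- **Almost all.** -/
theorem almostP (g m : ℕ) (hg : 1 ≤ g) (hm : 1 ≤ m) {c δ : k} (hc : IsCos (2 * g + 1) c)
    (hδ : δ ≠ 0) {η : ℝ} (hη : 0 < η) :
    ∃ H0 : ℕ, ∀ H : ℕ, H0 ≤ H →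
      (({x : Fin (m + 1) → 𝓞 k | (∀ i j, |B.repr (x i) j| ≤ (H : ℤ)) ∧
        ¬ (NiceC g m c δ ((pol x).map (algebraMap (𝓞 k) k)) ∧ NiceP g m c δ x)}.ncard : ℕ) : ℝ) ≤
        η * (2 * H + 1) ^ ((m + 1) * Fintype.card J) := by
  set n := 2 * g + 1 with hn
  have hn3 : 3 ≤ n := by omega
  obtain ⟨c₀, hc₀⟩ := cos_int (by omega) hc
  obtain ⟨C0, hC0⟩ := countD n m hn3 hm
  -- the denominator
  obtain ⟨δ₀, A, hA0, hδA⟩ := IsFractionRing.div_surjective (A := 𝓞 k) δ
  have hA : A ≠ 0 := nonZeroDivisors.ne_zero hA0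
  have hAk : algebraMap (𝓞 k) k A ≠ 0 := by
    intro h0
    exact hA (RingOfIntegers.coe_injective (by rw [h0, map_zero]))
  have hδk : algebraMap (𝓞 k) k δ₀ = algebraMap (𝓞 k) k A * δ := by
    rw [← hδA]
    field_simp
  have hδ0 : δ₀ ≠ 0 := by
    rintro rfl
    rw [map_zero] at hδk
    exact mul_ne_zero hAk hδ hδk.symm
  obtain ⟨N, hN⟩ := red_ne hA
  obtain ⟨N', hN'⟩ := red_ne hδ0
  have hnm : 3 ≤ n * m := by nlinarith
  haveI : NeZero ((n * m : ℕ) : k) := ⟨by
    rw [Nat.cast_ne_zero]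
    omega⟩
  haveI : NeZero (n * m) := ⟨by omega⟩
  let k' := CyclotomicField (n * m) k
  have hζ := IsCyclotomicExtension.zeta_spec (n * m) k k'
  let ι : 𝓞 k →+* 𝓞 k' := RingOfIntegers.mapRingHom (algebraMap k k')
  have hι : ∀ x, algebraMap (𝓞 k') k' (ι x) = algebraMap k k' (algebraMap (𝓞 k) k x) := by
    intro x
    rfl
  set D : ℕ := 2 * (2 * (n * m + 2) ^ (n * m + 2)) with hD
  have hD1 : 1 ≤ D := by
    rw [hD]
    have : 1 ≤ (n * m + 2) ^ (n * m + 2) := Nat.one_le_pow _ _ (by omega)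
    omega
  have hD1' : (1 : ℝ) ≤ (D : ℝ) := by exact_mod_cast hD1
  have h2 : ∀ p : ℕ, 2 * (n * m) + n + 7 ≤ p → ((2 * (n * m - 1) : ℕ) : ZMod p) ≠ 0 := by
    intro p hp
    rw [Ne, ZMod.natCast_eq_zero_iff]
    exact Nat.not_dvd_of_pos_of_lt (by omega) (by omega)
  obtain ⟨H0, hH0⟩ := densG_one B (I := Fin (m + 1)) ι (δ := 1 / (D : ℝ))
    (by positivity) (by rw [div_le_one (by positivity)]; exact hD1')
    (C0 + N + N' + (2 * (n * m) + n + 7))
    (fun p _ σ => {x : Fin (m + 1) → ZMod p |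
      NiceD n m ((red (σ.comp ι) A)⁻¹ * red (σ.comp ι) δ₀) (pol x)}) (by
      intro p _ σ hp
      have hpp : p.Prime := Fact.out
      have h1 : n * m ∣ p - 1 := prim_red (by omega) hζ σ (by omega)
      have h3 := hC0 (ZMod p) (by rw [ZMod.card]; exact h1) (h2 p (by omega))
        (by rw [ZMod.card]; omega)
        ((red (σ.comp ι) A)⁻¹ * red (σ.comp ι) δ₀)
        (mul_ne_zero (inv_ne_zero (hN p (σ.comp ι) (by omega))) (hN' p (σ.comp ι) (by omega)))
      rw [ZMod.card] at h3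
      rw [Fintype.card_fin, div_mul_eq_mul_div, one_mul, div_le_iff₀ (by positivity), mul_comm]
      exact_mod_cast h3) hη
  refine ⟨H0, fun H hH => le_trans ?_ ((hH0 H hH).trans (by rw [Fintype.card_fin]))⟩
  refine Nat.cast_le.2 (Set.ncard_le_ncard ?_ ?_)
  · rintro x ⟨h1, h2x⟩
    refine ⟨h1, ?_⟩
    intro p hpF σ hp h3
    apply h2x
    have hAr := hN p (σ.comp ι) (by omega)
    have hδr := hN' p (σ.comp ι) (by omega)
    refine ⟨?_, ?_⟩
    · have h4 := niceD_of (n := n) (m := m) ι hι σ hn3 hm hA hδk hAr (by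
        rw [← mul_assoc, mul_inv_cancel₀ hAr, one_mul]) h3
      refine niceC_of (algebraMap k k') ?_ hc (ω := IsCyclotomicExtension.zeta (n * m) k k' ^ m) ?_ h4
      · rw [Nat.cast_ne_zero]
        omega
      · exact hζ.pow (by omega) (by rw [mul_comm])
    · have h1p : n * m ∣ p - 1 := prim_red (by omega) hζ σ (by omega)
      have h2p := h2 p (by omega)
      have h2' : (2 : ZMod p) ≠ 0 := by
        intro h0
        apply h2p
        rw [Nat.cast_mul]
        have : ((2 : ℕ) : ZMod p) = 0 := by exact_mod_cast h0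
        rw [this, zero_mul]
      have hnp : ((n : ℕ) : ZMod p) ≠ 0 := by
        rw [Ne, ZMod.natCast_eq_zero_iff]
        exact Nat.not_dvd_of_pos_of_lt (by omega) (by omega)
      refine ⟨p, hpF, red (σ.comp ι), red (σ.comp ι) c₀,
        (red (σ.comp ι) A)⁻¹ * red (σ.comp ι) δ₀, h2', hnp, ?_, ?_,
        mul_ne_zero (inv_ne_zero hAr) hδr, ?_, ?_⟩
      · exact ⟨c₀, 1, by rw [map_one]; exact one_ne_zero, by rw [map_one, mul_one, hc₀], by
          rw [map_one, mul_one]⟩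
      · refine ⟨δ₀, A, hAr, by rw [hδk, mul_comm], ?_⟩
        rw [mul_right_comm, inv_mul_cancel₀ hAr, one_mul]
      · exact cos_red _ (by rw [hc₀]; exact hc)
      · obtain ⟨ω₁, hω₁⟩ := exists_prim (k := ZMod p) (n := n) (by
          rw [Nat.card_eq_fintype_card, ZMod.card]
          exact (Dvd.intro _ rfl).trans h1p)
        refine niceC_of (RingHom.id (ZMod p)) (g := g) hnp
          (cos_red _ (by rw [hc₀]; exact hc)) hω₁ ?_
        rw [Polynomial.map_id]
        exact h3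
  · have h1 : (Set.pi Set.univ fun _ : Fin (m + 1) × J => Set.Icc (-(H : ℤ)) H).Finite :=
      Set.Finite.pi fun _ => Set.finite_Icc _ _
    let ψ : (Fin (m + 1) → 𝓞 k) → (Fin (m + 1) × J → ℤ) := fun c q => B.repr (c q.1) q.2
    have hψ : Function.Injective ψ := by
      intro c d hcd
      funext i
      apply B.repr.injective
      ext j
      exact congrFun hcd (i, j)
    refine (h1.preimage hψ.injOn).subset ?_
    rintro c ⟨hc, -⟩ q _
    exact abs_le.1 (hc q.1 q.2)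

end nf

end Run7.h905.DK
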