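import Pool.Agent.Run7.h905.DK.Dt

/-!
# Dickson pencils over finite fields: the good polynomials
-/

open Polynomial
open scoped Classical

set_option autoImplicit false
set_option linter.all false
set_option maxHeartbeats 400000

namespace Run7.h905.DK

open Pool.Agent.R431.SG

/-- Over a finite field with the roots of unity. -/
theorem niceC_fin {k : Type} [Field k] [Finite k] {g m : ℕ} {c δ : k} {b : k[X]}
    (hn : ((2 * g + 1 : ℕ) : k) ≠ 0) (hdiv : 2 * g + 1 ∣ Nat.card k - 1) (hc : IsCos (2 * g + 1) c)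
    (h : NiceD (2 * g + 1) m δ b) : NiceC g m c δ b := by
  obtain ⟨ω₁, hω₁⟩ := exists_prim hdiv
  refine niceC_of (RingHom.id k) (g := g) hn hc hω₁ ?_
  rw [Polynomial.map_id]
  exact h

theorem n_ne {k : Type} [Field k] [Finite k] {n m : ℕ} (hdiv : n * m ∣ Nat.card k - 1) :
    ((n : ℕ) : k) ≠ 0 := by
  haveI := Fintype.ofFinite k
  intro h
  obtain ⟨s, hs⟩ := hdiv
  have h1 : 1 ≤ Nat.card k := Nat.card_pos
  have h2 : Nat.card k = n * m * s + 1 := by omega
  have h3 : ((Nat.card k : ℕ) : k) = 0 := by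
    rw [Nat.card_eq_fintype_card]
    exact FiniteField.cast_card_eq_zero k
  rw [h2, Nat.cast_add, Nat.cast_mul, Nat.cast_mul, h, zero_mul, zero_mul, zero_add,
    Nat.cast_one] at h3
  exact one_ne_zero h3

/-- All pencils. -/
theorem pencilC (g m : ℕ) (hg : 1 ≤ g) (hm : 1 ≤ m) : ∃ C0 : ℕ, ∀ (k : Type) [Field k] [Finite k],
    (2 * g + 1) * m ∣ Nat.card k - 1 → ((2 * ((2 * g + 1) * m - 1) : ℕ) : k) ≠ 0 →
    C0 < Nat.card k → ∀ c δ : k, IsCos (2 * g + 1) c → δ ≠ 0 →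
    (∀ b : k[X], b.natDegree = m → ∃ bad : Finset k, bad.card ≤ (2 * g + 1) * m + 1 ∧
      ∀ l ∉ bad, Nat.card k ≤ 2 * ((2 * g + 1) * m + 2) ^ ((2 * g + 1) * m + 2) *
        {μ : k | NiceC g m c δ (C l * b + C μ)}.ncard) ∧
    Nat.card k ^ (m + 1) ≤ 2 * (2 * ((2 * g + 1) * m + 2) ^ ((2 * g + 1) * m + 2)) *
      {x : Fin (m + 1) → k | NiceC g m c δ (pol x)}.ncard := by
  set n := 2 * g + 1 with hn
  have hn3 : 3 ≤ n := by omega
  have hnm : 3 ≤ n * m := by nlinarith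
  obtain ⟨C0, hC0⟩ := pencil n m hnm
  obtain ⟨C1, hC1⟩ := countD n m hn3 hm
  refine ⟨max C0 C1, ?_⟩
  intro k _ _ hdiv h6 hcard c δ hc hδ
  haveI := Fintype.ofFinite k
  have hnk := n_ne hdiv
  have hdn : n ∣ Nat.card k - 1 := (Dvd.intro _ rfl).trans hdiv
  have hcn : Nat.card k = Fintype.card k := Nat.card_eq_fintype_card
  have key : ∀ b : k[X], NiceD n m δ b → NiceC g m c δ b := fun b h => niceC_fin hnk hdn hc h
  refine ⟨?_, ?_⟩
  · intro b hb
    have h6' := h6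
    rw [Nat.cast_mul] at h6'
    have h2 : (2 : k) ≠ 0 := by
      have := left_ne_zero_of_mul h6'
      exact_mod_cast this
    have h6'' : ((n * m - 1 : ℕ) : k) ≠ 0 := right_ne_zero_of_mul h6'
    obtain ⟨ω, hω⟩ := exists_prim hdiv
    have he : (4 * δ : k) ≠ 0 := by
      have h4 : (4 : k) ≠ 0 := by
        have : (4 : k) = 2 ^ 2 := by norm_num
        rw [this]
        exact pow_ne_zero _ h2
      exact mul_ne_zero h4 hδ
    have hn0 : n ≠ 0 := by omega
    obtain ⟨bad, hbad1, hbad2⟩ := hC0 k h2 ω hω h6'' (D δ n) (D_monic δ hn0) (D_deg δ hn0) _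
      he b hb
    refine ⟨bad, hbad1, ?_⟩
    intro l hl
    obtain ⟨hl0, hl1⟩ := hbad2 (lt_of_le_of_lt (le_max_left _ _) hcard) l hl
    refine hl1.trans (Nat.mul_le_mul_left _ (Set.ncard_le_ncard ?_ (Set.toFinite _)))
    rintro μ ⟨h4, h5⟩
    apply key
    refine ⟨?_, h4, h5⟩
    rw [natDegree_add_C, natDegree_C_mul hl0, hb]
  · have h3 := hC1 k (by rw [← hcn]; exact hdiv) h6
      (by rw [← hcn]; exact lt_of_le_of_lt (le_max_right _ _) hcard) δ hδ
    rw [← hcn] at h3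
    refine h3.trans (Nat.mul_le_mul_left _ (Set.ncard_le_ncard ?_ (Set.toFinite _)))
    intro x hx
    exact key _ hx

end Run7.h905.DK
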